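import Pool.Agent.Knieper.Defs

/-!
# Global flows of compactly supported `C²` vector fields, with `C^{1,1}` dependence on initial data
-/

noncomputable section

open Set Filter Topology Metric
open scoped NNReal ContDiff

namespace Knieper

section general

variable {W : Type*} [NormedAddCommGroup W] [NormedSpace ℝ W]

/-- Two-sided Grönwall inequality in a convenient form. -/
theorem gronwall_two_sided {u u' : ℝ → W} {K ε T : ℝ} (hK : 0 < K) (hε : 0 ≤ ε)
    (hu : ∀ t, HasDerivAt u (u' t) t) (hb : ∀ t, |t| ≤ T → ‖u' t‖ ≤ K * ‖u t‖ + ε)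
    {t : ℝ} (ht : |t| ≤ T) : ‖u t‖ ≤ (‖u 0‖ + ε / K) * Real.exp (K * |t|) := by
  have key : ∀ (v v' : ℝ → W), (∀ t, HasDerivAt v (v' t) t) →
      (∀ t, |t| ≤ T → ‖v' t‖ ≤ K * ‖v t‖ + ε) → ∀ t, 0 ≤ t → t ≤ T →
      ‖v t‖ ≤ (‖v 0‖ + ε / K) * Real.exp (K * t) := by
    intro v v' hv hvb t ht0 htT
    have h := norm_le_gronwallBound_of_norm_deriv_right_le (f := v) (f' := v') (δ := ‖v 0‖)
      (K := K) (ε := ε) (a := 0) (b := T)
      (fun s _ => (hv s).continuousAt.continuousWithinAt)
      (fun s _ => (hv s).hasDerivWithinAt) le_rfl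
      (fun s hs => hvb s (by rw [abs_of_nonneg hs.1]; exact hs.2.le)) t ⟨ht0, htT⟩
    rw [gronwallBound_of_K_ne_0 hK.ne', sub_zero] at h
    refine h.trans ?_
    have h1 : 0 ≤ ε / K := by positivity
    nlinarith [Real.exp_pos (K * t)]
  rcases le_total 0 t with h0 | h0
  · rw [abs_of_nonneg h0] at ht ⊢
    exact key u u' hu hb t h0 ht
  · rw [abs_of_nonpos h0] at ht ⊢
    have h := key (fun s => u (-s)) (fun s => -(u' (-s))) (fun s => by
      have := (hu (-s)).scomp s (hasDerivAt_neg s)
      simpa [Function.comp_def] using this) (fun s hs => by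
      have := hb (-s) (by rwa [abs_neg])
      simpa using this) (-t) (by linarith) ht
    simpa using h

/-- Gluing solutions defined on large bounded intervals. -/
theorem glue_solutions {f : ℝ → W → W} {K : ℝ≥0} (hf : ∀ t, LipschitzWith K (f t)) {x₀ : W}
    (h : ∀ n : ℕ, ∃ α : ℝ → W, α 0 = x₀ ∧ ∀ t ∈ Ioo (-(n : ℝ)) n, HasDerivAt α (f t (α t)) t) :
    ∃ α : ℝ → W, α 0 = x₀ ∧ ∀ t, HasDerivAt α (f t (α t)) t := by
  choose α h0 hα using h
  have huniq : ∀ n m : ℕ, n ≤ m → ∀ t ∈ Ioo (-(n : ℝ)) n, α n t = α m t := by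
    intro n m hnm t ht
    have hn : (0 : ℝ) < n := by
      have := ht.1.trans ht.2
      linarith
    have hnm' : (n : ℝ) ≤ m := by exact_mod_cast hnm
    exact ODE_solution_unique_of_mem_Ioo (v := f) (s := fun _ => univ) (K := K) (t₀ := 0)
      (fun t _ => (hf t).lipschitzOnWith) ⟨by linarith, hn⟩
      (fun s hs => ⟨hα n s hs, trivial⟩)
      (fun s hs => ⟨hα m s ⟨by linarith [hs.1], by linarith [hs.2]⟩, trivial⟩)
      ((h0 n).trans (h0 m).symm) ht
  set β : ℝ → W := fun t => α (⌊|t|⌋₊ + 1) t with hβ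
  refine ⟨β, by simp [hβ, h0], fun t => ?_⟩
  set N : ℕ := ⌊|t|⌋₊ + 3 with hN
  have htN : |t| + 1 < N := by
    have := Nat.lt_floor_add_one |t|
    rw [hN]; push_cast; linarith
  have heq : β =ᶠ[𝓝 t] α N := by
    filter_upwards [ball_mem_nhds t (show (0 : ℝ) < 1 by norm_num)] with s hs
    rw [Metric.mem_ball, Real.dist_eq] at hs
    have hs1 : |s| < |t| + 1 := by
      have := abs_sub_abs_le_abs_sub s t
      linarith
    have hle : ⌊|s|⌋₊ + 1 ≤ N := by
      have h1 : (⌊|s|⌋₊ : ℝ) ≤ |s| := Nat.floor_le (abs_nonneg s)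
      have h2 : (⌊|s|⌋₊ : ℝ) + 1 < N + 1 := by linarith
      have h3 : ⌊|s|⌋₊ + 1 < N + 1 := by exact_mod_cast h2
      omega
    refine huniq _ N hle s ?_
    have := Nat.lt_floor_add_one |s|
    rw [mem_Ioo]
    push_cast
    exact abs_lt.mp this
  have ht' : t ∈ Ioo (-(N : ℝ)) N := abs_lt.mp (by linarith)
  have h1 := hα N t ht'
  rw [← heq.eq_of_nhds] at h1
  exact h1.congr_of_eventuallyEq heq

variable [CompleteSpace W]

/-- Solutions of bounded Lipschitz non-autonomous equations on a large bounded interval. -/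
theorem exists_solution_bounded {f : ℝ → W → W} {K : ℝ≥0} (hf : ∀ t, LipschitzWith K (f t))
    (hc : ∀ x, Continuous fun t => f t x) {M : ℝ≥0} (hM : ∀ t x, ‖f t x‖ ≤ M) (x₀ : W) (T : ℝ)
    (hT : 0 < T) :
    ∃ α : ℝ → W, α 0 = x₀ ∧ ∀ t ∈ Ioo (-T) T, HasDerivAt α (f t (α t)) t := by
  have hpl : IsPicardLindelof f (tmin := -T) (tmax := T) ⟨0, by constructor <;> linarith⟩ x₀
      (M * T.toNNReal) 0 M K :=
    { lipschitzOnWith := fun t _ => (hf t).lipschitzOnWith
      continuousOn := fun x _ => (hc x).continuousOn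
      norm_le := fun t _ x _ => hM t x
      mul_max_le := by
        simp [Real.coe_toNNReal T hT.le] }
  obtain ⟨α, h0, hα⟩ := hpl.exists_eq_forall_mem_Icc_hasDerivWithinAt₀
  refine ⟨α, h0, fun t ht => (hα t (Ioo_subset_Icc_self ht)).hasDerivAt (Icc_mem_nhds ht.1 ht.2)⟩

/-- Global solutions of bounded Lipschitz non-autonomous equations. -/
theorem exists_solution_global {f : ℝ → W → W} {K : ℝ≥0} (hf : ∀ t, LipschitzWith K (f t))
    (hc : ∀ x, Continuous fun t => f t x) {M : ℝ≥0} (hM : ∀ t x, ‖f t x‖ ≤ M) (x₀ : W) :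
    ∃ α : ℝ → W, α 0 = x₀ ∧ ∀ t, HasDerivAt α (f t (α t)) t := by
  refine glue_solutions hf fun n => ?_
  obtain ⟨α, h0, hα⟩ := exists_solution_bounded hf hc hM x₀ (n + 1) (by positivity)
  exact ⟨α, h0, fun t ht => hα t ⟨by linarith [ht.1], by linarith [ht.2]⟩⟩

end general

section linear

variable {W : Type*} [NormedAddCommGroup W] [NormedSpace ℝ W] [FiniteDimensional ℝ W]

/-- Global solutions of linear equations with bounded continuous coefficients. -/
theorem exists_solution_linear {B : ℝ → W →L[ℝ] W} (hB : Continuous B) {K : ℝ≥0}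
    (hK : ∀ t, ‖B t‖ ≤ K) (x₀ : W) :
    ∃ α : ℝ → W, α 0 = x₀ ∧ ∀ t, HasDerivAt α (B t (α t)) t := by
  have hcomplete : CompleteSpace W := FiniteDimensional.complete ℝ W
  refine glue_solutions (f := fun t x => B t x) (K := K)
    (fun t => (B t).lipschitz.weaken (by exact_mod_cast hK t)) fun n => ?_
  -- truncation
  set K₁ : ℝ := K + 1 with hK₁
  have hK₁pos : 0 < K₁ := by positivity
  set R : ℝ := (‖x₀‖ + 1) * Real.exp (K₁ * (n + 1)) with hR
  have hRpos : 0 < R := by positivity
  let χ : ContDiffBump (0 : W) := ⟨R, R + 1, hRpos, by linarith⟩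
  set g : W → W := fun x => χ x • x with hg
  have hgc : ContDiff ℝ 1 g := χ.contDiff.smul contDiff_id
  have hgs : HasCompactSupport g := χ.hasCompactSupport.smul_right
  obtain ⟨L, hL⟩ := hgc.lipschitzWith_of_hasCompactSupport hgs (by norm_num)
  obtain ⟨M, hM⟩ := hgs.exists_bound_of_continuous hgc.continuous
  have hg1 : ∀ x, ‖g x‖ ≤ ‖x‖ := by
    intro x
    rw [hg, norm_smul, Real.norm_of_nonneg χ.nonneg]
    exact mul_le_of_le_one_left (norm_nonneg x) χ.le_one
  have hg2 : ∀ x, ‖x‖ ≤ R → g x = x := by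
    intro x hx
    rw [hg]
    simp only
    rw [χ.one_of_mem_closedBall (by simpa using hx), one_smul]
  obtain ⟨α, h0, hα⟩ := exists_solution_global (f := fun t x => B t (g x)) (K := K * L)
    (fun t => ((B t).lipschitz.weaken (by exact_mod_cast hK t)).comp hL)
    (fun x => by fun_prop) (M := K * M.toNNReal)
    (fun t x => by
      refine ((B t).le_opNorm _).trans ?_
      push_cast
      refine mul_le_mul (hK t) ((hM x).trans ?_) (norm_nonneg _) K.2
      exact Real.le_coe_toNNReal M) x₀
  refine ⟨α, h0, fun t ht => ?_⟩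
  have hα' : ‖α t‖ ≤ R := by
    have hn : |t| ≤ n + 1 := by
      have := abs_lt.mpr ht
      linarith
    have h := gronwall_two_sided (u := α) (u' := fun t => B t (g (α t))) (K := K₁) (ε := 0)
      (T := n + 1) hK₁pos le_rfl hα (fun s _ => by
        refine ((B s).le_opNorm _).trans ?_
        rw [add_zero]
        refine mul_le_mul ((hK s).trans ?_) (hg1 _) (norm_nonneg _) hK₁pos.le
        rw [hK₁]; linarith) hn
    rw [zero_div, add_zero, h0] at h
    refine h.trans ?_
    rw [hR]
    gcongr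
    linarith
  have := hα t
  simp only [hg2 _ hα'] at this
  exact this

end linear

/-- **Flow theorem.** -/
theorem flow_theorem : FlowStatement := by
  intro V _ _ _ X hX hXc
  have hcomplete : CompleteSpace V := FiniteDimensional.complete ℝ V
  have hX1 : ContDiff ℝ 1 X := hX.of_le (by norm_num)
  -- constants
  obtain ⟨K₀, hK₀⟩ := hX1.lipschitzWith_of_hasCompactSupport hXc (by norm_num)
  obtain ⟨M₀, hM₀⟩ := hXc.exists_bound_of_continuous hX.continuous
  have hdX : ContDiff ℝ 1 (fderiv ℝ X) := hX.fderiv_right (by norm_num)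
  obtain ⟨K₂, hK₂⟩ := hdX.lipschitzWith_of_hasCompactSupport (hXc.fderiv ℝ) (by norm_num)
  have hXd : Differentiable ℝ X := hX1.differentiable (by norm_num)
  have hdXle : ∀ x, ‖fderiv ℝ X x‖ ≤ K₀ := fun x => norm_fderiv_le_of_lipschitz ℝ hK₀
  set K : ℝ := K₀ + 1 with hKdef
  have hK : 0 < K := by positivity
  have hK₀K : (K₀ : ℝ) ≤ K := by rw [hKdef]; linarith
  -- the flow
  have hflow : ∀ x, ∃ α : ℝ → V, α 0 = x ∧ ∀ t, HasDerivAt α (X (α t)) t := fun x =>
    exists_solution_global (f := fun _ => X) (K := K₀) (fun _ => hK₀)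
      (fun _ => continuous_const) (M := M₀.toNNReal)
      (fun _ x => (hM₀ x).trans (Real.le_coe_toNNReal _)) x
  choose φ hφ0 hφ using hflow
  have hφc : ∀ x, Continuous (φ x) := fun x =>
    continuous_iff_continuousAt.mpr fun t => (hφ x t).continuousAt
  -- the linearised flow
  have hlin : ∀ x, ∃ α : ℝ → (V →L[ℝ] V), α 0 = ContinuousLinearMap.id ℝ V ∧
      ∀ t, HasDerivAt α ((fderiv ℝ X (φ x t)).comp (α t)) t := by
    intro x
    obtain ⟨α, h0, hα⟩ := exists_solution_linear (W := V →L[ℝ] V)
      (B := fun t => ContinuousLinearMap.compL ℝ V V V (fderiv ℝ X (φ x t)))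
      (by
        have h1 : Continuous fun t => fderiv ℝ X (φ x t) := hdX.continuous.comp (hφc x)
        exact (ContinuousLinearMap.compL ℝ V V V).continuous.comp h1) (K := K₀)
      (fun t => by
        refine (ContinuousLinearMap.le_of_opNorm_le _ (ContinuousLinearMap.norm_compL_le ℝ V V V)
          _).trans ?_
        rw [one_mul]
        exact hdXle _) (ContinuousLinearMap.id ℝ V)
    exact ⟨α, h0, hα⟩
  choose A hA0 hA using hlin
  -- estimates
  have est1 : ∀ x y t, ‖φ x t - φ y t‖ ≤ ‖x - y‖ * Real.exp (K * |t|) := by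
    intro x y t
    have h := gronwall_two_sided (u := fun t => φ x t - φ y t)
      (u' := fun t => X (φ x t) - X (φ y t)) (K := K) (ε := 0) (T := |t|) hK le_rfl
      (fun s => (hφ x s).sub (hφ y s)) (fun s _ => by
        rw [add_zero]
        have := hK₀.dist_le_mul (φ x s) (φ y s)
        rw [dist_eq_norm, dist_eq_norm] at this
        exact this.trans (mul_le_mul_of_nonneg_right hK₀K (norm_nonneg _))) (t := t) le_rfl
    simpa [hφ0] using h
  have est2 : ∀ x t, ‖A x t‖ ≤ Real.exp (K * |t|) := by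
    intro x t
    have h := gronwall_two_sided (u := A x)
      (u' := fun t => (fderiv ℝ X (φ x t)).comp (A x t)) (K := K) (ε := 0) (T := |t|) hK le_rfl
      (hA x) (fun s _ => by
        rw [add_zero]
        refine (ContinuousLinearMap.opNorm_comp_le _ _).trans ?_
        exact mul_le_mul_of_nonneg_right ((hdXle _).trans hK₀K) (norm_nonneg _)) (t := t) le_rfl
    rw [hA0, zero_div, add_zero] at h
    refine h.trans ?_
    exact mul_le_of_le_one_left (Real.exp_pos _).le ContinuousLinearMap.norm_id_le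
  have est3 : ∀ T x y t, |t| ≤ T → ‖A x t - A y t‖ ≤
      (K₂ * Real.exp (K * T) * Real.exp (K * T) / K * Real.exp (K * T)) * ‖x - y‖ := by
    intro T x y t ht
    have hexp : ∀ s, |s| ≤ T → Real.exp (K * |s|) ≤ Real.exp (K * T) := fun s hs => by gcongr
    have h := gronwall_two_sided (u := fun t => A x t - A y t)
      (u' := fun t => (fderiv ℝ X (φ x t)).comp (A x t) - (fderiv ℝ X (φ y t)).comp (A y t))
      (K := K) (ε := K₂ * Real.exp (K * T) * Real.exp (K * T) * ‖x - y‖) (T := T) hK
      (by positivity) (fun s => (hA x s).sub (hA y s)) (fun s hs => by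
        have e1 : (fderiv ℝ X (φ x s)).comp (A x s) - (fderiv ℝ X (φ y s)).comp (A y s)
            = (fderiv ℝ X (φ x s)).comp (A x s - A y s)
              + (fderiv ℝ X (φ x s) - fderiv ℝ X (φ y s)).comp (A y s) := by
          ext v; simp
        rw [e1]
        refine (norm_add_le _ _).trans (add_le_add ?_ ?_)
        · refine (ContinuousLinearMap.opNorm_comp_le _ _).trans ?_
          exact mul_le_mul_of_nonneg_right ((hdXle _).trans hK₀K) (norm_nonneg _)
        · refine (ContinuousLinearMap.opNorm_comp_le _ _).trans ?_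
          have h1 := hK₂.dist_le_mul (φ x s) (φ y s)
          rw [dist_eq_norm, dist_eq_norm] at h1
          have h2 := est1 x y s
          have h3 := est2 y s
          have h4 := hexp s hs
          calc ‖fderiv ℝ X (φ x s) - fderiv ℝ X (φ y s)‖ * ‖A y s‖
              ≤ (K₂ * (‖x - y‖ * Real.exp (K * T))) * Real.exp (K * T) := by
                gcongr
                · refine h1.trans ?_
                  gcongr
                  exact h2.trans (by gcongr)
                · exact h3.trans h4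
            _ = _ := by ring) ht
    rw [hA0, hA0, sub_self, norm_zero, zero_add] at h
    refine h.trans ?_
    have h4 := hexp t ht
    calc K₂ * Real.exp (K * T) * Real.exp (K * T) * ‖x - y‖ / K * Real.exp (K * |t|)
        ≤ K₂ * Real.exp (K * T) * Real.exp (K * T) * ‖x - y‖ / K * Real.exp (K * T) := by gcongr
      _ = _ := by ring
  have taylor : ∀ a b, ‖X b - X a - fderiv ℝ X a (b - a)‖ ≤ K₂ * ‖b - a‖ * ‖b - a‖ := by
    intro a b
    refine (convex_segment a b).norm_image_sub_le_of_norm_fderiv_le' (fun x _ => hXd x)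
      (fun x hx => ?_) (left_mem_segment ℝ a b) (right_mem_segment ℝ a b)
    have h1 := hK₂.dist_le_mul x a
    rw [dist_eq_norm, dist_eq_norm] at h1
    refine h1.trans ?_
    gcongr
    have := norm_sub_le_of_mem_segment hx
    simpa [norm_sub_rev] using this
  have est4 : ∀ x y t, ‖φ y t - φ x t - A x t (y - x)‖ ≤
      (K₂ * Real.exp (K * |t|) * Real.exp (K * |t|) / K * Real.exp (K * |t|)) * ‖y - x‖ ^ 2 := by
    intro x y t
    have h := gronwall_two_sided (u := fun t => φ y t - φ x t - A x t (y - x))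
      (u' := fun t => X (φ y t) - X (φ x t) - (fderiv ℝ X (φ x t)) (A x t (y - x)))
      (K := K) (ε := K₂ * Real.exp (K * |t|) * Real.exp (K * |t|) * ‖y - x‖ ^ 2) (T := |t|) hK
      (by positivity) (fun s => by
        have h1 := ((hφ y s).sub (hφ x s)).sub ((hA x s).clm_apply (hasDerivAt_const s (y - x)))
        refine HasDerivAt.congr_deriv h1 ?_
        simp) (fun s hs => by
        have e1 : X (φ y s) - X (φ x s) - (fderiv ℝ X (φ x s)) (A x s (y - x))
            = (X (φ y s) - X (φ x s) - (fderiv ℝ X (φ x s)) (φ y s - φ x s))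
              + (fderiv ℝ X (φ x s)) (φ y s - φ x s - A x s (y - x)) := by
          simp only [map_sub]; abel
        rw [e1, add_comm]
        refine (norm_add_le _ _).trans (add_le_add ?_ ?_)
        · refine (ContinuousLinearMap.le_opNorm _ _).trans ?_
          exact mul_le_mul_of_nonneg_right ((hdXle _).trans hK₀K) (norm_nonneg _)
        · refine (taylor _ _).trans ?_
          have h2 := est1 y x s
          have h4 : Real.exp (K * |s|) ≤ Real.exp (K * |t|) := by gcongr
          have h5 : ‖φ y s - φ x s‖ ≤ ‖y - x‖ * Real.exp (K * |t|) := h2.trans (by gcongr)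
          calc (K₂ : ℝ) * ‖φ y s - φ x s‖ * ‖φ y s - φ x s‖
              ≤ K₂ * (‖y - x‖ * Real.exp (K * |t|)) * (‖y - x‖ * Real.exp (K * |t|)) := by gcongr
            _ = _ := by ring) (t := t) le_rfl
    rw [hφ0, hφ0, hA0] at h
    simp only [ContinuousLinearMap.id_apply, sub_self, norm_zero, zero_add] at h
    refine h.trans (le_of_eq ?_)
    ring
  refine ⟨fun t x => φ x t, fun t x => A x t, hφ0, fun t x => hφ x t, hA0, fun t x => hA x t,
    fun t x => ?_, fun T => ?_⟩
  · rw [hasFDerivAt_iff_isLittleO]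
    have h1 : (fun y => φ y t - φ x t - A x t (y - x)) =O[𝓝 x] fun y => ‖y - x‖ ^ 2 := by
      refine Asymptotics.IsBigO.of_bound
        (K₂ * Real.exp (K * |t|) * Real.exp (K * |t|) / K * Real.exp (K * |t|))
        (Eventually.of_forall fun y => ?_)
      rw [Real.norm_of_nonneg (by positivity : (0 : ℝ) ≤ ‖y - x‖ ^ 2)]
      exact est4 x y t
    refine h1.trans_isLittleO ?_
    have h2 : (fun y => ‖y - x‖ ^ 2) =o[𝓝 x] fun y => ‖y - x‖ ^ 1 := by
      have : Tendsto (fun y => ‖y - x‖) (𝓝 x) (𝓝 0) := by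
        have : Continuous fun y => ‖y - x‖ := by fun_prop
        simpa using this.tendsto x
      exact (Asymptotics.isLittleO_pow_pow (show 1 < 2 by norm_num)).comp_tendsto this
    simp only [pow_one] at h2
    exact h2.norm_right.congr_right (fun y => by simp) |>.of_norm_right
  · refine ⟨max (Real.exp (K * T))
      (K₂ * Real.exp (K * T) * Real.exp (K * T) / K * Real.exp (K * T)),
      le_max_of_le_left (Real.exp_pos _).le, fun t ht x y => ⟨?_, ?_⟩⟩
    · have ht' : |t| ≤ T := abs_le.mpr ht
      refine (est1 x y t).trans ?_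
      rw [mul_comm]
      gcongr
      refine le_max_of_le_left ?_
      gcongr
    · have ht' : |t| ≤ T := abs_le.mpr ht
      refine (est3 T x y t ht').trans ?_
      gcongr
      exact le_max_right _ _

end Knieper
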