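import Pool.Agent.Knieper.Group

/-!
# A curve invariant under `γ` meets its translates by the elements commuting with `γ`
-/

noncomputable section

open Complex UpperHalfPlane Matrix Set
open scoped MatrixGroups

namespace Knieper

/-- if the sine is nonnegative along a path from a zero to a half turn, the angle grows by `π` -/
lemma angle_step {θ : ℝ → ℝ} (hθ : Continuous θ) (h : ∀ t, 0 ≤ Real.sin (θ t)) {a b : ℝ}
    (ha : Real.sin (θ a) = 0) (ha' : 0 < Real.cos (θ a)) (hb : Real.sin (θ b) = 0)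
    (hb' : Real.cos (θ b) < 0) : θ b = θ a + Real.pi := by
  have hpi := Real.pi_pos
  obtain ⟨n, hn⟩ := Real.sin_eq_zero_iff.1 ha
  obtain ⟨m, hm⟩ := Real.sin_eq_zero_iff.1 hb
  have hpre : ∀ y, (y ∈ Icc (θ a) (θ b) ∨ y ∈ Icc (θ b) (θ a)) → 0 ≤ Real.sin y := by
    intro y hy
    have hpc : IsPreconnected (Set.range θ) := isPreconnected_range hθ
    obtain ⟨t, rfl⟩ : y ∈ Set.range θ := by
      rcases hy with hy | hy
      · exact hpc.Icc_subset ⟨a, rfl⟩ ⟨b, rfl⟩ hy
      · exact hpc.Icc_subset ⟨b, rfl⟩ ⟨a, rfl⟩ hy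
    exact h t
  have hcosn : Real.cos (θ a) = 1 := by
    have h1 := Real.sin_sq_add_cos_sq (θ a)
    rw [ha] at h1
    nlinarith
  have hcosm : Real.cos (θ b) = -1 := by
    have h1 := Real.sin_sq_add_cos_sq (θ b)
    rw [hb] at h1
    nlinarith
  -- values of the sine at three quarters of a turn
  have h3 : Real.sin (θ a + 3 * (Real.pi / 2)) = -1 := by
    have e1 : θ a + 3 * (Real.pi / 2) = (θ a + Real.pi / 2) + Real.pi := by ring
    rw [e1, Real.sin_add_pi, Real.sin_add_pi_div_two, hcosn]
  have h4 : Real.sin (θ a - Real.pi / 2) = -1 := by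
    rw [Real.sin_sub_pi_div_two, hcosn]
  have h5 : θ b ≤ θ a + 3 * (Real.pi / 2) := by
    by_contra hcon
    have := hpre (θ a + 3 * (Real.pi / 2)) (Or.inl ⟨by linarith, (not_le.1 hcon).le⟩)
    rw [h3] at this
    linarith
  have h6 : θ a - Real.pi / 2 ≤ θ b := by
    by_contra hcon
    have := hpre (θ a - Real.pi / 2) (Or.inr ⟨(not_le.1 hcon).le, by linarith⟩)
    rw [h4] at this
    linarith
  rw [← hn, ← hm] at h5 h6
  have h7 : (m : ℝ) - n ≤ 3 / 2 := by
    by_contra hcon
    have := mul_lt_mul_of_pos_right (not_le.1 hcon) hpi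
    linarith
  have h8 : -(1 / 2) ≤ (m : ℝ) - n := by
    by_contra hcon
    have := mul_lt_mul_of_pos_right (not_le.1 hcon) hpi
    linarith
  have h9 : m - n ≤ 1 := by
    by_contra hcon
    have h10 : 2 ≤ m - n := by omega
    have h11 : (2 : ℝ) ≤ (m : ℝ) - n := by exact_mod_cast h10
    linarith
  have h10 : 0 ≤ m - n := by
    by_contra hcon
    have h10 : m - n ≤ -1 := by omega
    have h11 : (m : ℝ) - n ≤ -1 := by exact_mod_cast h10
    linarith
  have h11 : m = n ∨ m = n + 1 := by omega
  rcases h11 with rfl | rfl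
  · exfalso
    rw [← hn] at hcosn
    rw [← hm, hcosn] at hcosm
    norm_num at hcosm
  · rw [← hn, ← hm]
    push_cast
    ring

/-- a continuous function with all values at odd multiples of `π` is constant -/
lemma angle_const {θ : ℝ → ℝ} (hθ : Continuous θ) (h : ∀ t, Real.cos (θ t) = -1) (a b : ℝ) :
    θ b ≠ θ a + 2 * Real.pi := by
  intro hcon
  have hpi := Real.pi_pos
  have hpc : IsPreconnected (Set.range θ) := isPreconnected_range hθ
  obtain ⟨t, ht⟩ : θ a + Real.pi ∈ Set.range θ :=
    hpc.Icc_subset ⟨a, rfl⟩ ⟨b, rfl⟩ ⟨by linarith, by linarith⟩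
  have h1 := h t
  rw [ht, Real.cos_add_pi, h a] at h1
  norm_num at h1

/-- the core lemma -/
lemma core_pos {z : ℝ → ℂ} (hz : Continuous z) {ℓ L D : ℝ} (hD : 0 < D) (hL : D < L)
    (hper : ∀ t, z (t + ℓ) = z t + L) : ∃ t s, z t = z s + D := by
  by_contra hcon
  push Not at hcon
  have hℓ : ℓ ≠ 0 := by
    rintro rfl
    have h1 := hper 0
    rw [add_zero] at h1
    have h2 : (L : ℂ) = 0 := by linear_combination -h1
    have h3 : L = 0 := by exact_mod_cast h2
    linarith
  let G : C(ℝ × ℝ, ℂ) := ⟨fun p => z p.1 - z p.2 - D, by fun_prop⟩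
  have hG : ∀ p, G p ≠ 0 := by
    intro p h
    have h : z p.1 - z p.2 - D = 0 := h
    exact hcon p.1 p.2 (by linear_combination h)
  obtain ⟨g, ⟨-, hg⟩, -⟩ := Complex.isCoveringMapOn_exp.existsUnique_continuousMap_lifts G
    (a₀ := ((0 : ℝ), (0 : ℝ))) (e₀ := Complex.log (G (0, 0))) (Complex.exp_log (hG _))
    (fun p => hG p)
  have hg' : ∀ p, Complex.exp (g p) = z p.1 - z p.2 - D := fun p => congrFun hg p
  have hre : ∀ p, Real.exp (g p).re * Real.cos (g p).im = (z p.1 - z p.2 - D).re := by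
    intro p
    rw [← hg', Complex.exp_re]
  have him : ∀ p, Real.exp (g p).re * Real.sin (g p).im = (z p.1).im - (z p.2).im := by
    intro p
    have : (z p.1 - z p.2 - D).im = (z p.1).im - (z p.2).im := by simp
    rw [← this, ← hg', Complex.exp_im]
  -- a maximum point of the imaginary part
  have hperim : Function.Periodic (fun t => (z t).im) ℓ := by
    intro t
    simp only [hper]
    simp
  have hcomp : IsCompact (Set.range fun t => (z t).im) :=
    hperim.compact_of_continuous hℓ (Complex.continuous_im.comp hz)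
  obtain ⟨y, ⟨s0, hs0⟩, hmax⟩ := hcomp.exists_isGreatest ⟨(z 0).im, 0, rfl⟩
  have hs0max : ∀ t, (z t).im ≤ (z s0).im := by
    intro t
    have := hmax ⟨t, rfl⟩
    rw [← hs0] at this
    exact this
  -- first leg
  have hA : -(g (s0, s0)).im = -(g (s0 + ℓ, s0)).im + Real.pi := by
    refine angle_step (θ := fun t => -(g (t, s0)).im) (by fun_prop) (fun t => ?_)
      (a := s0 + ℓ) (b := s0) ?_ ?_ ?_ ?_
    · have h1 := him (t, s0)
      have h2 := hs0max t
      have h3 := Real.exp_pos (g (t, s0)).re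
      rw [Real.sin_neg]
      simp only at h1
      by_contra h4
      have h5 : 0 < Real.sin (g (t, s0)).im := by linarith
      have := mul_pos h3 h5
      linarith
    · have h1 := him (s0 + ℓ, s0)
      simp only [hper] at h1
      simp only [Complex.add_im, Complex.ofReal_im, add_zero, sub_self, mul_eq_zero] at h1
      rw [Real.sin_neg, h1.resolve_left (Real.exp_ne_zero _), neg_zero]
    · have h1 := hre (s0 + ℓ, s0)
      simp only [hper] at h1
      have h2 : (z s0 + (L : ℂ) - z s0 - D).re = L - D := by simp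
      rw [h2] at h1
      have h3 := Real.exp_pos (g (s0 + ℓ, s0)).re
      rw [Real.cos_neg]
      by_contra h4
      have := mul_nonpos_of_nonneg_of_nonpos h3.le (not_lt.1 h4)
      linarith
    · have h1 := him (s0, s0)
      simp only [sub_self, mul_eq_zero] at h1
      rw [Real.sin_neg, h1.resolve_left (Real.exp_ne_zero _), neg_zero]
    · have h1 := hre (s0, s0)
      have h2 : (z s0 - z s0 - D).re = - D := by simp
      simp only [h2] at h1
      have h3 := Real.exp_pos (g (s0, s0)).re
      rw [Real.cos_neg]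
      by_contra h4
      have := mul_nonneg h3.le (not_lt.1 h4)
      linarith
  -- second leg
  have hB : (g (s0 + ℓ, s0 + ℓ)).im = (g (s0 + ℓ, s0)).im + Real.pi := by
    refine angle_step (θ := fun s => (g (s0 + ℓ, s)).im) (by fun_prop) (fun s => ?_)
      (a := s0) (b := s0 + ℓ) ?_ ?_ ?_ ?_
    · have h1 := him (s0 + ℓ, s)
      simp only [hper] at h1
      simp only [Complex.add_im, Complex.ofReal_im, add_zero] at h1
      have h2 := hs0max s
      have h3 := Real.exp_pos (g (s0 + ℓ, s)).re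
      by_contra h4
      have := mul_neg_of_pos_of_neg h3 (not_le.1 h4)
      linarith
    · have h1 := him (s0 + ℓ, s0)
      simp only [hper] at h1
      simp only [Complex.add_im, Complex.ofReal_im, add_zero, sub_self, mul_eq_zero] at h1
      exact h1.resolve_left (Real.exp_ne_zero _)
    · have h1 := hre (s0 + ℓ, s0)
      simp only [hper] at h1
      have h2 : (z s0 + (L : ℂ) - z s0 - D).re = L - D := by simp
      rw [h2] at h1
      have h3 := Real.exp_pos (g (s0 + ℓ, s0)).re
      by_contra h4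
      have := mul_nonpos_of_nonneg_of_nonpos h3.le (not_lt.1 h4)
      linarith
    · have h1 := him (s0 + ℓ, s0 + ℓ)
      simp only [sub_self, mul_eq_zero] at h1
      exact h1.resolve_left (Real.exp_ne_zero _)
    · have h1 := hre (s0 + ℓ, s0 + ℓ)
      have h2 : (z (s0 + ℓ) - z (s0 + ℓ) - D).re = - D := by simp
      simp only [h2] at h1
      have h3 := Real.exp_pos (g (s0 + ℓ, s0 + ℓ)).re
      by_contra h4
      have := mul_nonneg h3.le (not_lt.1 h4)
      linarith
  -- the diagonal
  refine angle_const (θ := fun t => (g (t, t)).im) (by fun_prop) (fun t => ?_) s0 (s0 + ℓ)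
    (by linarith)
  have h1 := him (t, t)
  simp only [sub_self, mul_eq_zero] at h1
  have h2 := h1.resolve_left (Real.exp_ne_zero _)
  have h3 := hre (t, t)
  have h4 : (z t - z t - D).re = - D := by simp
  simp only [h4] at h3
  have h5 := Real.sin_sq_add_cos_sq (g (t, t)).im
  rw [h2] at h5
  have h6 : (Real.cos (g (t, t)).im - 1) * (Real.cos (g (t, t)).im + 1) = 0 := by nlinarith
  rcases mul_eq_zero.1 h6 with h7 | h7
  · exfalso
    have h8 : Real.cos (g (t, t)).im = 1 := by linarith
    rw [h8, mul_one] at h3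
    have := Real.exp_pos (g (t, t)).re
    linarith
  · linarith

lemma per_nat {z : ℝ → ℂ} {ℓ L : ℝ} (hper : ∀ t, z (t + ℓ) = z t + L) (k : ℕ) (t : ℝ) :
    z (t + k * ℓ) = z t + ((k * L : ℝ) : ℂ) := by
  induction k with
  | zero => simp
  | succ k ih =>
    have e : t + ((k + 1 : ℕ) : ℝ) * ℓ = (t + k * ℓ) + ℓ := by push_cast; ring
    rw [e, hper, ih]
    push_cast
    ring

lemma core_pos' {z : ℝ → ℂ} (hz : Continuous z) {ℓ L D : ℝ} (hD : 0 < D) (hL : 0 < L)
    (hper : ∀ t, z (t + ℓ) = z t + L) : ∃ t s, z t = z s + D := by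
  obtain ⟨k, hk⟩ := exists_nat_gt (D / L)
  rw [div_lt_iff₀ hL] at hk
  exact core_pos hz (ℓ := k * ℓ) (L := k * L) hD hk (per_nat hper k)

lemma core_pos'' {z : ℝ → ℂ} (hz : Continuous z) {ℓ L D : ℝ} (hD : 0 < D) (hL : L ≠ 0)
    (hper : ∀ t, z (t + ℓ) = z t + L) : ∃ t s, z t = z s + D := by
  rcases lt_or_gt_of_ne hL with h | h
  · refine core_pos' hz (ℓ := -ℓ) (L := -L) hD (by linarith) fun t => ?_
    have h1 := hper (t + -ℓ)
    rw [neg_add_cancel_right] at h1
    rw [h1]
    push_cast
    ring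
  · exact core_pos' hz hD h hper

/-- **Core lemma.** A curve in the plane which is invariant under a horizontal translation meets
all its horizontal translates. -/
theorem core {z : ℝ → ℂ} (hz : Continuous z) {ℓ L : ℝ} (hL : L ≠ 0)
    (hper : ∀ t, z (t + ℓ) = z t + L) (D : ℝ) : ∃ t s, z t = z s + D := by
  rcases lt_trichotomy D 0 with h | rfl | h
  · obtain ⟨t, s, hts⟩ := core_pos'' hz (D := -D) (by linarith) hL hper
    refine ⟨s, t, ?_⟩
    rw [hts]
    push_cast
    ring
  · exact ⟨0, 0, by simp⟩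
  · exact core_pos'' hz h hL hper

theorem intersect : IntersectStatement := by
  intro Γ hΓ γ hγ h1 σ hσ hcomm c ℓ hc hℓ hper
  obtain ⟨h, a, h2, h3, h4⟩ := exists_diag hΓ hγ h1
  obtain ⟨b, hb⟩ := h4 σ hcomm
  have ha2 : 0 < (a : ℝ) ^ 2 := by
    have := a.ne_zero
    positivity
  have hb2 : 0 < (b : ℝ) ^ 2 := by
    have := b.ne_zero
    positivity
  set w : ℝ → ℍ := fun t => h⁻¹ • c t with hw
  have hwc : Continuous w := hc.const_smul h⁻¹
  have hwper : ∀ t, w (t + ℓ) = dgh a • w t := by
    intro t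
    rw [hw]
    simp only
    rw [hper, h2, smul_smul, smul_smul]
    congr 1
    group
  set z : ℝ → ℂ := fun t => Complex.log (w t) with hz
  have hzc : Continuous z := by
    apply Continuous.clog (UpperHalfPlane.continuous_coe.comp hwc)
    intro t
    exact Or.inr (w t).im_pos.ne'
  have hL : Real.log ((a : ℝ) ^ 2) ≠ 0 := by
    intro h5
    rcases Real.log_eq_zero.1 h5 with h6 | h6 | h6
    · linarith
    · exact h3 h6
    · linarith
  obtain ⟨t, s, hts⟩ := core hzc (ℓ := ℓ) hL (fun t => by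
    show Complex.log (w (t + ℓ)) = Complex.log (w t) + _
    rw [hwper, dgh_smul, Complex.log_ofReal_mul ha2 (UpperHalfPlane.ne_zero _)]
    ring) (Real.log ((b : ℝ) ^ 2))
  refine ⟨t, s, ?_⟩
  have h5 : (w t : ℂ) = (((b : ℝ) ^ 2 : ℝ) : ℂ) * w s := by
    have h6 : Complex.exp (z t) = Complex.exp (z s + (Real.log ((b : ℝ) ^ 2) : ℝ)) := by rw [hts]
    rw [hz] at h6
    simp only at h6
    rw [Complex.exp_log (UpperHalfPlane.ne_zero _), Complex.exp_add,
      Complex.exp_log (UpperHalfPlane.ne_zero _), ← Complex.ofReal_exp, Real.exp_log hb2] at h6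
    rw [h6]
    ring
  have h6 : w t = dgh b • w s := by
    apply UpperHalfPlane.ext
    rw [dgh_smul]
    exact h5
  have h7 : h⁻¹ • c t = dgh b • h⁻¹ • c s := h6
  calc c t = h • h⁻¹ • c t := by rw [smul_inv_smul]
    _ = h • dgh b • h⁻¹ • c s := by rw [h7]
    _ = σ • c s := by rw [hb, smul_smul, smul_smul]

end Knieper
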