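import Pool.Agent.Knieper.Label
import Pool.Agent.Knieper.Intersect

/-!
# Zero-curvature axes
-/

noncomputable section

open Set Filter Topology Metric Complex UpperHalfPlane
open scoped NNReal ContDiff unitInterval MatrixGroups

namespace Knieper

namespace Frame

variable {F : Frame} {κ : ℝ} {Γ : Subgroup SL(2, ℝ)}

/-- `c` is a zero-curvature geodesic translated by `γ` through the length `ℓ`. -/
structure FlatAxis (F : Frame) (γ : SL(2, ℝ)) (ℓ : ℝ) (c w : ℝ → ℂ) : Prop where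
  geod : F.IsGeod c w
  pos : 0 < ℓ
  flat : ∀ t, F.K (c t) = 0
  per : ∀ t, c (t + ℓ) = act γ (c t)

/-- A geodesic as a curve in `ℍ`. -/
def IsGeod.toCurve {c w : ℝ → ℂ} (h : F.IsGeod c w) (t : ℝ) : ℍ := toH (c t) (h.mem t)

theorem toH_congr {z z' : ℂ} (hz : z ∈ UHP) (hz' : z' ∈ UHP) (h : z = z') :
    toH z hz = toH z' hz' := by subst h; rfl

theorem act_inv_act (γ : SL(2, ℝ)) {z : ℂ} (hz : z ∈ UHP) : act γ⁻¹ (act γ z) = z := by
  rw [← act_mul _ _ hz, inv_mul_cancel, act_one hz]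

theorem FlatAxis.npow {γ : SL(2, ℝ)} {ℓ : ℝ} {c w : ℝ → ℂ} (h : F.FlatAxis γ ℓ c w) (n : ℕ)
    (t : ℝ) : c (t + n * ℓ) = act (γ ^ n) (c t) := by
  induction n with
  | zero => simp [act_one (h.geod.mem t)]
  | succ n ih =>
    rw [pow_succ', act_mul _ _ (h.geod.mem t), ← ih, ← h.per]
    congr 1
    push_cast; ring

theorem FlatAxis.zpow {γ : SL(2, ℝ)} {ℓ : ℝ} {c w : ℝ → ℂ} (h : F.FlatAxis γ ℓ c w) (n : ℤ)
    (t : ℝ) : c (t + n * ℓ) = act (γ ^ n) (c t) := by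
  obtain ⟨k, rfl | rfl⟩ := n.eq_nat_or_neg
  · simpa using h.npow k t
  · have h1 := h.npow k (t - k * ℓ)
    rw [sub_add_cancel] at h1
    rw [h1, zpow_neg, zpow_natCast, act_inv_act _ (h.geod.mem _)]
    congr 1
    push_cast; ring

/-- Translates of axes. -/
theorem FlatAxis.translate (hinv : F.Invariant Γ) {γ g : SL(2, ℝ)} (hg : g ∈ Γ) {ℓ : ℝ}
    {c w : ℝ → ℂ} (h : F.FlatAxis γ ℓ c w) (s : ℝ) :
    ∃ w', F.FlatAxis (g * γ * g⁻¹) ℓ (fun t => act g (c (t + s))) w' := by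
  obtain ⟨w', hw'⟩ := (h.geod.shift s).act hinv hg
  refine ⟨w', hw', h.pos, fun t => ?_, fun t => ?_⟩
  · have h1 := K_act hinv hg (toH (c (t + s)) (h.geod.mem _))
    rw [act_eq g (h.geod.mem _), h1]
    exact h.flat _
  · have hm := h.geod.mem (t + s)
    have e : t + ℓ + s = (t + s) + ℓ := by ring
    rw [e, h.per, act_mul _ _ (act_mem g hm), act_mul _ _ (act_mem _ (act_mem g hm)),
      act_inv_act g hm]

/-- A nonzero power of `γ` moves the axis. -/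
theorem FlatAxis.zpow_ne_one (Φ : GeoFlow F) (hF : F.Bdd κ) (hK : ∀ z ∈ UHP, F.K z ≤ 0)
    {γ : SL(2, ℝ)} {ℓ : ℝ} {c w : ℝ → ℂ} (h : F.FlatAxis γ ℓ c w) {n : ℤ} (hn : γ ^ n = 1) :
    n = 0 := by
  have h1 := h.zpow n 0
  rw [hn, act_one (h.geod.mem 0)] at h1
  have h2 := h.geod.injective Φ hF hK h1
  have h3 : (n : ℝ) * ℓ = 0 := by linarith
  rcases mul_eq_zero.mp h3 with h4 | h4
  · exact_mod_cast h4
  · exact absurd h4 h.pos.ne'

/-- Two axes of primitive elements which stay close for the time `2 l` belong to the same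
element. -/
theorem close_eq (Φ : GeoFlow F) (hF : F.Bdd κ) (hK : ∀ z ∈ UHP, F.K z ≤ 0) {δ : ℝ}
    (hδ : ∀ γ ∈ Γ, γ ≠ 1 → ∀ z : ℍ, δ ≤ dist z (γ • z)) {γ γ' : SL(2, ℝ)} (hγ : γ ∈ Γ)
    (hγ' : γ' ∈ Γ) (hp : ∀ x ∈ Γ, x * γ = γ * x → ∃ k : ℤ, x = γ ^ k)
    (hp' : ∀ x ∈ Γ, x * γ' = γ' * x → ∃ k : ℤ, x = γ' ^ k) {ℓ ℓ' l ρ : ℝ}
    {c w c' w' : ℝ → ℂ} (h : F.FlatAxis γ ℓ c w) (h' : F.FlatAxis γ' ℓ' c' w')
    (hl : l / 2 < ℓ) (hl2 : ℓ ≤ l) (hl' : l / 2 < ℓ') (hl2' : ℓ' ≤ l)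
    (hclose : ∀ t ∈ Icc (0 : ℝ) (2 * l), dist (h.geod.toCurve t) (h'.geod.toCurve t) ≤ ρ)
    (hρ1 : 4 * ρ < δ) (hρ2 : 2 * ρ ≤ 1) (hρ3 : 12 * κ * ρ ≤ l) : γ' = γ := by
  have hκ : 0 < κ := lt_of_lt_of_le one_pos hF.one_le
  have hl0 : 0 < l := by linarith [h.pos]
  have hper : ∀ t, h.geod.toCurve (t + ℓ) = γ • h.geod.toCurve t := fun t => by
    apply UpperHalfPlane.ext
    rw [← act_coe]
    exact h.per t
  have hper' : ∀ t, h'.geod.toCurve (t + ℓ') = γ' • h'.geod.toCurve t := fun t => by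
    apply UpperHalfPlane.ext
    rw [← act_coe]
    exact h'.per t
  set C := h.geod.toCurve with hC
  set C' := h'.geod.toCurve with hC'
  -- the first chain
  have e1 : dist ((γ * γ') • C 0) (C (ℓ + ℓ')) ≤ 2 * ρ := by
    have a1 : dist (γ' • C 0) (γ' • C' 0) ≤ ρ := by
      rw [dist_smul]; exact hclose 0 ⟨le_rfl, by linarith⟩
    have a2 : γ' • C' 0 = C' ℓ' := by rw [← hper' 0, zero_add]
    have a3 : dist (C' ℓ') (C ℓ') ≤ ρ := by
      rw [dist_comm]; exact hclose ℓ' ⟨by linarith [h'.pos], by linarith⟩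
    have a4 : dist (γ' • C 0) (C ℓ') ≤ 2 * ρ := by
      rw [a2] at a1
      linarith [dist_triangle (γ' • C 0) (C' ℓ') (C ℓ')]
    have a5 : C (ℓ + ℓ') = γ • C ℓ' := by rw [← hper, add_comm]
    rw [mul_smul, a5, dist_smul]
    exact a4
  have e2 : dist ((γ' * γ) • C 0) (C (ℓ + ℓ')) ≤ 2 * ρ := by
    have a0 : γ • C 0 = C ℓ := by rw [← hper 0, zero_add]
    have a1 : dist (γ' • C ℓ) (γ' • C' ℓ) ≤ ρ := by
      rw [dist_smul]; exact hclose ℓ ⟨by linarith [h.pos], by linarith⟩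
    have a2 : γ' • C' ℓ = C' (ℓ + ℓ') := by rw [← hper' ℓ]
    have a3 : dist (C' (ℓ + ℓ')) (C (ℓ + ℓ')) ≤ ρ := by
      rw [dist_comm]; exact hclose (ℓ + ℓ') ⟨by linarith [h.pos, h'.pos], by linarith⟩
    rw [a2] at a1
    rw [mul_smul, a0]
    linarith [dist_triangle (γ' • C ℓ) (C' (ℓ + ℓ')) (C (ℓ + ℓ'))]
  have hcomm : γ * γ' = γ' * γ := by
    by_contra hne
    have hmem : (γ' * γ)⁻¹ * (γ * γ') ∈ Γ :=
      Γ.mul_mem (Γ.inv_mem (Γ.mul_mem hγ' hγ)) (Γ.mul_mem hγ hγ')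
    have hne1 : (γ' * γ)⁻¹ * (γ * γ') ≠ 1 := by
      intro h1
      exact hne (inv_mul_eq_one.mp h1).symm
    have h2 := hδ _ hmem hne1 (C 0)
    have h3 : dist (C 0) (((γ' * γ)⁻¹ * (γ * γ')) • C 0)
        = dist ((γ' * γ) • C 0) ((γ * γ') • C 0) := by
      rw [← dist_smul (γ' * γ) (C 0), ← mul_smul]
      congr 2
      group
    rw [h3] at h2
    have h4 := dist_triangle_right ((γ' * γ) • C 0) ((γ * γ') • C 0) (C (ℓ + ℓ'))
    linarith
  obtain ⟨a, ha⟩ := hp γ' hγ' hcomm.symm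
  obtain ⟨b, hb⟩ := hp' γ hγ hcomm
  have hab : a * b = 1 := by
    have h1 : γ ^ (a * b - 1) = 1 := by
      rw [zpow_sub, zpow_mul, ← ha, ← hb, zpow_one, mul_inv_cancel]
    have := h.zpow_ne_one Φ hF hK h1
    omega
  rcases Int.eq_one_or_neg_one_of_mul_eq_one hab with h1 | h1
  · rw [ha, h1, zpow_one]
  · exfalso
    rw [h1, zpow_neg, zpow_one] at ha
    have h2 : (γ * γ') • C 0 = C 0 := by rw [ha, mul_inv_cancel, one_smul]
    rw [h2] at e1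
    have h3 := h.geod.min_le_dist Φ hF hK 0 (ℓ + ℓ') (e1.trans hρ2)
    rw [sub_zero, abs_of_pos (by linarith [h.pos, h'.pos])] at h3
    have h4 : 6 * κ * dist (toH (c 0) (h.geod.mem 0)) (toH (c (ℓ + ℓ')) (h.geod.mem (ℓ + ℓ')))
        ≤ 6 * κ * (2 * ρ) := by
      have : dist (toH (c 0) (h.geod.mem 0)) (toH (c (ℓ + ℓ')) (h.geod.mem (ℓ + ℓ')))
        ≤ 2 * ρ := e1
      gcongr
    linarith

/-- An axis of a power of `τ` is an axis of `τ`. -/
theorem root_axis (Φ : GeoFlow F) (hF : F.Bdd κ) (hK : ∀ z ∈ UHP, F.K z ≤ 0)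
    (hΓ : IsSurfaceGroup Γ) (hinv : F.Invariant Γ) {τ : SL(2, ℝ)} (hτ : τ ∈ Γ) {k : ℕ}
    (hk : 0 < k) (hne : τ ^ k ≠ 1) {ℓ : ℝ} {c w : ℝ → ℂ} (h : F.FlatAxis (τ ^ k) ℓ c w) :
    F.FlatAxis τ (ℓ / k) c w := by
  have hk' : (0 : ℝ) < k := by exact_mod_cast hk
  obtain ⟨t, t', htt⟩ := intersect Γ hΓ (τ ^ k) (Γ.pow_mem hτ k) hne τ hτ
    (by rw [← pow_succ', ← pow_succ]) h.geod.toCurve ℓ (by
      have h1 : Continuous fun t => ((h.geod.toCurve t : ℍ) : ℂ) := h.geod.continuous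
      exact UpperHalfPlane.isEmbedding_coe.continuous_iff.mpr h1) h.pos (fun t => by
      apply UpperHalfPlane.ext
      rw [← act_coe]
      exact h.per t)
  have hmeet : c t = act τ (c t') := by
    have := congrArg (fun z : ℍ => (z : ℂ)) htt
    simp only [← act_coe] at this
    exact this
  obtain ⟨w₂, hw₂⟩ := (h.geod.shift t').act hinv hτ
  have hsame : ∀ u, c (u + t) = act τ (c (u + t')) := by
    intro u
    refine IsGeod.unique Φ hF hK (h.geod.shift t) hw₂ (ℓ := ℓ) h.pos.ne' ?_ ?_ u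
    · simpa using hmeet
    · have e1 : ℓ + t = t + ℓ := by ring
      have e2 : ℓ + t' = t' + ℓ := by ring
      rw [e1, e2, h.per, h.per, hmeet, ← act_mul _ _ (h.geod.mem t'),
        ← act_mul _ _ (h.geod.mem t'), ← pow_succ, ← pow_succ']
  set s := t - t' with hs
  have hshift : ∀ u, c (u + s) = act τ (c u) := by
    intro u
    have := hsame (u - t')
    rw [sub_add_cancel] at this
    rw [← this, hs]
    congr 1; ring
  have hpow : ∀ n : ℕ, ∀ u, c (u + n * s) = act (τ ^ n) (c u) := by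
    intro n
    induction n with
    | zero => intro u; simp [act_one (h.geod.mem u)]
    | succ n ih =>
      intro u
      rw [pow_succ', act_mul _ _ (h.geod.mem u), ← ih, ← hshift]
      congr 1
      push_cast; ring
  have hks : (k : ℝ) * s = ℓ := by
    have h1 := hpow k 0
    rw [← h.per 0] at h1
    have := h.geod.injective Φ hF hK h1
    linarith
  have hs' : s = ℓ / k := by
    rw [eq_div_iff hk'.ne']; linarith
  rw [← hs']
  refine ⟨h.geod, ?_, h.flat, hshift⟩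
  rw [hs']
  exact div_pos h.pos hk'

/-- Axes have length bounded below. -/
theorem FlatAxis.length_lower (hF : F.Bdd κ) {δ : ℝ}
    (hδ : ∀ γ ∈ Γ, γ ≠ 1 → ∀ z : ℍ, δ ≤ dist z (γ • z)) {γ : SL(2, ℝ)} (hγ : γ ∈ Γ)
    (hγ1 : γ ≠ 1) {ℓ : ℝ} {c w : ℝ → ℂ} (h : F.FlatAxis γ ℓ c w) :
    min (1 / (2 * κ)) (δ / (3 * κ)) ≤ ℓ := by
  have hκ : 0 < κ := lt_of_lt_of_le one_pos hF.one_le
  by_contra hcon
  push Not at hcon
  have h1 : ℓ < 1 / (2 * κ) := hcon.trans_le (min_le_left _ _)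
  have h2 : ℓ < δ / (3 * κ) := hcon.trans_le (min_le_right _ _)
  rw [lt_div_iff₀ (by positivity)] at h1 h2
  have hd : ∀ s ∈ Icc (0 : ℝ) 1,
      HasDerivAt (fun s => c (s * ℓ)) (ℓ • deriv c (s * ℓ)) s := by
    intro s _
    have h3 : HasDerivAt (fun s : ℝ => s * ℓ) ℓ s := by
      simpa using (hasDerivAt_id s).mul_const ℓ
    exact (h.geod.c_deriv (s * ℓ)).scomp s h3
  have h4 := dist_le_of_path (z := fun s => c (s * ℓ)) (z' := fun s => ℓ • deriv c (s * ℓ))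
    (ρ := κ * ℓ) (by have := h.pos; positivity) (by linarith) (fun s _ => h.geod.mem _) hd
    (fun s _ => by
      rw [norm_smul, Real.norm_of_nonneg h.pos.le, h.geod.deriv_eq]
      have h5 := hF.e_le (h.geod.mem (s * ℓ)) (w (s * ℓ))
      rw [h.geod.unit, mul_one] at h5
      have h6 := h.pos
      calc ℓ * ‖F.e (c (s * ℓ)) (w (s * ℓ))‖ ≤ ℓ * (κ * (c (s * ℓ)).im) := by gcongr
        _ = κ * ℓ * (c (s * ℓ)).im := by ring) (s := 1) ⟨zero_le_one, le_rfl⟩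
  have h5 := hδ γ hγ hγ1 (toH (c (0 * ℓ)) (h.geod.mem _))
  have h6 : γ • toH (c (0 * ℓ)) (h.geod.mem _) = toH (c (1 * ℓ)) (h.geod.mem _) := by
    rw [← toH_act]
    refine toH_congr _ _ ?_
    rw [zero_mul, one_mul, ← h.per, zero_add]
  rw [h6] at h5
  have h7 := h5.trans h4
  linarith

end Frame

end Knieper
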