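import Pool.Agent.Knieper.GeoFlow

/-!
# The exponential map in nonpositive curvature (Cartan–Hadamard)
-/

noncomputable section

open Set Filter Topology Metric Complex
open scoped NNReal ContDiff unitInterval

namespace Knieper

theorem le_of_deriv_nonneg {g g' : ℝ → ℝ} (hg : ∀ t, HasDerivAt g (g' t) t)
    (h : ∀ t, 0 ≤ t → 0 ≤ g' t) {t : ℝ} (ht : 0 ≤ t) : g 0 ≤ g t := by
  have hm : MonotoneOn g (Ici 0) := by
    refine monotoneOn_of_deriv_nonneg (convex_Ici 0)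
      (fun t _ => (hg t).continuousAt.continuousWithinAt)
      (fun t _ => (hg t).differentiableAt.differentiableWithinAt) (fun t ht => ?_)
    rw [interior_Ici] at ht
    rw [(hg t).deriv]
    exact h t (le_of_lt ht)
  exact hm (mem_Ici.mpr le_rfl) (mem_Ici.mpr ht) ht

/-- Growth of Jacobi fields in nonpositive curvature. -/
theorem jacobi_lower {Z C : ℝ → ℂ} {k : ℝ → ℝ} (hZ : ∀ t, HasDerivAt Z (C t) t)
    (hC : ∀ t, HasDerivAt C (-Complex.I * ((-(k t) * (Z t).im : ℝ) : ℂ)) t) (hk : ∀ t, 0 ≤ k t)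
    (hZ0 : Z 0 = 0) {t : ℝ} (ht : 0 ≤ t) : ‖C 0‖ * t ≤ ‖Z t‖ := by
  have ha : ∀ t, HasDerivAt (fun t => (Z t).re) (C t).re t := fun t =>
    Complex.reCLM.hasFDerivAt.comp_hasDerivAt t (hZ t)
  have hb : ∀ t, HasDerivAt (fun t => (Z t).im) (C t).im t := fun t =>
    Complex.imCLM.hasFDerivAt.comp_hasDerivAt t (hZ t)
  have hα : ∀ t, HasDerivAt (fun t => (C t).re) 0 t := fun t => by
    have := Complex.reCLM.hasFDerivAt.comp_hasDerivAt t (hC t)
    refine this.congr_deriv ?_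
    simp
  have hc : ∀ t, HasDerivAt (fun t => (C t).im) (k t * (Z t).im) t := fun t => by
    have := Complex.imCLM.hasFDerivAt.comp_hasDerivAt t (hC t)
    refine this.congr_deriv ?_
    simp
  have hαc : ∀ t, (C t).re = (C 0).re := fun t =>
    is_const_of_deriv_eq_zero (fun t => (hα t).differentiableAt) (fun t => (hα t).deriv) t 0
  have ha1 : (Z t).re = (C 0).re * t := by
    have h1 : ∀ t, HasDerivAt (fun t => (Z t).re - (C 0).re * t) 0 t := fun t => by
      have := (ha t).sub ((hasDerivAt_id t).const_mul (C 0).re)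
      refine this.congr_deriv ?_
      rw [hαc t]; ring
    have h2 : (fun t => (Z t).re - (C 0).re * t) t = (fun t => (Z t).re - (C 0).re * t) 0 :=
      is_const_of_deriv_eq_zero (fun t => (h1 t).differentiableAt) (fun t => (h1 t).deriv) t 0
    simp only [hZ0, Complex.zero_re, mul_zero, sub_zero] at h2
    linarith
  -- f = b c
  have hf : ∀ t, HasDerivAt (fun t => (Z t).im * (C t).im)
      ((C t).im ^ 2 + k t * (Z t).im ^ 2) t := fun t => by
    refine ((hb t).mul (hc t)).congr_deriv ?_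
    ring
  have hf0 : ∀ t, 0 ≤ t → 0 ≤ (Z t).im * (C t).im := by
    intro t ht
    have := le_of_deriv_nonneg hf (fun s _ => by
      have := hk s
      positivity) ht
    simpa [hZ0] using this
  have hc2 : ∀ t, 0 ≤ t → (C 0).im ^ 2 ≤ (C t).im ^ 2 := by
    intro t ht
    have h1 : ∀ t, HasDerivAt (fun t => (C t).im ^ 2) (2 * k t * ((Z t).im * (C t).im)) t :=
      fun t => by
        refine ((hc t).pow 2).congr_deriv ?_
        push_cast; ring
    exact le_of_deriv_nonneg h1 (fun s hs => by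
      have h2 := hk s
      have h3 := hf0 s hs
      positivity) ht
  have hf1 : ∀ t, 0 ≤ t → (C 0).im ^ 2 * t ≤ (Z t).im * (C t).im := by
    intro t ht
    have h1 : ∀ t, HasDerivAt (fun t => (Z t).im * (C t).im - (C 0).im ^ 2 * t)
        ((C t).im ^ 2 + k t * (Z t).im ^ 2 - (C 0).im ^ 2) t := fun t => by
      refine ((hf t).sub ((hasDerivAt_id t).const_mul ((C 0).im ^ 2))).congr_deriv ?_
      ring
    have := le_of_deriv_nonneg h1 (fun s hs => by
      have h2 := hc2 s hs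
      have h3 := hk s
      have h4 : 0 ≤ k s * (Z s).im ^ 2 := by positivity
      linarith) ht
    simp only [hZ0, Complex.zero_im, zero_mul, mul_zero, sub_zero] at this
    linarith
  have hb2 : (C 0).im ^ 2 * t ^ 2 ≤ (Z t).im ^ 2 := by
    have h1 : ∀ t, HasDerivAt (fun t => (Z t).im ^ 2 - (C 0).im ^ 2 * t ^ 2)
        (2 * ((Z t).im * (C t).im - (C 0).im ^ 2 * t)) t := fun t => by
      refine (((hb t).pow 2).sub (((hasDerivAt_id t).pow 2).const_mul
        ((C 0).im ^ 2))).congr_deriv ?_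
      simp only [id]
      push_cast; ring
    have := le_of_deriv_nonneg h1 (fun s hs => by
      have h2 := hf1 s hs
      linarith) ht
    simp only [hZ0, Complex.zero_im] at this
    nlinarith
  have hsq : (‖C 0‖ * t) ^ 2 ≤ ‖Z t‖ ^ 2 := by
    rw [mul_pow, ← Complex.normSq_eq_norm_sq, ← Complex.normSq_eq_norm_sq, Complex.normSq_apply,
      Complex.normSq_apply, ha1]
    nlinarith
  exact (sq_le_sq₀ (by positivity) (norm_nonneg _)).mp hsq

namespace Frame

variable {F : Frame} {κ : ℝ}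

namespace GeoFlow

variable (Φ : GeoFlow F)

/-- The exponential map at `p`, in frame coordinates. -/
def E (p w : ℂ) : ℂ := (Φ.G 1 (p, w)).1

/-- Its derivative. -/
def dE (p w : ℂ) : ℂ →L[ℝ] ℂ :=
  (ContinuousLinearMap.fst ℝ ℂ ℂ).comp
    ((Φ.A 1 (p, w)).comp (ContinuousLinearMap.inr ℝ ℂ ℂ))

theorem hasFDerivAt_E {p : ℂ} (hp : p ∈ UHP) (w : ℂ) : HasFDerivAt (Φ.E p) (Φ.dE p w) w := by
  have h1 : HasFDerivAt (fun w : ℂ => (p, w)) (ContinuousLinearMap.inr ℝ ℂ ℂ) w :=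
    hasFDerivAt_prodMk_right p w
  have h2 := (Φ.fd 1 (p, w) (mem_D.mpr hp)).comp w h1
  exact (hasFDerivAt_fst).comp w h2

theorem E_mem {p : ℂ} (hp : p ∈ UHP) (w : ℂ) : Φ.E p w ∈ UHP :=
  mem_D.mp (Φ.mem 1 (p, w) (mem_D.mpr hp))

theorem E_continuous {p : ℂ} (hp : p ∈ UHP) : Continuous (Φ.E p) :=
  continuous_iff_continuousAt.mpr fun w => (Φ.hasFDerivAt_E hp w).continuousAt

/-- A trajectory of the flow together with a Jacobi field. -/
theorem isVar {x : ℂ × ℂ} (hx : x ∈ D) (δ : ℂ × ℂ) (t : ℝ) :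
    F.IsVar (fun t => (Φ.G t x).1) (fun t => (Φ.G t x).2) (fun t => (Φ.A t x δ).1)
      (fun t => (Φ.A t x δ).2) t := by
  refine ⟨mem_D.mp (Φ.mem t x hx), Φ.dG t x hx, ?_⟩
  have := (Φ.dA t x hx).clm_apply (hasDerivAt_const t δ)
  simpa using this

theorem norm_snd (hF : F.Bdd κ) {x : ℂ × ℂ} (hx : x ∈ D) (t : ℝ) : ‖(Φ.G t x).2‖ = ‖x.2‖ := by
  have := (hF.apriori (x := fun t => Φ.G t x) (s := fun _ => 1)
    (fun t => by simpa using Φ.dG t x hx) (fun _ => ⟨zero_le_one, le_rfl⟩)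
    (fun t ht => absurd (Φ.mem t x hx) ht) (Φ.mem 0 x hx) t).1
  simpa [Φ.zero x hx] using this

theorem dE_lipschitz {p : ℂ} (hp : p ∈ UHP) (R : ℝ) : ∃ L : ℝ≥0,
    LipschitzOnWith L (Φ.E p) (closedBall 0 R) ∧ LipschitzOnWith L (Φ.dE p) (closedBall 0 R) := by
  obtain ⟨L, hL0, hL⟩ := Φ.lip ({p} ×ˢ closedBall 0 R)
    (isCompact_singleton.prod (isCompact_closedBall 0 R))
    (fun x hx => mem_D.mpr (by
      have : x.1 = p := hx.1
      rw [this]; exact hp)) 1
  refine ⟨⟨L, hL0⟩, LipschitzOnWith.of_dist_le_mul fun w hw w' hw' => ?_,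
    LipschitzOnWith.of_dist_le_mul fun w hw w' hw' => ?_⟩
  · have := (hL 1 (by norm_num) (p, w) ⟨rfl, hw⟩ (p, w') ⟨rfl, hw'⟩).1
    rw [dist_eq_norm, dist_eq_norm]
    have h2 : ‖(p, w) - (p, w')‖ = ‖w - w'‖ := by
      simp [Prod.norm_def]
    rw [h2] at this
    refine le_trans ?_ this
    exact norm_fst_le (Φ.G 1 (p, w) - Φ.G 1 (p, w'))
  · have := (hL 1 (by norm_num) (p, w) ⟨rfl, hw⟩ (p, w') ⟨rfl, hw'⟩).2
    rw [dist_eq_norm, dist_eq_norm]
    have h2 : ‖(p, w) - (p, w')‖ = ‖w - w'‖ := by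
      simp [Prod.norm_def]
    rw [h2] at this
    refine le_trans ?_ this
    refine ContinuousLinearMap.opNorm_le_bound _ (norm_nonneg _) fun v => ?_
    have h3 : (Φ.dE p w - Φ.dE p w') v = ((Φ.A 1 (p, w) - Φ.A 1 (p, w')) (0, v)).1 := by
      simp [dE]
    rw [h3]
    refine (norm_fst_le _).trans ((ContinuousLinearMap.le_opNorm _ _).trans ?_)
    have h4 : ‖((0 : ℂ), v)‖ = ‖v‖ := by simp [Prod.norm_def]
    rw [h4]

theorem dE_continuous {p : ℂ} (hp : p ∈ UHP) : Continuous (Φ.dE p) := by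
  rw [continuous_iff_continuousAt]
  intro w
  obtain ⟨L, -, hL⟩ := Φ.dE_lipschitz hp (‖w‖ + 1)
  refine (hL.continuousOn).continuousAt ?_
  refine mem_of_superset (ball_mem_nhds w one_pos) fun y hy => ?_
  rw [mem_closedBall_zero_iff]
  rw [Metric.mem_ball, dist_eq_norm] at hy
  have := norm_sub_norm_le y w
  linarith

theorem dE_lower (hF : F.Bdd κ) (hK : ∀ z ∈ UHP, F.K z ≤ 0) {p : ℂ} (hp : p ∈ UHP) (w v : ℂ) :
    ‖v‖ ≤ ‖F.η (Φ.E p w) (Φ.dE p w v)‖ := by
  have hne : ∀ w : ℂ, w ≠ 0 → ‖v‖ ≤ ‖F.η (Φ.E p w) (Φ.dE p w v)‖ := by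
    intro w hw
    have hx : (p, w) ∈ D := mem_D.mpr hp
    have hvar := Φ.isVar hx (0, v)
    have h1 := jacobi_lower (Z := F.zh (fun t => (Φ.G t (p, w)).1) (fun t => (Φ.G t (p, w)).2)
        (fun t => (Φ.A t (p, w) (0, v)).1))
      (C := F.ch (fun t => (Φ.G t (p, w)).1) (fun t => (Φ.G t (p, w)).2)
        (fun t => (Φ.A t (p, w) (0, v)).1) (fun t => (Φ.A t (p, w) (0, v)).2))
      (k := fun t => -(F.K (Φ.G t (p, w)).1 * ‖(Φ.G t (p, w)).2‖ ^ 2))
      (fun t => (hvar t).deriv_zh) (fun t => by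
        refine (hvar t).deriv_ch.congr_deriv ?_
        simp only [neg_neg])
      (fun t => by
        have := hK _ (mem_D.mp (Φ.mem t (p, w) hx))
        have h2 : 0 ≤ ‖(Φ.G t (p, w)).2‖ ^ 2 := by positivity
        nlinarith)
      (by simp [zh, Φ.A_zero _ hx]) zero_le_one
    have e0 : F.ch (fun t => (Φ.G t (p, w)).1) (fun t => (Φ.G t (p, w)).2)
        (fun t => (Φ.A t (p, w) (0, v)).1) (fun t => (Φ.A t (p, w) (0, v)).2) 0
        = (starRingEnd ℂ) w * v := by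
      simp [ch, Φ.A_zero _ hx, Φ.zero _ hx]
    have e1 : ‖F.zh (fun t => (Φ.G t (p, w)).1) (fun t => (Φ.G t (p, w)).2)
        (fun t => (Φ.A t (p, w) (0, v)).1) 1‖ = ‖w‖ * ‖F.η (Φ.E p w) (Φ.dE p w v)‖ := by
      rw [zh, norm_mul, RCLike.norm_conj, Φ.norm_snd hF hx]
      rfl
    rw [e0, e1, norm_mul, RCLike.norm_conj, mul_one] at h1
    exact le_of_mul_le_mul_left h1 (norm_pos_iff.mpr hw)
  by_cases hw : w = 0
  · have hcl : IsClosed {w : ℂ | ‖v‖ ≤ ‖F.η (Φ.E p w) (Φ.dE p w v)‖} := by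
      refine isClosed_le continuous_const ?_
      have c1 : Continuous fun w => F.η (Φ.E p w) := by
        have h2 : ContinuousOn F.η UHP := F.η_smooth.continuousOn
        exact h2.comp_continuous (Φ.E_continuous hp) (fun w => Φ.E_mem hp w)
      exact (c1.clm_apply ((Φ.dE_continuous hp).clm_apply continuous_const)).norm
    have hd : Dense ({0}ᶜ : Set ℂ) := dense_compl_singleton 0
    have hsub : ({0}ᶜ : Set ℂ) ⊆ {w : ℂ | ‖v‖ ≤ ‖F.η (Φ.E p w) (Φ.dE p w v)‖} :=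
      fun w hw => hne w hw
    have := hcl.closure_subset_iff.mpr hsub (hd w)
    exact this
  · exact hne w hw

/-- The frame-to-frame derivative `T(w) = η ∘ dE`. -/
def TT (p w : ℂ) : ℂ →L[ℝ] ℂ := (F.η (Φ.E p w)).comp (Φ.dE p w)

theorem TT_isInvertible (hF : F.Bdd κ) (hK : ∀ z ∈ UHP, F.K z ≤ 0) {p : ℂ} (hp : p ∈ UHP)
    (w : ℂ) : (Φ.TT p w).IsInvertible := by
  have hinj : Function.Injective (Φ.TT p w : ℂ →ₗ[ℝ] ℂ) := by
    refine (injective_iff_map_eq_zero _).mpr fun v hv => ?_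
    have h1 := Φ.dE_lower hF hK hp w v
    have h2 : F.η (Φ.E p w) (Φ.dE p w v) = 0 := hv
    rw [h2, norm_zero] at h1
    exact norm_le_zero_iff.mp h1
  refine ⟨(LinearEquiv.ofInjectiveEndo (Φ.TT p w : ℂ →ₗ[ℝ] ℂ) hinj).toContinuousLinearEquiv, ?_⟩
  ext v
  simp

/-- The inverse of `T(w)`. -/
def BB (p w : ℂ) : ℂ →L[ℝ] ℂ := (Φ.TT p w).inverse

theorem BB_norm (hF : F.Bdd κ) (hK : ∀ z ∈ UHP, F.K z ≤ 0) {p : ℂ} (hp : p ∈ UHP)
    (w : ℂ) : ‖Φ.BB p w‖ ≤ 1 := by
  refine ContinuousLinearMap.opNorm_le_bound _ zero_le_one fun v => ?_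
  have h1 := Φ.dE_lower hF hK hp w (Φ.BB p w v)
  have h2 : F.η (Φ.E p w) (Φ.dE p w (Φ.BB p w v)) = v :=
    (Φ.TT_isInvertible hF hK hp w).self_apply_inverse v
  rw [h2] at h1
  rwa [one_mul]

theorem BB_lipschitz (hF : F.Bdd κ) (hK : ∀ z ∈ UHP, F.K z ≤ 0) {p : ℂ} (hp : p ∈ UHP)
    (R : ℝ) : ∃ L : ℝ≥0, LipschitzOnWith L (Φ.BB p) (closedBall 0 R) := by
  obtain ⟨L, hL1, hL2⟩ := Φ.dE_lipschitz hp R
  -- `η ∘ E` is Lipschitz
  have hη : ∃ L' : ℝ≥0, LipschitzOnWith L' (fun w => F.η (Φ.E p w)) (closedBall 0 R) := by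
    refine LocallyLipschitzOn.exists_lipschitzOnWith_of_compact (isCompact_closedBall 0 R) ?_
    intro w hw
    have h1 : ContDiffAt ℝ 1 F.η (Φ.E p w) := (F.η_contDiffAt (Φ.E_mem hp w)).of_le (by norm_cast)
    obtain ⟨K₁, t, ht, hK₁⟩ := h1.exists_lipschitzOnWith
    refine ⟨K₁ * L, closedBall 0 R ∩ Φ.E p ⁻¹' t, ?_, ?_⟩
    · exact inter_mem self_mem_nhdsWithin
        (mem_nhdsWithin_of_mem_nhds ((Φ.E_continuous hp).continuousAt ht))
    · exact hK₁.comp (hL1.mono inter_subset_left) (fun y hy => hy.2)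
  obtain ⟨L', hL'⟩ := hη
  obtain ⟨M₁, hM₁⟩ := (isCompact_closedBall (0 : ℂ) R).exists_bound_of_continuousOn
    (f := fun w => F.η (Φ.E p w)) hL'.continuousOn
  obtain ⟨M₂, hM₂⟩ := (isCompact_closedBall (0 : ℂ) R).exists_bound_of_continuousOn
    (f := Φ.dE p) hL2.continuousOn
  have hT : ∀ w ∈ closedBall (0 : ℂ) R, ∀ w' ∈ closedBall (0 : ℂ) R,
      ‖Φ.TT p w - Φ.TT p w'‖ ≤ (L' * M₂ + M₁ * L) * ‖w - w'‖ := by
    intro w hw w' hw'
    have e1 : Φ.TT p w - Φ.TT p w' = (F.η (Φ.E p w) - F.η (Φ.E p w')).comp (Φ.dE p w)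
        + (F.η (Φ.E p w')).comp (Φ.dE p w - Φ.dE p w') := by
      ext v; simp [TT]
    rw [e1, add_mul]
    refine (norm_add_le _ _).trans (add_le_add ?_ ?_)
    · refine (ContinuousLinearMap.opNorm_comp_le _ _).trans ?_
      have h2 := hL'.dist_le_mul w hw w' hw'
      rw [dist_eq_norm, dist_eq_norm] at h2
      calc _ ≤ (L' * ‖w - w'‖) * M₂ := by
            gcongr
            exact hM₂ w hw
        _ = _ := by ring
    · refine (ContinuousLinearMap.opNorm_comp_le _ _).trans ?_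
      have h2 := hL2.dist_le_mul w hw w' hw'
      rw [dist_eq_norm, dist_eq_norm] at h2
      have hM₁0 : 0 ≤ M₁ := (norm_nonneg _).trans (hM₁ w' hw')
      calc _ ≤ M₁ * (L * ‖w - w'‖) := by
            gcongr
            exact hM₁ w' hw'
        _ = _ := by ring
  refine ⟨(L' * M₂ + M₁ * L).toNNReal, LipschitzOnWith.of_dist_le_mul fun w hw w' hw' => ?_⟩
  rw [dist_eq_norm, dist_eq_norm]
  have e2 : Φ.BB p w - Φ.BB p w'
      = (Φ.BB p w).comp ((Φ.TT p w' - Φ.TT p w).comp (Φ.BB p w')) := by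
    ext1 v
    have i1 : Φ.TT p w' (Φ.BB p w' v) = v :=
      (Φ.TT_isInvertible hF hK hp w').self_apply_inverse v
    have i2 : ∀ u, Φ.BB p w (Φ.TT p w u) = u := fun u =>
      (Φ.TT_isInvertible hF hK hp w).inverse_apply_self u
    simp only [_root_.sub_apply, ContinuousLinearMap.comp_apply, map_sub, i1, i2]
  rw [e2]
  refine (ContinuousLinearMap.opNorm_comp_le _ _).trans ?_
  have h3 := BB_norm Φ hF hK hp w
  have h4 := BB_norm Φ hF hK hp w'
  have h5 := hT w' hw' w hw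
  rw [norm_sub_rev w' w] at h5
  calc ‖Φ.BB p w‖ * ‖(Φ.TT p w' - Φ.TT p w).comp (Φ.BB p w')‖
      ≤ 1 * (‖Φ.TT p w' - Φ.TT p w‖ * 1) := by
        gcongr
        refine (ContinuousLinearMap.opNorm_comp_le _ _).trans ?_
        gcongr
    _ = ‖Φ.TT p w' - Φ.TT p w‖ := by ring
    _ ≤ (L' * M₂ + M₁ * L) * ‖w - w'‖ := h5
    _ ≤ _ := by
        gcongr
        exact Real.le_coe_toNNReal _

/-- Path lifting for the exponential map. -/
theorem exists_lift (hF : F.Bdd κ) (hK : ∀ z ∈ UHP, F.K z ≤ 0) {p : ℂ} (hp : p ∈ UHP)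
    {γ γ' : ℝ → ℂ} (hγ : ∀ t ∈ Icc (0 : ℝ) 1, γ t ∈ UHP)
    (hγ' : ∀ t ∈ Icc (0 : ℝ) 1, HasDerivAt γ (γ' t) t) (hc : ContinuousOn γ' (Icc 0 1))
    (h0 : γ 0 = p) {M : ℝ} (hM : ∀ t ∈ Icc (0 : ℝ) 1, ‖F.η (γ t) (γ' t)‖ ≤ M) :
    ∃ u : ℝ → ℂ, ContinuousOn u (Icc 0 1) ∧ u 0 = 0 ∧ (∀ t ∈ Icc (0 : ℝ) 1, Φ.E p (u t) = γ t) ∧
      ‖u 1‖ ≤ M := by
  have hM0 : 0 ≤ M := (norm_nonneg _).trans (hM 0 ⟨le_rfl, zero_le_one⟩)
  set h : ℝ → ℂ := fun t => F.η (γ t) (γ' t) with hh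
  have hγc : ContinuousOn γ (Icc 0 1) := fun t ht => (hγ' t ht).continuousAt.continuousWithinAt
  have hhc : ContinuousOn h (Icc 0 1) := by
    have h1 : ContinuousOn (fun t => F.η (γ t)) (Icc 0 1) :=
      F.η_smooth.continuousOn.comp hγc hγ
    exact h1.clm_apply hc
  obtain ⟨L, hL⟩ := Φ.BB_lipschitz hF hK hp M
  have hpl : IsPicardLindelof (fun t w => Φ.BB p w (h t)) (tmin := 0) (tmax := 1)
      ⟨0, by norm_num⟩ (0 : ℂ) M.toNNReal 0 M.toNNReal (L * M.toNNReal) :=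
    { lipschitzOnWith := fun t ht => LipschitzOnWith.of_dist_le_mul fun w hw w' hw' => by
        rw [Real.coe_toNNReal M hM0] at hw hw'
        have h1 := hL.dist_le_mul w hw w' hw'
        rw [dist_eq_norm, dist_eq_norm] at h1
        rw [dist_eq_norm, dist_eq_norm, ← _root_.sub_apply]
        refine (ContinuousLinearMap.le_opNorm _ _).trans ?_
        push_cast
        rw [Real.coe_toNNReal M hM0]
        have h2 := hM t ht
        calc ‖Φ.BB p w - Φ.BB p w'‖ * ‖h t‖ ≤ (L * ‖w - w'‖) * M := by gcongr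
          _ = _ := by ring
      continuousOn := fun w _ => (ContinuousLinearMap.continuous _).comp_continuousOn hhc
      norm_le := fun t ht w _ => by
        rw [Real.coe_toNNReal M hM0]
        refine (ContinuousLinearMap.le_opNorm _ _).trans ?_
        have h1 := Φ.BB_norm hF hK hp w
        have h2 := hM t ht
        calc ‖Φ.BB p w‖ * ‖h t‖ ≤ 1 * M := by gcongr
          _ = M := one_mul M
      mul_max_le := by simp [Real.coe_toNNReal M hM0] }
  obtain ⟨u, hu0, hu⟩ := hpl.exists_eq_forall_mem_Icc_hasDerivWithinAt₀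
  simp only at hu0
  have huc : ContinuousOn u (Icc 0 1) := fun t ht => (hu t ht).continuousWithinAt
  have hu1 : ‖u 1‖ ≤ M := by
    have := (convex_Icc (0 : ℝ) 1).norm_image_sub_le_of_norm_hasDerivWithin_le (C := M) hu
      (fun t ht => by
        refine (ContinuousLinearMap.le_opNorm _ _).trans ?_
        have h1 := Φ.BB_norm hF hK hp (u t)
        have h2 := hM t ht
        calc ‖Φ.BB p (u t)‖ * ‖h t‖ ≤ 1 * M := by gcongr
          _ = M := one_mul M) (x := 0) (y := 1) ⟨le_rfl, zero_le_one⟩ ⟨zero_le_one, le_rfl⟩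
    simpa [hu0] using this
  refine ⟨u, huc, hu0, ?_, hu1⟩
  -- both `E ∘ u` and `γ` solve `y' = e_y (h t)`
  have hEu : ∀ t ∈ Icc (0 : ℝ) 1,
      HasDerivWithinAt (fun t => Φ.E p (u t)) (F.e (Φ.E p (u t)) (h t)) (Icc 0 1) t := by
    intro t ht
    have h1 := (Φ.hasFDerivAt_E hp (u t)).comp_hasDerivWithinAt t (hu t ht)
    refine h1.congr_deriv ?_
    have h2 : F.η (Φ.E p (u t)) (Φ.dE p (u t) (Φ.BB p (u t) (h t))) = h t :=
      (Φ.TT_isInvertible hF hK hp (u t)).self_apply_inverse (h t)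
    rw [← h2, F.e_η (Φ.E_mem hp _), h2]
  have hγe : ∀ t ∈ Icc (0 : ℝ) 1, HasDerivWithinAt γ (F.e (γ t) (h t)) (Icc 0 1) t := by
    intro t ht
    have h1 := (hγ' t ht).hasDerivWithinAt (s := Icc 0 1)
    refine h1.congr_deriv ?_
    rw [hh]
    exact (F.e_η (hγ t ht) _).symm
  -- a compact set containing both curves
  set S : Set ℂ := (fun t => Φ.E p (u t)) '' Icc 0 1 ∪ γ '' Icc 0 1 with hS
  have hSc : IsCompact S :=
    (isCompact_Icc.image_of_continuousOn ((Φ.E_continuous hp).comp_continuousOn huc)).union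
      (isCompact_Icc.image_of_continuousOn hγc)
  have hSU : S ⊆ UHP := by
    rintro y (⟨t, ht, rfl⟩ | ⟨t, ht, rfl⟩)
    · exact Φ.E_mem hp _
    · exact hγ t ht
  obtain ⟨L₂, hL₂⟩ : ∃ L₂ : ℝ≥0, LipschitzOnWith L₂ F.e S := by
    refine LocallyLipschitzOn.exists_lipschitzOnWith_of_compact hSc ?_
    intro y hy
    have h1 : ContDiffAt ℝ 1 F.e y := (F.e_contDiffAt (hSU hy)).of_le (by norm_cast)
    obtain ⟨K₁, t, ht, hK₁⟩ := h1.exists_lipschitzOnWith
    exact ⟨K₁, t, mem_nhdsWithin_of_mem_nhds ht, hK₁⟩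
  have key := ODE_solution_unique_of_mem_Icc_right (v := fun t y => F.e y (h t))
    (s := fun _ => S) (K := L₂ * M.toNNReal) (a := 0) (b := 1)
    (f := fun t => Φ.E p (u t)) (g := γ)
    (fun t ht => LipschitzOnWith.of_dist_le_mul fun y hy y' hy' => by
      have h1 := hL₂.dist_le_mul y hy y' hy'
      rw [dist_eq_norm, dist_eq_norm] at h1
      rw [dist_eq_norm, dist_eq_norm, ← _root_.sub_apply]
      refine (ContinuousLinearMap.le_opNorm _ _).trans ?_
      push_cast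
      rw [Real.coe_toNNReal M hM0]
      have h2 := hM t (Ico_subset_Icc_self ht)
      calc ‖F.e y - F.e y'‖ * ‖h t‖ ≤ (L₂ * ‖y - y'‖) * M := by gcongr
        _ = _ := by ring)
    ((Φ.E_continuous hp).comp_continuousOn huc)
    (fun t ht => (hEu t (Ico_subset_Icc_self ht)).mono_of_mem_nhdsWithin
      (Icc_mem_nhdsGE_of_mem ht))
    (fun t ht => Or.inl ⟨t, Ico_subset_Icc_self ht, rfl⟩)
    hγc
    (fun t ht => (hγe t (Ico_subset_Icc_self ht)).mono_of_mem_nhdsWithin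
      (Icc_mem_nhdsGE_of_mem ht))
    (fun t ht => Or.inr ⟨t, Ico_subset_Icc_self ht, rfl⟩)
    (by
      simp only [hu0, h0, E]
      have hx : (p, (0 : ℂ)) ∈ D := mem_D.mpr hp
      have := Φ.uniq (fun _ => (p, 0)) (fun _ => hx) (fun t => by
        refine (hasDerivAt_const t _).congr_deriv ?_
        simp [Frame.X]; rfl) 1
      rw [← this])
  exact fun t ht => key ht

theorem E_zero {p : ℂ} (hp : p ∈ UHP) : Φ.E p 0 = p := by
  have hx : (p, (0 : ℂ)) ∈ D := mem_D.mpr hp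
  have := Φ.uniq (fun _ => (p, 0)) (fun _ => hx) (fun t => by
    refine (hasDerivAt_const t _).congr_deriv ?_
    simp [Frame.X]; rfl) 1
  rw [E, ← this]

theorem E_isLocalHomeomorph (hF : F.Bdd κ) (hK : ∀ z ∈ UHP, F.K z ≤ 0) {p : ℂ}
    (hp : p ∈ UHP) : IsLocalHomeomorph (Φ.E p) := by
  refine IsLocalHomeomorph.mk _ fun w => ?_
  have h1 : HasStrictFDerivAt (Φ.E p) (Φ.dE p w) w :=
    hasStrictFDerivAt_of_hasFDerivAt_of_continuousAt
      (Eventually.of_forall fun y => Φ.hasFDerivAt_E hp y) (Φ.dE_continuous hp).continuousAt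
  have hinj : Function.Injective (Φ.dE p w : ℂ →ₗ[ℝ] ℂ) := by
    refine (injective_iff_map_eq_zero _).mpr fun v hv => ?_
    have h1 := Φ.dE_lower hF hK hp w v
    have h2 : Φ.dE p w v = 0 := hv
    rw [h2, map_zero, norm_zero] at h1
    exact norm_le_zero_iff.mp h1
  let e := (LinearEquiv.ofInjectiveEndo (Φ.dE p w : ℂ →ₗ[ℝ] ℂ) hinj).toContinuousLinearEquiv
  have he : (e : ℂ →L[ℝ] ℂ) = Φ.dE p w := by
    ext v
    simp [e]
  rw [← he] at h1
  exact ⟨h1.toOpenPartialHomeomorph _, h1.mem_toOpenPartialHomeomorph_source, fun x _ => rfl⟩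

/-- **Cartan–Hadamard**: the exponential map is injective. -/
theorem E_injective (hF : F.Bdd κ) (hK : ∀ z ∈ UHP, F.K z ≤ 0) {p : ℂ}
    (hp : p ∈ UHP) : Function.Injective (Φ.E p) := by
  intro w₁ w₂ hw
  have hconv : Convex ℝ UHP := by
    have : UHP = Complex.imCLM ⁻¹' Ioi 0 := by ext z; rfl
    rw [this]
    exact (convex_Ioi 0).linear_preimage (Complex.imCLM : ℂ →ₗ[ℝ] ℝ)
  have hseg : ∀ s : I, ∀ t : ℝ, (1 - (s : ℝ)) • Φ.E p (t • w₁) + (s : ℝ) • Φ.E p (t • w₂) ∈ UHP :=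
    fun s t => hconv (Φ.E_mem hp _) (Φ.E_mem hp _) (by linarith [s.2.2]) s.2.1 (by ring)
  have hd : ∀ w : ℂ, ∀ t : ℝ, HasDerivAt (fun t : ℝ => Φ.E p (t • w)) (Φ.dE p (t • w) w) t := by
    intro w t
    have h1 : HasDerivAt (fun t : ℝ => t • w) w t := by
      simpa using (hasDerivAt_id t).smul_const w
    exact (Φ.hasFDerivAt_E hp (t • w)).comp_hasDerivAt t h1
  have hdc : ∀ w : ℂ, Continuous fun t : ℝ => Φ.dE p (t • w) w := fun w =>
    ((Φ.dE_continuous hp).comp (by fun_prop)).clm_apply continuous_const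
  -- lifts of the straight-line homotopy
  have hlift : ∀ s : I, ∃ Γ : C(I, ℂ), Γ 0 = 0 ∧ ∀ t : I, Φ.E p (Γ t)
      = (1 - (s : ℝ)) • Φ.E p ((t : ℝ) • w₁) + (s : ℝ) • Φ.E p ((t : ℝ) • w₂) := by
    intro s
    set γ : ℝ → ℂ := fun t => (1 - (s : ℝ)) • Φ.E p (t • w₁) + (s : ℝ) • Φ.E p (t • w₂) with hγ
    set γ' : ℝ → ℂ := fun t => (1 - (s : ℝ)) • Φ.dE p (t • w₁) w₁ + (s : ℝ) • Φ.dE p (t • w₂) w₂
      with hγ'
    have h1 : ∀ t, HasDerivAt γ (γ' t) t := fun t =>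
      ((hd w₁ t).const_smul (1 - (s : ℝ))).add ((hd w₂ t).const_smul (s : ℝ))
    have h2 : Continuous γ' := by
      have c1 := (hdc w₁).const_smul (1 - (s : ℝ))
      have c2 := (hdc w₂).const_smul (s : ℝ)
      exact c1.add c2
    have h3 : Continuous γ := continuous_iff_continuousAt.mpr fun t => (h1 t).continuousAt
    have h4 : Continuous fun t => F.η (γ t) (γ' t) := by
      have h5 : ContinuousOn F.η UHP := F.η_smooth.continuousOn
      exact (h5.comp_continuous h3 (fun t => hseg s t)).clm_apply h2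
    obtain ⟨M, hM⟩ := (isCompact_Icc (a := (0 : ℝ)) (b := 1)).exists_bound_of_continuousOn
      h4.continuousOn
    obtain ⟨u, hu1, hu2, hu3, -⟩ := Φ.exists_lift hF hK hp (γ := γ) (γ' := γ')
      (fun t _ => hseg s t) (fun t _ => h1 t) h2.continuousOn (by
        simp only [hγ, zero_smul, Φ.E_zero hp, ← add_smul]
        ring_nf
        simp) hM
    refine ⟨⟨fun t => u t, ?_⟩, ?_, ?_⟩
    · exact continuousOn_iff_continuous_domRestrict.mp hu1
    · exact hu2
    · intro t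
      exact hu3 t t.2
  choose Γ hΓ0 hΓ using hlift
  -- replace the extreme lifts by the straight lines
  let Γ' : I → C(I, ℂ) := fun s =>
    if s = 0 then ⟨fun t => (t : ℝ) • w₁, by fun_prop⟩
    else if s = 1 then ⟨fun t => (t : ℝ) • w₂, by fun_prop⟩ else Γ s
  let γ₀ : C(I, ℂ) := ⟨fun t => Φ.E p ((t : ℝ) • w₁), (Φ.E_continuous hp).comp (by fun_prop)⟩
  let γ₁ : C(I, ℂ) := ⟨fun t => Φ.E p ((t : ℝ) • w₂), (Φ.E_continuous hp).comp (by fun_prop)⟩
  have hE := Φ.E_continuous hp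
  let H : γ₀.HomotopyRel γ₁ {0, 1} :=
    { toFun := fun st => (1 - (st.1 : ℝ)) • Φ.E p ((st.2 : ℝ) • w₁)
        + (st.1 : ℝ) • Φ.E p ((st.2 : ℝ) • w₂)
      continuous_toFun := by
        have c1 : Continuous fun st : I × I => Φ.E p ((st.2 : ℝ) • w₁) :=
          hE.comp (by fun_prop)
        have c2 : Continuous fun st : I × I => Φ.E p ((st.2 : ℝ) • w₂) :=
          hE.comp (by fun_prop)
        have c3 : Continuous fun st : I × I => (1 - (st.1 : ℝ)) := by fun_prop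
        have c4 : Continuous fun st : I × I => (st.1 : ℝ) := by fun_prop
        exact (c3.smul c1).add (c4.smul c2)
      map_zero_left := fun t => by simp [γ₀]
      map_one_left := fun t => by simp [γ₁]
      prop' := fun s t ht => by
        rcases ht with rfl | ht
        · simp only [ContinuousMap.coe_mk, Set.Icc.coe_zero, zero_smul, γ₀]
          rw [← add_smul]; simp
        · rw [mem_singleton_iff] at ht
          subst ht
          simp only [ContinuousMap.coe_mk, Set.Icc.coe_one, one_smul, γ₀]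
          rw [← hw, ← add_smul]; simp }
  have key := (Φ.E_isLocalHomeomorph hF hK hp).monodromy_theorem
    (T2Space.isSeparatedMap _) H Γ' (fun s t => by
      change Φ.E p (Γ' s t) = (1 - (s : ℝ)) • Φ.E p ((t : ℝ) • w₁)
        + (s : ℝ) • Φ.E p ((t : ℝ) • w₂)
      by_cases h0 : s = 0
      · subst h0; simp [Γ']
      · by_cases h1 : s = 1
        · subst h1; simp [Γ']
        · simp only [Γ', h0, h1, if_false]
          exact hΓ s t) (fun s => by
      by_cases h0 : s = 0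
      · subst h0; rfl
      · by_cases h1 : s = 1
        · subst h1; simp [Γ']
        · simp only [Γ', h0, h1, if_false, hΓ0]; simp) 1
  simpa [Γ'] using key.symm

end GeoFlow

end Frame

end Knieper
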