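import Pool.Agent.Knieper.Geodesics

/-!
# Closeness: a geodesic starting near a zero-curvature geodesic stays near it for a long time
-/

noncomputable section

open Set Filter Topology Metric Complex UpperHalfPlane
open scoped NNReal ContDiff unitInterval MatrixGroups

namespace Knieper

/-- Gronwall on `[0,1]`. -/
theorem gronwall_unit {y y' : ℝ → ℝ} {ρ : ℝ}
    (hy : ∀ s ∈ Icc (0 : ℝ) 1, HasDerivAt y (y' s) s)
    (hb : ∀ s ∈ Icc (0 : ℝ) 1, ‖y' s‖ ≤ ρ * ‖y s‖) {s : ℝ} (hs : s ∈ Icc (0 : ℝ) 1) :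
    ‖y s‖ ≤ ‖y 0‖ * Real.exp (ρ * s) := by
  have h := norm_le_gronwallBound_of_norm_deriv_right_le (f := y) (f' := y') (δ := ‖y 0‖)
    (K := ρ) (ε := 0) (a := 0) (b := 1)
    (fun s hs => (hy s hs).continuousAt.continuousWithinAt)
    (fun s hs => (hy s (Ico_subset_Icc_self hs)).hasDerivWithinAt) le_rfl
    (fun s hs => by rw [add_zero]; exact hb s (Ico_subset_Icc_self hs)) s hs
  rwa [gronwallBound_ε0, sub_zero] at h

namespace Frame

/-- Hyperbolic length bounds hyperbolic distance. -/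
theorem dist_le_of_path {z z' : ℝ → ℂ} {ρ : ℝ} (hρ0 : 0 ≤ ρ) (hρ : ρ ≤ 1 / 2)
    (hz : ∀ s ∈ Icc (0 : ℝ) 1, z s ∈ UHP) (hd : ∀ s ∈ Icc (0 : ℝ) 1, HasDerivAt z (z' s) s)
    (hb : ∀ s ∈ Icc (0 : ℝ) 1, ‖z' s‖ ≤ ρ * (z s).im) {s : ℝ} (hs : s ∈ Icc (0 : ℝ) 1) :
    dist (toH (z 0) (hz 0 ⟨le_rfl, zero_le_one⟩)) (toH (z s) (hz s hs)) ≤ 3 * ρ := by
  have hpos : ∀ s ∈ Icc (0 : ℝ) 1, 0 < (z s).im := hz
  have him : ∀ s ∈ Icc (0 : ℝ) 1, HasDerivAt (fun s => (z s).im) (z' s).im s := fun s hs =>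
    Complex.imCLM.hasFDerivAt.comp_hasDerivAt s (hd s hs)
  have hy0 : 0 < (z 0).im := hpos 0 ⟨le_rfl, zero_le_one⟩
  have hexp : ∀ s ∈ Icc (0 : ℝ) 1, Real.exp (ρ * s) ≤ Real.exp ρ := fun s hs => by
    apply Real.exp_le_exp.mpr
    nlinarith [hs.1, hs.2]
  have hup : ∀ s ∈ Icc (0 : ℝ) 1, (z s).im ≤ (z 0).im * Real.exp ρ := by
    intro s hs
    have := gronwall_unit him (fun s hs => by
      rw [Real.norm_eq_abs, Real.norm_eq_abs, abs_of_pos (hpos s hs)]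
      exact (Complex.abs_im_le_norm _).trans (hb s hs)) hs
    rw [Real.norm_eq_abs, Real.norm_eq_abs, abs_of_pos (hpos s hs), abs_of_pos hy0] at this
    exact this.trans (mul_le_mul_of_nonneg_left (hexp s hs) hy0.le)
  have hlow : ∀ s ∈ Icc (0 : ℝ) 1, (z 0).im * Real.exp (-ρ) ≤ (z s).im := by
    intro s hs
    have hinv : ∀ s ∈ Icc (0 : ℝ) 1,
        HasDerivAt (fun s => ((z s).im)⁻¹) (-(z' s).im / (z s).im ^ 2) s := fun s hs =>
      (him s hs).inv (hpos s hs).ne'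
    have := gronwall_unit hinv (fun s hs => by
      have h0 := hpos s hs
      rw [Real.norm_eq_abs, Real.norm_eq_abs, abs_div, abs_neg, abs_of_pos (inv_pos.mpr h0),
        abs_of_pos (by positivity : 0 < (z s).im ^ 2), div_le_iff₀ (by positivity)]
      refine (Complex.abs_im_le_norm _).trans ((hb s hs).trans (le_of_eq ?_))
      field_simp) hs
    rw [Real.norm_eq_abs, Real.norm_eq_abs, abs_of_pos (inv_pos.mpr (hpos s hs)),
      abs_of_pos (inv_pos.mpr hy0)] at this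
    have h3 : ((z s).im)⁻¹ ≤ ((z 0).im)⁻¹ * Real.exp ρ :=
      this.trans (mul_le_mul_of_nonneg_left (hexp s hs) (inv_pos.mpr hy0).le)
    have h4 := hpos s hs
    rw [inv_le_iff_one_le_mul₀ h4] at h3
    rw [Real.exp_neg]
    have h5 : (z 0).im * (Real.exp ρ)⁻¹ * 1
        ≤ (z 0).im * (Real.exp ρ)⁻¹ * ((z s).im * (((z 0).im)⁻¹ * Real.exp ρ)) := by
      gcongr
      linarith
    have h6 : (z 0).im * (Real.exp ρ)⁻¹ * ((z s).im * (((z 0).im)⁻¹ * Real.exp ρ))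
        = (z s).im := by
      have := Real.exp_pos ρ
      field_simp
    linarith
  have hlen : ‖z s - z 0‖ ≤ ρ * ((z 0).im * Real.exp ρ) := by
    have := norm_image_sub_le_of_norm_deriv_le_segment' (f := z) (f' := z') (a := 0) (b := 1)
      (C := ρ * ((z 0).im * Real.exp ρ))
      (fun s hs => (hd s hs).hasDerivWithinAt) (fun s hs =>
        (hb s (Ico_subset_Icc_self hs)).trans (by
          gcongr; exact hup s (Ico_subset_Icc_self hs))) s hs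
    refine this.trans ?_
    rw [sub_zero]
    refine mul_le_of_le_one_right (by positivity) hs.2
  refine (dist_le_dist_coe_div_sqrt _ _).trans ?_
  have hsq : (z 0).im * Real.exp (-ρ) ≤ √((z 0).im * (z s).im) := by
    apply Real.le_sqrt_of_sq_le
    have h1 := hlow s hs
    have h2 : Real.exp (-ρ) ≤ 1 := Real.exp_le_one_iff.mpr (by linarith)
    calc ((z 0).im * Real.exp (-ρ)) ^ 2 = ((z 0).im * Real.exp (-ρ)) *
          ((z 0).im * Real.exp (-ρ)) := by ring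
      _ ≤ ((z 0).im * 1) * (z s).im := by gcongr
      _ = _ := by ring
  have hd1 : dist ((toH (z 0) (hz 0 ⟨le_rfl, zero_le_one⟩) : ℍ) : ℂ) (toH (z s) (hz s hs) : ℍ)
      = ‖z s - z 0‖ := by
    rw [dist_comm, dist_eq_norm]; rfl
  rw [hd1]
  have hsqpos : 0 < √((z 0).im * (z s).im) := by
    have := hpos s hs
    positivity
  change ‖z s - z 0‖ / √((z 0).im * (z s).im) ≤ 3 * ρ
  rw [div_le_iff₀ hsqpos]
  refine hlen.trans ?_
  have h7 : Real.exp ρ * Real.exp ρ ≤ 3 := by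
    rw [← Real.exp_add]
    have : Real.exp (ρ + ρ) ≤ Real.exp 1 := Real.exp_le_exp.mpr (by linarith)
    linarith [Real.exp_one_lt_d9]
  have h8 : Real.exp ρ ≤ 3 * Real.exp (-ρ) := by
    rw [Real.exp_neg, ← div_eq_mul_inv, le_div_iff₀ (Real.exp_pos ρ)]
    exact h7
  calc ρ * ((z 0).im * Real.exp ρ) ≤ ρ * ((z 0).im * (3 * Real.exp (-ρ))) := by gcongr
    _ = 3 * ρ * ((z 0).im * Real.exp (-ρ)) := by ring
    _ ≤ 3 * ρ * √((z 0).im * (z s).im) := by gcongr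

variable {F : Frame} {κ : ℝ}

namespace GeoFlow

variable (Φ : GeoFlow F)

theorem continuousOn_G {C : Set (ℂ × ℂ)} (hC : IsCompact C) (hCD : C ⊆ D) (T : ℝ) :
    ContinuousOn (fun p : (ℂ × ℂ) × ℝ => Φ.G p.2 p.1) (C ×ˢ Icc (-T) T) := by
  obtain ⟨L, hL0, hL⟩ := Φ.lip C hC hCD T
  refine continuousOn_prod_of_continuousOn_lipschitzOnWith _ ⟨L, hL0⟩ (fun x hx t _ =>
    (Φ.dG t x (hCD hx)).continuousAt.continuousWithinAt) (fun t ht =>
    LipschitzOnWith.of_dist_le_mul fun x hx y hy => ?_)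
  rw [dist_eq_norm, dist_eq_norm]
  exact (hL t ht x hx y hy).1

theorem continuousOn_A {C : Set (ℂ × ℂ)} (hC : IsCompact C) (hCD : C ⊆ D) (T : ℝ) :
    ContinuousOn (fun p : (ℂ × ℂ) × ℝ => Φ.A p.2 p.1) (C ×ˢ Icc (-T) T) := by
  obtain ⟨L, hL0, hL⟩ := Φ.lip C hC hCD T
  refine continuousOn_prod_of_continuousOn_lipschitzOnWith _ ⟨L, hL0⟩ (fun x hx t _ =>
    (Φ.dA t x (hCD hx)).continuousAt.continuousWithinAt) (fun t ht =>
    LipschitzOnWith.of_dist_le_mul fun x hx y hy => ?_)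
  rw [dist_eq_norm, dist_eq_norm]
  exact (hL t ht x hx y hy).2

/-- **Closeness theorem.** -/
theorem close (hF : F.Bdd κ) {κ₂ : ℝ} (hκ₂ : 0 ≤ κ₂)
    (hKb : ∀ z₀ z : ℍ, F.K z₀ = 0 → dist z₀ z ≤ 1 → |F.K z| ≤ κ₂ * dist z₀ z ^ 2)
    {l r : ℝ} (hl : 0 < l) (hr : 0 < r) (hr1 : 18 * κ * r ≤ 1)
    (hr2 : 24 * κ₂ * (18 * κ * r) ^ 2 * l ^ 2 ≤ 1)
    {x x' : ℝ → ℂ × ℂ} (hx : ∀ s ∈ Icc (0 : ℝ) 1, HasDerivAt x (x' s) s)
    (hxc : ContinuousOn x' (Icc 0 1)) (hxD : ∀ s ∈ Icc (0 : ℝ) 1, x s ∈ D)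
    (hxu : ∀ s ∈ Icc (0 : ℝ) 1, ‖(x s).2‖ = 1)
    (hZ : ∀ s ∈ Icc (0 : ℝ) 1, ‖F.η (x s).1 (x' s).1‖ ≤ r)
    (hC : ∀ s ∈ Icc (0 : ℝ) 1,
      ‖(x' s).2 + Complex.I * F.θ (x s).1 (x' s).1 * (x s).2‖ ≤ r / l)
    (hflat : ∀ t ∈ Icc (0 : ℝ) (2 * l), F.K (Φ.G t (x 0)).1 = 0) :
    ∀ t ∈ Icc (0 : ℝ) (2 * l),
      dist (toH (Φ.G t (x 0)).1 (mem_D.mp (Φ.mem t _ (hxD 0 ⟨le_rfl, zero_le_one⟩))))
        (toH (Φ.G t (x 1)).1 (mem_D.mp (Φ.mem t _ (hxD 1 ⟨zero_le_one, le_rfl⟩))))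
        ≤ 18 * κ * r := by
  have hκ : 0 < κ := lt_of_lt_of_le one_pos hF.one_le
  have h01 : (0 : ℝ) ∈ Icc (0 : ℝ) 1 := ⟨le_rfl, zero_le_one⟩
  have h11 : (1 : ℝ) ∈ Icc (0 : ℝ) 1 := ⟨zero_le_one, le_rfl⟩
  set Z : ℝ → ℝ → ℂ := fun s => F.zh (fun t => (Φ.G t (x s)).1) (fun t => (Φ.G t (x s)).2)
    (fun t => (Φ.A t (x s) (x' s)).1) with hZdef
  set C : ℝ → ℝ → ℂ := fun s => F.ch (fun t => (Φ.G t (x s)).1) (fun t => (Φ.G t (x s)).2)
    (fun t => (Φ.A t (x s) (x' s)).1) (fun t => (Φ.A t (x s) (x' s)).2) with hCdef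
  have hw : ∀ s ∈ Icc (0 : ℝ) 1, ∀ t, ‖(Φ.G t (x s)).2‖ = 1 := fun s hs t =>
    (Φ.norm_snd hF (hxD s hs) t).trans (hxu s hs)
  have hmem : ∀ s ∈ Icc (0 : ℝ) 1, ∀ t, (Φ.G t (x s)).1 ∈ UHP := fun s hs t =>
    mem_D.mp (Φ.mem t _ (hxD s hs))
  have hZ' : ∀ s ∈ Icc (0 : ℝ) 1, ∀ t, HasDerivAt (Z s) (C s t) t := fun s hs t =>
    (Φ.isVar (hxD s hs) (x' s) t).deriv_zh
  have hC' : ∀ s ∈ Icc (0 : ℝ) 1, ∀ t, HasDerivAt (C s)
      (-Complex.I * (F.K (Φ.G t (x s)).1 * ‖(Φ.G t (x s)).2‖ ^ 2 * (Z s t).im : ℝ)) t :=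
    fun s hs t => (Φ.isVar (hxD s hs) (x' s) t).deriv_ch
  -- initial values
  have hZ0 : ∀ s ∈ Icc (0 : ℝ) 1, ‖Z s 0‖ ≤ r := by
    intro s hs
    simp only [hZdef, zh, norm_mul, RCLike.norm_conj, Φ.A_zero _ (hxD s hs),
      Φ.zero _ (hxD s hs), ContinuousLinearMap.id_apply]
    have := hxu s hs
    rw [this, one_mul]
    exact hZ s hs
  have hC0 : ∀ s ∈ Icc (0 : ℝ) 1, ‖C s 0‖ ≤ r / l := by
    intro s hs
    simp only [hCdef, ch, norm_mul, RCLike.norm_conj, Φ.A_zero _ (hxD s hs),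
      Φ.zero _ (hxD s hs), ContinuousLinearMap.id_apply]
    rw [hxu s hs, one_mul]
    exact hC s hs
  -- norm of `Z` is the frame norm of the variation field
  have hZη : ∀ s ∈ Icc (0 : ℝ) 1, ∀ t, ‖F.η (Φ.G t (x s)).1 (Φ.A t (x s) (x' s)).1‖ = ‖Z s t‖ := by
    intro s hs t
    simp only [hZdef, zh, norm_mul, RCLike.norm_conj, hw s hs, one_mul]
  -- derivative in `s`
  have hds : ∀ t, ∀ s ∈ Icc (0 : ℝ) 1,
      HasDerivAt (fun s => (Φ.G t (x s)).1) (Φ.A t (x s) (x' s)).1 s := by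
    intro t s hs
    have := (Φ.fd t (x s) (hxD s hs)).comp_hasDerivAt s (hx s hs)
    exact this.fst
  -- distance estimate
  have hdist : ∀ t, (∀ s ∈ Icc (0 : ℝ) 1, ‖Z s t‖ ≤ 6 * r) → ∀ s (hs : s ∈ Icc (0 : ℝ) 1),
      dist (toH (Φ.G t (x 0)).1 (hmem 0 h01 t)) (toH (Φ.G t (x s)).1 (hmem s hs t))
        ≤ 18 * κ * r := by
    intro t ht s hs
    have := dist_le_of_path (z := fun s => (Φ.G t (x s)).1)
      (z' := fun s => (Φ.A t (x s) (x' s)).1) (ρ := 6 * κ * r) (by positivity) (by linarith)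
      (fun s hs => hmem s hs t) (hds t) (fun s hs => by
        refine (hF.low _ (hmem s hs t) _).trans ?_
        rw [hZη s hs t]
        have h1 := ht s hs
        have h2 : 0 < (Φ.G t (x s)).1.im := hmem s hs t
        calc κ * (Φ.G t (x s)).1.im * ‖Z s t‖ ≤ κ * (Φ.G t (x s)).1.im * (6 * r) := by gcongr
          _ = _ := by ring) hs
    refine this.trans (le_of_eq ?_)
    ring
  -- joint continuity of `Z`
  have hxcont : ContinuousOn x (Icc 0 1) := fun s hs => (hx s hs).continuousAt.continuousWithinAt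
  have hZcont : ContinuousOn (fun p : ℝ × ℝ => Z p.1 p.2) (Icc 0 1 ×ˢ Icc 0 (2 * l)) := by
    have hCc : IsCompact (x '' Icc 0 1) := isCompact_Icc.image_of_continuousOn hxcont
    have hCD : x '' Icc 0 1 ⊆ D := by
      rintro _ ⟨s, hs, rfl⟩; exact hxD s hs
    have hmaps : MapsTo (fun p : ℝ × ℝ => (x p.1, p.2)) (Icc 0 1 ×ˢ Icc 0 (2 * l))
        ((x '' Icc 0 1) ×ˢ Icc (-(2 * l)) (2 * l)) := by
      rintro ⟨s, t⟩ ⟨hs, ht⟩
      exact ⟨⟨s, hs, rfl⟩, ⟨by linarith [ht.1], ht.2⟩⟩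
    have hp : ContinuousOn (fun p : ℝ × ℝ => (x p.1, p.2)) (Icc 0 1 ×ˢ Icc 0 (2 * l)) :=
      (hxcont.comp continuousOn_fst (fun p hp => hp.1)).prodMk continuousOn_snd
    have hG : ContinuousOn (fun p : ℝ × ℝ => Φ.G p.2 (x p.1)) (Icc 0 1 ×ˢ Icc 0 (2 * l)) :=
      (Φ.continuousOn_G hCc hCD (2 * l)).comp hp hmaps
    have hA : ContinuousOn (fun p : ℝ × ℝ => Φ.A p.2 (x p.1)) (Icc 0 1 ×ˢ Icc 0 (2 * l)) :=
      (Φ.continuousOn_A hCc hCD (2 * l)).comp hp hmaps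
    have hx'c : ContinuousOn (fun p : ℝ × ℝ => x' p.1) (Icc 0 1 ×ˢ Icc 0 (2 * l)) :=
      hxc.comp continuousOn_fst (fun p hp => hp.1)
    have hAx : ContinuousOn (fun p : ℝ × ℝ => (Φ.A p.2 (x p.1) (x' p.1)).1)
        (Icc 0 1 ×ˢ Icc 0 (2 * l)) := continuous_fst.comp_continuousOn (hA.clm_apply hx'c)
    have hη : ContinuousOn (fun p : ℝ × ℝ => F.η (Φ.G p.2 (x p.1)).1)
        (Icc 0 1 ×ˢ Icc 0 (2 * l)) :=
      F.η_smooth.continuousOn.comp (continuous_fst.comp_continuousOn hG)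
        (fun p hp => hmem p.1 hp.1 p.2)
    exact (Complex.continuous_conj.comp_continuousOn (continuous_snd.comp_continuousOn hG)).mul
      (hη.clm_apply hAx)
  -- the key estimate
  have hkey : ∀ t₀ ∈ Icc (0 : ℝ) (2 * l),
      (∀ t, 0 ≤ t → t < t₀ → ∀ s ∈ Icc (0 : ℝ) 1, ‖Z s t‖ < 6 * r) →
      ∀ s ∈ Icc (0 : ℝ) 1, ‖Z s t₀‖ < 6 * r := by
    intro t₀ ht₀ hlt s hs
    have hKs : ∀ t, 0 ≤ t → t < t₀ → |F.K (Φ.G t (x s)).1| ≤ κ₂ * (18 * κ * r) ^ 2 := by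
      intro t h0 h1
      have h2 := hdist t (fun s hs => (hlt t h0 h1 s hs).le) s hs
      have h3 := hKb (toH (Φ.G t (x 0)).1 (hmem 0 h01 t)) (toH (Φ.G t (x s)).1 (hmem s hs t))
        (hflat t ⟨h0, h1.le.trans ht₀.2⟩) (h2.trans hr1)
      refine h3.trans ?_
      gcongr
    have hCt : ∀ t ∈ Icc (0 : ℝ) t₀, ‖C s t‖ ≤ 3 / 2 * (r / l) := by
      intro t ht
      have h1 := norm_image_sub_le_of_norm_deriv_le_segment' (f := C s)
        (a := 0) (b := t₀) (C := κ₂ * (18 * κ * r) ^ 2 * (6 * r))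
        (fun t _ => (hC' s hs t).hasDerivWithinAt) (fun t ht => by
          have h2 := hKs t ht.1 ht.2
          have h3 := (hlt t ht.1 ht.2 s hs).le
          rw [norm_mul, norm_neg, Complex.norm_I, one_mul, Complex.norm_real, hw s hs, one_pow,
            mul_one, norm_mul, Real.norm_eq_abs]
          gcongr
          exact (Complex.abs_im_le_norm _).trans h3) t ht
      rw [sub_zero] at h1
      have h4 : ‖C s t‖ ≤ ‖C s t - C s 0‖ + ‖C s 0‖ := by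
        have := norm_add_le (C s t - C s 0) (C s 0)
        simpa using this
      have h5 := hC0 s hs
      have h6 : κ₂ * (18 * κ * r) ^ 2 * (6 * r) * t ≤ r / l / 2 := by
        have h7 : t ≤ 2 * l := ht.2.trans ht₀.2
        calc κ₂ * (18 * κ * r) ^ 2 * (6 * r) * t
            ≤ κ₂ * (18 * κ * r) ^ 2 * (6 * r) * (2 * l) := by gcongr
          _ = (24 * κ₂ * (18 * κ * r) ^ 2 * l ^ 2) * (r / l / 2) := by field_simp; ring
          _ ≤ 1 * (r / l / 2) := by gcongr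
          _ = r / l / 2 := one_mul _
      linarith
    have h1 := norm_image_sub_le_of_norm_deriv_le_segment' (f := Z s)
      (a := 0) (b := t₀) (C := 3 / 2 * (r / l)) (fun t _ => (hZ' s hs t).hasDerivWithinAt)
      (fun t ht => hCt t (Ico_subset_Icc_self ht)) t₀ ⟨ht₀.1, le_rfl⟩
    rw [sub_zero] at h1
    have h4 : ‖Z s t₀‖ ≤ ‖Z s t₀ - Z s 0‖ + ‖Z s 0‖ := by
      have := norm_add_le (Z s t₀ - Z s 0) (Z s 0)
      simpa using this
    have h5 := hZ0 s hs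
    have h6 : 3 / 2 * (r / l) * t₀ ≤ 3 * r := by
      calc 3 / 2 * (r / l) * t₀ ≤ 3 / 2 * (r / l) * (2 * l) := by
            have := ht₀.2
            gcongr
        _ = 3 * r := by field_simp
    linarith
  -- continuity argument
  have hall : ∀ t ∈ Icc (0 : ℝ) (2 * l), ∀ s ∈ Icc (0 : ℝ) 1, ‖Z s t‖ < 6 * r := by
    by_contra hcon
    push Not at hcon
    obtain ⟨t₁, ht₁, s₁, hs₁, hbad⟩ := hcon
    set B : Set (ℝ × ℝ) := (Icc 0 1 ×ˢ Icc 0 (2 * l)) ∩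
      (fun p : ℝ × ℝ => ‖Z p.1 p.2‖) ⁻¹' Ici (6 * r) with hB
    have hcomp : IsCompact (Icc (0 : ℝ) 1 ×ˢ Icc (0 : ℝ) (2 * l)) :=
      isCompact_Icc.prod isCompact_Icc
    have hBc : IsCompact B :=
      hcomp.of_isClosed_subset
        (hZcont.norm.preimage_isClosed_of_isClosed hcomp.isClosed isClosed_Ici) inter_subset_left
    have hne : (Prod.snd '' B).Nonempty := ⟨t₁, (s₁, t₁), ⟨⟨hs₁, ht₁⟩, hbad⟩, rfl⟩
    obtain ⟨t₀, ⟨⟨s₀, t₀'⟩, hq, rfl⟩, hleast⟩ := (hBc.image continuous_snd).exists_isLeast hne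
    have hq1 : s₀ ∈ Icc (0 : ℝ) 1 := hq.1.1
    have hq2 : t₀' ∈ Icc (0 : ℝ) (2 * l) := hq.1.2
    have h1 := hkey t₀' hq2 (fun t ht0 htlt s hs => by
      by_contra hc
      push Not at hc
      have := hleast ⟨(s, t), ⟨⟨hs, ⟨ht0, htlt.le.trans hq2.2⟩⟩, hc⟩, rfl⟩
      simp only at this
      linarith) s₀ hq1
    have h2 : 6 * r ≤ ‖Z s₀ t₀'‖ := hq.2
    linarith
  intro t ht
  exact hdist t (fun s hs => (hall t ht s hs).le) 1 h11

end GeoFlow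

end Frame

end Knieper
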