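import Pool.Agent.Knieper.Axis

/-!
# Counting primitive zero-curvature classes
-/

noncomputable section

open Set Filter Topology Metric Complex UpperHalfPlane
open scoped NNReal ContDiff unitInterval MatrixGroups

namespace Knieper

namespace Frame

variable {F : Frame} {κ : ℝ} {Γ : Subgroup SL(2, ℝ)}

/-- Classes of primitive elements with a zero-curvature axis of length at most `T`. -/
def primClasses (F : Frame) (Γ : Subgroup SL(2, ℝ)) (T : ℝ) : Set (ConjClasses Γ) :=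
  {x | ∃ γ : Γ, ConjClasses.mk γ = x ∧
    (∀ y ∈ Γ, y * (γ : SL(2, ℝ)) = γ * y → ∃ k : ℤ, y = (γ : SL(2, ℝ)) ^ k) ∧
    ∃ (ℓ : ℝ) (c w : ℝ → ℂ), ℓ ≤ T ∧ F.FlatAxis γ ℓ c w}

theorem eventually_mul_le (c d : ℝ) (hd : 0 < d) : ∀ᶠ ε in 𝓝[>] (0 : ℝ), c * ε ≤ d := by
  have h : Tendsto (fun ε : ℝ => c * ε) (𝓝[>] 0) (𝓝 (c * 0)) :=
    ((continuous_const.mul continuous_id).tendsto 0).mono_left nhdsWithin_le_nhds
  rw [mul_zero] at h
  exact (h.eventually (Iio_mem_nhds hd)).mono fun ε hε => le_of_lt hε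

theorem card_Icc_nat (A : ℕ) :
    ((Finset.Icc (-(A + 1 : ℤ)) (A + 1)).card : ℝ) = 2 * A + 3 := by
  rw [Int.card_Icc]
  have : ((A : ℤ) + 1 + 1 - -(A + 1)).toNat = 2 * A + 3 := by omega
  rw [this]; push_cast; ring

theorem index_eq {N i j : ℕ} {l step ℓ : ℝ} {q : ℤ} (hstep0 : 0 < step)
    (hNup : (N : ℝ) * step ≤ l / 2) (hi : i < N) (hj : j < N) (hℓ : l / 2 < ℓ)
    (hmin : |(i * step + q * ℓ) - j * step| < step) : i = j := by
  have hi : (i : ℝ) + 1 ≤ N := by exact_mod_cast hi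
  have hj : (j : ℝ) + 1 ≤ N := by exact_mod_cast hj
  have his : (i : ℝ) * step ≤ l / 2 - step := by nlinarith
  have hjs : (j : ℝ) * step ≤ l / 2 - step := by nlinarith
  have hi1 : 0 ≤ (i : ℝ) * step := by positivity
  have hj1 : 0 ≤ (j : ℝ) * step := by positivity
  obtain ⟨m1, m2⟩ := abs_lt.mp hmin
  have hq0 : q = 0 := by
    by_contra hne
    rcases lt_or_gt_of_ne hne with hneg | hpos
    · have : (q : ℝ) ≤ -1 := by exact_mod_cast Int.le_sub_one_of_lt hneg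
      nlinarith
    · have : (1 : ℝ) ≤ q := by exact_mod_cast hpos
      nlinarith
  rw [hq0, Int.cast_zero, zero_mul, add_zero] at m1 m2
  have h1 : (i : ℝ) < j + 1 := by
    by_contra hc; push Not at hc; nlinarith
  have h2 : (j : ℝ) < i + 1 := by
    by_contra hc; push Not at hc; nlinarith
  have h3 : i < j + 1 := by exact_mod_cast h1
  have h4 : j < i + 1 := by exact_mod_cast h2
  omega

theorem le_of_mul_ell {a r ℓ₀ ε d : ℝ} (ha : 0 ≤ a) (hℓ₀ : 0 < ℓ₀) (h1 : r * ℓ₀ ≤ ε)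
    (h2 : a * ε ≤ d * ℓ₀) : a * r ≤ d := by
  have : (a * r) * ℓ₀ ≤ d * ℓ₀ := by
    calc (a * r) * ℓ₀ = a * (r * ℓ₀) := by ring
      _ ≤ a * ε := by gcongr
      _ ≤ d * ℓ₀ := h2
  exact le_of_mul_le_mul_right this hℓ₀

theorem le_of_mul_ell2 {a r ℓ₀ ε l : ℝ} (hℓ₀ : 0 < ℓ₀) (hl : ℓ₀ ≤ l)
    (h1 : r * l = ε) (h2 : a * ε ≤ ℓ₀ ^ 2) : a * r ≤ l := by
  have hl0 : 0 < l := hℓ₀.trans_le hl
  have : (a * r) * l ≤ l * l := by
    calc (a * r) * l = a * (r * l) := by ring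
      _ ≤ ℓ₀ ^ 2 := by rw [h1]; exact h2
      _ ≤ l ^ 2 := by gcongr
      _ = l * l := by ring
  exact le_of_mul_le_mul_right this hl0

theorem small_consts {κ M r l h : ℝ} {m : ℕ} (hκ1 : 1 ≤ κ) (hM : 0 ≤ M) (hr0 : 0 < r)
    (hl0 : 0 < l) (hh0 : 0 < h) (r1 : 36 * κ * r ≤ 1) (hMr : 2 * M * (r * l) ≤ 1)
    (c1 : κ * (2 * m + 1) * (2 * h) ≤ r) :
    2 * m * h ≤ 1 ∧ r / (2 * l) + M * (2 * h) * (2 * h) ≤ r / l := by
  have hm : (0 : ℝ) ≤ m := by positivity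
  have hk : (1 : ℝ) ≤ κ * (2 * m + 1) := by nlinarith
  have hhr : 2 * h ≤ r := by nlinarith
  have hr1 : r ≤ 1 := by nlinarith
  refine ⟨?_, ?_⟩
  · have h4 : 2 * (m : ℝ) ≤ κ * (2 * m + 1) := by nlinarith
    have h5 : 2 * (m : ℝ) * h ≤ κ * (2 * m + 1) * h := mul_le_mul_of_nonneg_right h4 hh0.le
    nlinarith
  · have h1 : M * (2 * h) * (2 * h) ≤ r / (2 * l) := by
      rw [le_div_iff₀ (by positivity)]
      calc M * (2 * h) * (2 * h) * (2 * l) ≤ M * r * r * (2 * l) := by gcongr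
        _ = (2 * M * (r * l)) * r := by ring
        _ ≤ 1 * r := by gcongr
        _ = r := one_mul r
    have h2 : r / l = r / (2 * l) + r / (2 * l) := by field_simp; ring
    linarith

theorem count_diff (Φ : GeoFlow F) (hF : F.Bdd κ) (hK : ∀ z ∈ UHP, F.K z ≤ 0)
    (hΓ : IsSurfaceGroup Γ) (hinv : F.Invariant Γ) {ℓ₀ : ℝ} (hℓ₀ : 0 < ℓ₀) :
    ∃ C : ℝ, 0 ≤ C ∧ ∀ l, ℓ₀ ≤ l →
      (primClasses F Γ l \ primClasses F Γ (l / 2)).Finite ∧
      ((primClasses F Γ l \ primClasses F Γ (l / 2)).ncard : ℝ) ≤ C * l ^ 2 := by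
  have hκ1 := hF.one_le
  have hκ : 0 < κ := lt_of_lt_of_le one_pos hκ1
  obtain ⟨κ₂, hκ₂, hKb⟩ := exists_curv_bound hΓ hinv hK
  obtain ⟨δ, hδ0, hδ⟩ := displacement Γ hΓ
  obtain ⟨K, hKc, hKΓ⟩ := hΓ.cocompact
  obtain ⟨m, hm⟩ := exists_RR hKc 0
  obtain ⟨M, hM⟩ := exists_lipschitz (f := F.θ) (isCompact_RR (2 * m + 1)) (RR_subset _)
    (fun z hz => (F.θ_contDiffAt hz).of_le (by norm_cast))
  -- choice of `ε`
  have hev : ∀ᶠ ε in 𝓝[>] (0 : ℝ), 0 < ε ∧ (36 * κ) * ε ≤ ℓ₀ ∧ (72 * κ) * ε ≤ δ * ℓ₀ / 2 ∧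
      (216 * κ ^ 2) * ε ≤ ℓ₀ ^ 2 ∧ (24 * κ₂ * 324 * κ ^ 2) * ε ≤ 1 ∧ 1 * ε ≤ 1 ∧
      (2 * M) * ε ≤ 1 ∧ (436 * κ ^ 2) * ε ≤ ℓ₀ ^ 2 := by
    refine (eventually_mem_nhdsWithin).and ?_
    refine (eventually_mul_le _ _ hℓ₀).and ?_
    refine (eventually_mul_le _ _ (by positivity)).and ?_
    refine (eventually_mul_le _ _ (by positivity)).and ?_
    refine (eventually_mul_le _ _ one_pos).and ?_
    refine (eventually_mul_le _ _ one_pos).and ?_
    refine (eventually_mul_le _ _ one_pos).and ?_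
    exact eventually_mul_le _ _ (by positivity)
  obtain ⟨ε, hε, ε1, ε2, ε3, ε4, ε5, ε6, ε7⟩ := hev.exists
  set P : ℝ := 4 * κ * (2 * m + 1) * m / ε + 5 / ℓ₀ with hP
  set Q : ℝ := 16 / ε + 5 / ℓ₀ ^ 2 with hQ
  have hP0 : 0 ≤ P := by positivity
  have hQ0 : 0 ≤ Q := by positivity
  refine ⟨P ^ 2 * Q * (436 * κ ^ 2 * ε), by positivity, fun l hl => ?_⟩
  have hl0 : 0 < l := lt_of_lt_of_le hℓ₀ hl
  set r : ℝ := ε / l with hr
  have hr0 : 0 < r := by positivity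
  have hrl : r * l = ε := by rw [hr]; field_simp
  have hrℓ : r * ℓ₀ ≤ ε := by rw [← hrl]; gcongr
  -- consequences for `r`
  have r1 : 36 * κ * r ≤ 1 := le_of_mul_ell (by positivity) hℓ₀ hrℓ (by rw [one_mul]; exact ε1)
  have r2 : 72 * κ * r ≤ δ / 2 := le_of_mul_ell (by positivity) hℓ₀ hrℓ (by linarith)
  have r3 : 216 * κ ^ 2 * r ≤ l := le_of_mul_ell2 hℓ₀ hl hrl ε3
  have r4 : 24 * κ₂ * (18 * κ * r) ^ 2 * l ^ 2 ≤ 1 := by
    calc 24 * κ₂ * (18 * κ * r) ^ 2 * l ^ 2 = (24 * κ₂ * 324 * κ ^ 2) * ((r * l) * (r * l)) := by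
          ring
      _ = (24 * κ₂ * 324 * κ ^ 2 * ε) * ε := by rw [hrl]; ring
      _ ≤ 1 * 1 := by
          gcongr
          linarith
      _ = 1 := one_mul 1
  set h : ℝ := r / (2 * κ * (2 * m + 1)) with hh
  set h' : ℝ := r / (2 * l) with hh'
  have hh0 : 0 < h := by positivity
  have hh'0 : 0 < h' := by positivity
  have c1 : κ * (2 * m + 1) * (2 * h) ≤ r := by
    rw [hh]; apply le_of_eq; field_simp
  obtain ⟨c2, c3⟩ := small_consts (m := m) hκ1 (M := (M : ℝ)) M.2 hr0 hl0 hh0 r1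
    (by rw [hrl]; exact ε6) c1
  -- sampling
  set step : ℝ := 109 * κ ^ 2 * r with hstep
  have hstep0 : 0 < step := by positivity
  set N : ℕ := ⌊l / (2 * step)⌋₊ with hN
  have hstepl : step * l = 109 * κ ^ 2 * ε := by rw [hstep, ← hrl]; ring
  have hNup : (N : ℝ) * step ≤ l / 2 := by
    have := Nat.floor_le (show 0 ≤ l / (2 * step) by positivity)
    rw [le_div_iff₀ (by positivity)] at this
    linarith
  have hN4 : 1 ≤ l / (4 * step) := by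
    rw [le_div_iff₀ (by positivity), one_mul]
    have h1 := le_of_mul_ell2 hℓ₀ hl hrl ε7
    rw [hstep]
    linarith
  have hNlow : l / (4 * step) ≤ N := by
    have h1 := Nat.lt_floor_add_one (l / (2 * step))
    have h2 : l / (2 * step) = 2 * (l / (4 * step)) := by field_simp; ring
    rw [← hN] at h1
    linarith
  have hN1 : 1 ≤ N := by
    have : (1 : ℝ) ≤ N := hN4.trans hNlow
    exact_mod_cast this
  -- the data
  set S : Set (ConjClasses Γ) := primClasses F Γ l \ primClasses F Γ (l / 2) with hS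
  have hdata : ∀ x : S, ∃ (γ : Γ) (ℓ : ℝ) (c w : ℝ → ℂ), ConjClasses.mk γ = (x : ConjClasses Γ) ∧
      (∀ y ∈ Γ, y * (γ : SL(2, ℝ)) = γ * y → ∃ k : ℤ, y = (γ : SL(2, ℝ)) ^ k) ∧
      l / 2 < ℓ ∧ ℓ ≤ l ∧ F.FlatAxis γ ℓ c w := by
    rintro ⟨x, hx1, hx2⟩
    obtain ⟨γ, h1, h2, ℓ, c, w, h3, h4⟩ := hx1
    refine ⟨γ, ℓ, c, w, h1, h2, ?_, h3, h4⟩
    by_contra hcon
    push Not at hcon
    exact hx2 ⟨γ, h1, h2, ℓ, c, w, hcon, h4⟩
  choose γ ℓ c w hmk hprim hℓ1 hℓ2 hax using hdata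
  have hg : ∀ (x : S) (j : ℕ), ∃ g ∈ Γ, g • toH (c x (j * step)) ((hax x).geod.mem _) ∈ K :=
    fun x j => hKΓ _
  choose g hgΓ hgK using hg
  have htr : ∀ (x : S) (j : ℕ), ∃ w', F.FlatAxis (g x j * γ x * (g x j)⁻¹) (ℓ x)
      (fun t => act (g x j) (c x (t + j * step))) w' := fun x j =>
    (hax x).translate hinv (hgΓ x j) _
  choose w' hw' using htr
  have hstart : ∀ (x : S) (j : ℕ), act (g x j) (c x (0 + j * step)) ∈ RR m := by
    intro x j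
    rw [zero_add, act_eq _ ((hax x).geod.mem _)]
    exact hm _ (hgK x j) _ (by simp)
  set L : Finset (ℤ × ℤ × ℤ) := (Finset.Icc (-(⌈m / h⌉₊ + 1 : ℤ)) (⌈m / h⌉₊ + 1)) ×ˢ
      ((Finset.Icc (-(⌈m / h⌉₊ + 1 : ℤ)) (⌈m / h⌉₊ + 1)) ×ˢ
      (Finset.Icc (-(⌈4 / h'⌉₊ + 1 : ℤ)) (⌈4 / h'⌉₊ + 1))) with hL
  have hs1 : 4 * (18 * κ * r) < δ := by
    have e : 4 * (18 * κ * r) = 72 * κ * r := by ring
    rw [e]
    exact r2.trans_lt (half_lt_self hδ0)
  have hs2 : 2 * (18 * κ * r) ≤ 1 := by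
    have e : 2 * (18 * κ * r) = 36 * κ * r := by ring
    rw [e]; exact r1
  have hs3 : 12 * κ * (18 * κ * r) ≤ l := by
    have e : 12 * κ * (18 * κ * r) = 216 * κ ^ 2 * r := by ring
    rw [e]; exact r3
  have hs4 : 6 * κ * (18 * κ * r) < step := by
    have e : 6 * κ * (18 * κ * r) = 108 * (κ ^ 2 * r) := by ring
    have e2 : step = 109 * (κ ^ 2 * r) := by rw [hstep]; ring
    rw [e, e2]
    exact mul_lt_mul_of_pos_right (by norm_num) (by positivity)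
  have hs5 : 18 * κ * r ≤ 1 := by
    have e : 0 ≤ 18 * κ * r := by positivity
    linarith
  let f : S × Fin N → L := fun p =>
    ⟨F.lab h h' (act (g p.1 p.2) (c p.1 (0 + (p.2 : ℕ) * step))) (w' p.1 p.2 0),
      lab_mem hh0 hh'0 (hstart p.1 p.2)⟩
  have hinj : Function.Injective f := by
    rintro ⟨x, j⟩ ⟨y, i⟩ hxy
    have hlab : F.lab h h' (act (g x j) (c x (0 + (j : ℕ) * step))) (w' x j 0)
        = F.lab h h' (act (g y i) (c y (0 + (i : ℕ) * step))) (w' y i 0) :=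
      congrArg Subtype.val hxy
    obtain ⟨p, p', hp1, hp2, hp3, hp4, hp5, hp6, hp7, hp8⟩ := exists_path hF hM hh0 hh'0 c2 c1 c3
      (hstart x j) (hstart y i) ((hw' x j).geod.unit 0) ((hw' y i).geod.unit 0) hlab
    have hfl : ∀ t, (Φ.G t (p 0)).1 = act (g x j) (c x (t + (j : ℕ) * step)) := by
      intro t
      rw [hp7]
      have := (hw' x j).geod.eq_flow Φ t
      rw [← this]
    have hfl' : ∀ t, (Φ.G t (p 1)).1 = act (g y i) (c y (t + (i : ℕ) * step)) := by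
      intro t
      rw [hp8]
      have := (hw' y i).geod.eq_flow Φ t
      rw [← this]
    have hclose := Φ.close hF hκ₂ hKb hl0 hr0 hs5 r4 hp1 hp2 hp3 hp4 hp5 hp6
      (fun t _ => by rw [hfl t]; exact (hw' x j).flat t)
    have hclose' : ∀ t ∈ Icc (0 : ℝ) (2 * l),
        dist ((hw' x j).geod.toCurve t) ((hw' y i).geod.toCurve t) ≤ 18 * κ * r := by
      intro t ht
      have h1 := hclose t ht
      have e1 : (hw' x j).geod.toCurve t = toH (Φ.G t (p 0)).1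
          (mem_D.mp (Φ.mem t _ (hp3 0 ⟨le_rfl, zero_le_one⟩))) := toH_congr _ _ (hfl t).symm
      have e2 : (hw' y i).geod.toCurve t = toH (Φ.G t (p 1)).1
          (mem_D.mp (Φ.mem t _ (hp3 1 ⟨zero_le_one, le_rfl⟩))) := toH_congr _ _ (hfl' t).symm
      rw [e1, e2]
      exact h1
    have hconj : ∀ (x : S) (j : ℕ), ∀ y ∈ Γ, y * (g x j * γ x * (g x j)⁻¹)
        = (g x j * γ x * (g x j)⁻¹) * y → ∃ k : ℤ, y = (g x j * γ x * (g x j)⁻¹) ^ k := by
      intro x j y hy hcomm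
      have h1 : ((g x j)⁻¹ * y * g x j) * γ x = γ x * ((g x j)⁻¹ * y * g x j) := by
        calc ((g x j)⁻¹ * y * g x j) * γ x
            = (g x j)⁻¹ * (y * (g x j * γ x * (g x j)⁻¹)) * g x j := by group
          _ = (g x j)⁻¹ * ((g x j * γ x * (g x j)⁻¹) * y) * g x j := by rw [hcomm]
          _ = γ x * ((g x j)⁻¹ * y * g x j) := by group
      obtain ⟨k, hk⟩ := hprim x _ (Γ.mul_mem (Γ.mul_mem (Γ.inv_mem (hgΓ x j)) hy) (hgΓ x j)) h1
      refine ⟨k, ?_⟩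
      rw [conj_zpow, ← hk]
      group
    have heq := close_eq Φ hF hK hδ
      (Γ.mul_mem (Γ.mul_mem (hgΓ x j) (γ x).2) (Γ.inv_mem (hgΓ x j)))
      (Γ.mul_mem (Γ.mul_mem (hgΓ y i) (γ y).2) (Γ.inv_mem (hgΓ y i)))
      (hconj x j) (hconj y i) (hw' x j) (hw' y i) (hℓ1 x) (hℓ2 x) (hℓ1 y) (hℓ2 y) hclose'
      hs1 hs2 hs3
    -- the classes agree
    have hxy1 : x = y := by
      apply Subtype.ext
      rw [← hmk x, ← hmk y, ConjClasses.mk_eq_mk_iff_isConj, isConj_iff]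
      refine ⟨⟨(g y i)⁻¹ * g x j, Γ.mul_mem (Γ.inv_mem (hgΓ y i)) (hgΓ x j)⟩, ?_⟩
      apply Subtype.ext
      change (g y i)⁻¹ * g x j * γ x * ((g y i)⁻¹ * g x j)⁻¹ = γ y
      calc (g y i)⁻¹ * g x j * γ x * ((g y i)⁻¹ * g x j)⁻¹
          = (g y i)⁻¹ * (g x j * γ x * (g x j)⁻¹) * g y i := by group
        _ = (g y i)⁻¹ * (g y i * γ y * (g y i)⁻¹) * g y i := by rw [heq]
        _ = γ y := by group
    subst hxy1
    -- the sampling times agree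
    have hcomm : ((g x j)⁻¹ * g x i) * γ x = γ x * ((g x j)⁻¹ * g x i) := by
      calc ((g x j)⁻¹ * g x i) * γ x = (g x j)⁻¹ * (g x i * γ x * (g x i)⁻¹) * g x i := by group
        _ = (g x j)⁻¹ * (g x j * γ x * (g x j)⁻¹) * g x i := by rw [heq]
        _ = γ x * ((g x j)⁻¹ * g x i) := by group
    obtain ⟨q, hq⟩ := hprim x _ (Γ.mul_mem (Γ.inv_mem (hgΓ x j)) (hgΓ x i)) hcomm
    have hgi : g x i = g x j * (γ x : SL(2, ℝ)) ^ q := by rw [← hq]; group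
    have hd0 := hclose' 0 ⟨le_rfl, by linarith⟩
    have e1 : (hw' x j).geod.toCurve 0 = g x j • (hax x).geod.toCurve ((j : ℕ) * step) := by
      apply UpperHalfPlane.ext
      rw [← act_coe]
      change act (g x j) (c x (0 + (j : ℕ) * step)) = act (g x j) (c x ((j : ℕ) * step))
      rw [zero_add]
    have e2 : (hw' x i).geod.toCurve 0
        = g x j • (hax x).geod.toCurve ((i : ℕ) * step + q * ℓ x) := by
      apply UpperHalfPlane.ext
      rw [← act_coe]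
      change act (g x i) (c x (0 + (i : ℕ) * step)) = act (g x j) (c x ((i : ℕ) * step + q * ℓ x))
      rw [zero_add, hgi, act_mul _ _ ((hax x).geod.mem _), (hax x).zpow]
    rw [e1, e2, dist_smul] at hd0
    have hmin := (hax x).geod.min_le_dist Φ hF hK ((j : ℕ) * step) ((i : ℕ) * step + q * ℓ x)
      (hd0.trans hs5)
    have hmin2 : |((i : ℕ) * step + q * ℓ x) - (j : ℕ) * step| < step := by
      refine lt_of_le_of_lt hmin (lt_of_le_of_lt ?_ hs4)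
      exact mul_le_mul_of_nonneg_left hd0 (by positivity)
    have hij : (i : ℕ) = (j : ℕ) := index_eq hstep0 hNup i.2 j.2 (hℓ1 x) hmin2
    exact Prod.ext rfl (Fin.ext hij.symm)
  -- counting
  have hfin : Finite (S × Fin N) := Finite.of_injective f hinj
  have hne : Nonempty (Fin N) := ⟨⟨0, hN1⟩⟩
  have hSfin : Finite S := Finite.prod_left (Fin N)
  refine ⟨hSfin, ?_⟩
  have hcard : Nat.card (S × Fin N) ≤ Nat.card L := Nat.card_le_card_of_injective f hinj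
  rw [Nat.card_prod, Nat.card_fin, Nat.card_eq_finsetCard L, Nat.card_coe_set_eq] at hcard
  have hcard' : (S.ncard : ℝ) * N ≤ (L.card : ℝ) := by exact_mod_cast hcard
  have hLcard : (L.card : ℝ) ≤ (P * l) ^ 2 * (Q * l ^ 2) := by
    rw [hL, Finset.card_product, Finset.card_product]
    push_cast
    rw [card_Icc_nat, card_Icc_nat]
    have a1 : (2 * (⌈m / h⌉₊ : ℝ) + 3) ≤ P * l := by
      have h1 : (⌈m / h⌉₊ : ℝ) < m / h + 1 := Nat.ceil_lt_add_one (by positivity)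
      have h2 : m / h = 2 * κ * (2 * m + 1) * m / ε * l := by
        rw [hh, hr]; field_simp
      have h3 : (5 : ℝ) ≤ 5 / ℓ₀ * l := by
        rw [div_mul_eq_mul_div, le_div_iff₀ hℓ₀]
        exact mul_le_mul_of_nonneg_left hl (by norm_num)
      have h4 : P * l = 2 * (2 * κ * (2 * m + 1) * m / ε * l) + 5 / ℓ₀ * l := by rw [hP]; ring
      rw [h4, ← h2]
      linarith
    have a2 : (2 * (⌈4 / h'⌉₊ : ℝ) + 3) ≤ Q * l ^ 2 := by
      have h1 : (⌈4 / h'⌉₊ : ℝ) < 4 / h' + 1 := Nat.ceil_lt_add_one (by positivity)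
      have h2 : 4 / h' = 8 / ε * l ^ 2 := by
        rw [hh', hr]; field_simp; ring
      have h3 : (5 : ℝ) ≤ 5 / ℓ₀ ^ 2 * l ^ 2 := by
        rw [div_mul_eq_mul_div, le_div_iff₀ (by positivity)]
        exact mul_le_mul_of_nonneg_left (pow_le_pow_left₀ hℓ₀.le hl 2) (by norm_num)
      have h4 : Q * l ^ 2 = 2 * (8 / ε * l ^ 2) + 5 / ℓ₀ ^ 2 * l ^ 2 := by rw [hQ]; ring
      rw [h4, ← h2]
      linarith
    calc (2 * (⌈m / h⌉₊ : ℝ) + 3) * ((2 * (⌈m / h⌉₊ : ℝ) + 3) * (2 * (⌈4 / h'⌉₊ : ℝ) + 3))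
        ≤ (P * l) * ((P * l) * (Q * l ^ 2)) := by gcongr
      _ = _ := by ring
  have hfinal : (S.ncard : ℝ) * (l / (4 * step)) ≤ (P * l) ^ 2 * (Q * l ^ 2) :=
    (mul_le_mul_of_nonneg_left hNlow (by positivity)).trans (hcard'.trans hLcard)
  rw [mul_div_assoc', div_le_iff₀ (by positivity)] at hfinal
  have h5 : (S.ncard : ℝ) * l ≤ (P ^ 2 * Q * (436 * κ ^ 2 * ε) * l ^ 2) * l := by
    refine hfinal.trans (le_of_eq ?_)
    calc (P * l) ^ 2 * (Q * l ^ 2) * (4 * step)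
        = P ^ 2 * Q * l ^ 3 * (4 * (step * l)) := by ring
      _ = _ := by rw [hstepl]; ring
  exact le_of_mul_le_mul_right h5 hl0

end Frame

end Knieper
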