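import Pool.Agent.Knieper.SurfDefs

/-!
# Knieper's question (MP_8d04fc_gt): internal definitions (Cartan frames) and sub-statements
-/

noncomputable section

open Complex UpperHalfPlane Matrix
open scoped MatrixGroups ContDiff

namespace Knieper

/-- The statement to be proved (a full answer to Q1). -/
def MainStatement : Prop :=
  ∀ (Γ : Subgroup SL(2, ℝ)), IsSurfaceGroup Γ → ∀ m : Metric, m.Invariant Γ →
    (∀ z : ℂ, 0 < z.im → m.curv z ≤ 0) →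
    ∃ C : ℝ, 0 < C ∧ ∀ T : ℝ, 1 ≤ T →
      (m.flatClasses Γ T).Finite ∧ ((m.flatClasses Γ T).ncard : ℝ) ≤ C * T ^ 2

/-! ## Internal device: Cartan frames -/

/-- The open upper half plane, as a set of complex numbers. -/
def UHP : Set ℂ := {z : ℂ | 0 < z.im}

/-- A Cartan coframe `η` (an isometry of `(T_z, g_z)` with the Euclidean plane `ℂ`), its
connection form `θ` and the curvature `K`, with the two structure equations. -/
structure Frame where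
  η : ℂ → ℂ →L[ℝ] ℂ
  θ : ℂ → ℂ →L[ℝ] ℝ
  K : ℂ → ℝ
  η_smooth : ContDiffOn ℝ ∞ η UHP
  θ_smooth : ContDiffOn ℝ ∞ θ UHP
  K_smooth : ContDiffOn ℝ ∞ K UHP
  inj : ∀ z ∈ UHP, ∀ v, η z v = 0 → v = 0
  /-- first structure equation `dη = - i θ ∧ η` -/
  s1 : ∀ z ∈ UHP, ∀ v w, fderiv ℝ η z v w - fderiv ℝ η z w v
    = -Complex.I * (θ z v * η z w - θ z w * η z v)
  /-- second structure equation -/
  s2 : ∀ z ∈ UHP, ∀ v w, fderiv ℝ θ z v w - fderiv ℝ θ z w v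
    = - (K z * ((starRingEnd ℂ) (η z v) * η z w).im)

namespace Frame

variable (F : Frame)

/-- `c` is a geodesic of the frame, with frame velocity `w` (of constant norm `1`). -/
structure IsGeod (c w : ℝ → ℂ) : Prop where
  mem : ∀ t, c t ∈ UHP
  unit : ∀ t, ‖w t‖ = 1
  c_deriv : ∀ t, HasDerivAt c (deriv c t) t
  w_eq : ∀ t, F.η (c t) (deriv c t) = w t
  w_deriv : ∀ t, HasDerivAt w (-Complex.I * F.θ (c t) (deriv c t) * w t) t

/-- Invariance of a frame under `Γ`: the Möbius transformation `γ` pulls `η` back to `U η`, where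
`U` is a function with values in the unit circle and `dU = - i (γ^*θ - θ) U`. -/
def Invariant (Γ : Subgroup SL(2, ℝ)) : Prop :=
  ∀ γ ∈ Γ, ∃ U : ℂ → ℂ, ∀ z : ℍ,
    ‖U z‖ = 1 ∧ F.K ((γ • z : ℍ) : ℂ) = F.K z ∧
    (∀ v : ℂ, F.η ((γ • z : ℍ) : ℂ) (v / denom γ z ^ 2) = U z * F.η z v) ∧
    DifferentiableAt ℝ U z ∧
    ∀ v : ℂ, fderiv ℝ U z v
      = -Complex.I * (F.θ ((γ • z : ℍ) : ℂ) (v / denom γ z ^ 2) - F.θ z v) * U z

end Frame

/-- JOB: every smooth metric has a Cartan frame. -/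
def FrameStatement : Prop :=
  ∀ (Γ : Subgroup SL(2, ℝ)) (m : Metric), m.Invariant Γ →
    ∃ F : Frame, F.Invariant Γ ∧ (∀ z ∈ UHP, F.K z = m.curv z) ∧
      (∀ z ∈ UHP, ∀ v, ‖F.η z v‖ ^ 2 = m.ip z v v) ∧
      ∀ c : ℝ → ℍ, m.IsGeodesic c → ∃ w : ℝ → ℂ, F.IsGeod (fun t => (c t : ℂ)) w

/-- JOB: `C^{1,1}` flow of a compactly supported `C²` vector field. -/
def FlowStatement : Prop :=
  ∀ (V : Type) [NormedAddCommGroup V] [NormedSpace ℝ V] [FiniteDimensional ℝ V] (X : V → V),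
    ContDiff ℝ 2 X → HasCompactSupport X →
    ∃ (Φ : ℝ → V → V) (A : ℝ → V → V →L[ℝ] V),
      (∀ x, Φ 0 x = x) ∧ (∀ t x, HasDerivAt (fun s => Φ s x) (X (Φ t x)) t) ∧
      (∀ x, A 0 x = ContinuousLinearMap.id ℝ V) ∧
      (∀ t x, HasDerivAt (fun s => A s x) ((fderiv ℝ X (Φ t x)).comp (A t x)) t) ∧
      (∀ t x, HasFDerivAt (Φ t) (A t x) x) ∧
      (∀ T : ℝ, ∃ L : ℝ, 0 ≤ L ∧ ∀ t ∈ Set.Icc (-T) T, ∀ x y,
        ‖Φ t x - Φ t y‖ ≤ L * ‖x - y‖ ∧ ‖A t x - A t y‖ ≤ L * ‖x - y‖)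

/-- JOB: displacement of deck transformations is bounded below. -/
def DisplacementStatement : Prop :=
  ∀ (Γ : Subgroup SL(2, ℝ)), IsSurfaceGroup Γ →
    ∃ δ : ℝ, 0 < δ ∧ ∀ γ ∈ Γ, γ ≠ 1 → ∀ z : ℍ, δ ≤ dist z (γ • z)

/-- JOB: centralizers are infinite cyclic. -/
def CentralizerStatement : Prop :=
  ∀ (Γ : Subgroup SL(2, ℝ)), IsSurfaceGroup Γ → ∀ γ ∈ Γ, γ ≠ 1 →
    ∃ σ ∈ Γ, ∀ x ∈ Γ, (x * γ = γ * x ↔ ∃ k : ℤ, x = σ ^ k)

/-- JOB: a `γ`-invariant curve meets its translate by any `σ` commuting with `γ`. -/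
def IntersectStatement : Prop :=
  ∀ (Γ : Subgroup SL(2, ℝ)), IsSurfaceGroup Γ → ∀ γ ∈ Γ, γ ≠ 1 → ∀ σ ∈ Γ, σ * γ = γ * σ →
    ∀ (c : ℝ → ℍ) (ℓ : ℝ), Continuous c → 0 < ℓ → (∀ t, c (t + ℓ) = γ • c t) →
      ∃ t t' : ℝ, c t = σ • c t'

end Knieper
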