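import Pool.Agent.Knieper.Flow

/-!
# The geodesic vector field of a Cartan frame and its linearisation
-/

noncomputable section

open Set Filter Topology Metric Complex
open scoped NNReal ContDiff

namespace Knieper

theorem isOpen_UHP : IsOpen UHP := isOpen_lt continuous_const Complex.continuous_im

namespace Frame

variable (F : Frame)

theorem isInvertible {z : ℂ} (hz : z ∈ UHP) : (F.η z).IsInvertible := by
  have hinj : Function.Injective (F.η z : ℂ →ₗ[ℝ] ℂ) :=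
    (injective_iff_map_eq_zero _).mpr fun v hv => F.inj z hz v hv
  refine ⟨(LinearEquiv.ofInjectiveEndo (F.η z : ℂ →ₗ[ℝ] ℂ) hinj).toContinuousLinearEquiv, ?_⟩
  ext v
  simp

/-- The inverse of the coframe. -/
def e (z : ℂ) : ℂ →L[ℝ] ℂ := (F.η z).inverse

theorem η_e {z : ℂ} (hz : z ∈ UHP) (w : ℂ) : F.η z (F.e z w) = w :=
  (F.isInvertible hz).self_apply_inverse w

theorem e_η {z : ℂ} (hz : z ∈ UHP) (v : ℂ) : F.e z (F.η z v) = v :=
  (F.isInvertible hz).inverse_apply_self v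

theorem η_contDiffAt {z : ℂ} (hz : z ∈ UHP) : ContDiffAt ℝ ∞ F.η z :=
  F.η_smooth.contDiffAt (isOpen_UHP.mem_nhds hz)

theorem θ_contDiffAt {z : ℂ} (hz : z ∈ UHP) : ContDiffAt ℝ ∞ F.θ z :=
  F.θ_smooth.contDiffAt (isOpen_UHP.mem_nhds hz)

theorem K_contDiffAt {z : ℂ} (hz : z ∈ UHP) : ContDiffAt ℝ ∞ F.K z :=
  F.K_smooth.contDiffAt (isOpen_UHP.mem_nhds hz)

theorem e_contDiffAt {z : ℂ} (hz : z ∈ UHP) : ContDiffAt ℝ ∞ F.e z := by
  have h1 : ContDiffAt ℝ ∞ ContinuousLinearMap.inverse (F.η z) :=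
    (F.isInvertible hz).contDiffAt_map_inverse
  exact h1.comp z (F.η_contDiffAt hz)

/-- The geodesic vector field on `ℂ × ℂ`. -/
def X (p : ℂ × ℂ) : ℂ × ℂ :=
  (F.e p.1 p.2, -Complex.I * F.θ p.1 (F.e p.1 p.2) * p.2)

/-- The domain of the geodesic vector field. -/
def D : Set (ℂ × ℂ) := UHP ×ˢ univ

theorem isOpen_D : IsOpen D := isOpen_UHP.prod isOpen_univ

theorem mem_D {p : ℂ × ℂ} : p ∈ D ↔ p.1 ∈ UHP := by simp [D]

theorem Y_contDiffAt {p : ℂ × ℂ} (hp : p.1 ∈ UHP) :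
    ContDiffAt ℝ ∞ (fun p : ℂ × ℂ => F.e p.1 p.2) p := by
  have h1 : ContDiffAt ℝ ∞ (fun p : ℂ × ℂ => F.e p.1) p :=
    (F.e_contDiffAt hp).comp p contDiffAt_fst
  exact h1.clm_apply contDiffAt_snd

theorem X_contDiffAt {p : ℂ × ℂ} (hp : p.1 ∈ UHP) : ContDiffAt ℝ ∞ F.X p := by
  have h1 := F.Y_contDiffAt hp
  have h2 : ContDiffAt ℝ ∞ (fun p : ℂ × ℂ => F.θ p.1) p :=
    (F.θ_contDiffAt hp).comp p contDiffAt_fst
  have h3 : ContDiffAt ℝ ∞ (fun p : ℂ × ℂ => ((F.θ p.1 (F.e p.1 p.2) : ℝ) : ℂ)) p :=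
    (Complex.ofRealCLM.contDiff.contDiffAt).comp p (h2.clm_apply h1)
  exact h1.prodMk ((contDiffAt_const.mul h3).mul contDiffAt_snd)

theorem X_differentiableAt {p : ℂ × ℂ} (hp : p.1 ∈ UHP) : DifferentiableAt ℝ F.X p :=
  (F.X_contDiffAt hp).differentiableAt (by simp)

/-- Derivative of the inverse frame. -/
theorem η_fderiv_e {z : ℂ} (hz : z ∈ UHP) (ζ w : ℂ) :
    F.η z (fderiv ℝ F.e z ζ w) = - (fderiv ℝ F.η z ζ (F.e z w)) := by
  have h1 : HasFDerivAt F.η (fderiv ℝ F.η z) z :=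
    ((F.η_contDiffAt hz).differentiableAt (by simp)).hasFDerivAt
  have h2 : HasFDerivAt F.e (fderiv ℝ F.e z) z :=
    ((F.e_contDiffAt hz).differentiableAt (by simp)).hasFDerivAt
  have h3 : HasFDerivAt (fun z => F.e z w) ((fderiv ℝ F.e z).flip w) z := by
    have := h2.clm_apply (hasFDerivAt_const w z)
    simpa using this
  have h4 := h1.clm_apply h3
  have h5 : (fun z => F.η z (F.e z w)) =ᶠ[𝓝 z] fun _ => w := by
    filter_upwards [isOpen_UHP.mem_nhds hz] with y hy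
    exact F.η_e hy w
  have h6 : HasFDerivAt (fun z => F.η z (F.e z w)) (0 : ℂ →L[ℝ] ℂ) z :=
    (hasFDerivAt_const w z).congr_of_eventuallyEq h5
  have h7 := h4.unique h6
  have h8 := congrArg (fun L : ℂ →L[ℝ] ℂ => L ζ) h7
  simp only [_root_.add_apply, ContinuousLinearMap.comp_apply,
    ContinuousLinearMap.flip_apply, _root_.zero_apply] at h8
  exact eq_neg_of_add_eq_zero_left h8

/-- The linearisation of the geodesic field. -/
theorem fderiv_X {p : ℂ × ℂ} (hp : p.1 ∈ UHP) (δ : ℂ × ℂ) :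
    F.η p.1 (fderiv ℝ F.X p δ).1 = δ.2 - fderiv ℝ F.η p.1 δ.1 (F.e p.1 p.2) ∧
    (fderiv ℝ F.X p δ).2 =
      -Complex.I * ((fderiv ℝ F.θ p.1 δ.1 (F.e p.1 p.2) + F.θ p.1 (fderiv ℝ F.X p δ).1 : ℝ) : ℂ)
        * p.2 - Complex.I * F.θ p.1 (F.e p.1 p.2) * δ.2 := by
  have he : HasFDerivAt F.e (fderiv ℝ F.e p.1) p.1 :=
    ((F.e_contDiffAt hp).differentiableAt (by simp)).hasFDerivAt
  have hθ : HasFDerivAt F.θ (fderiv ℝ F.θ p.1) p.1 :=
    ((F.θ_contDiffAt hp).differentiableAt (by simp)).hasFDerivAt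
  have he' : HasFDerivAt (fun p : ℂ × ℂ => F.e p.1)
      ((fderiv ℝ F.e p.1).comp (ContinuousLinearMap.fst ℝ ℂ ℂ)) p :=
    he.comp p (hasFDerivAt_fst)
  have hθ' : HasFDerivAt (fun p : ℂ × ℂ => F.θ p.1)
      ((fderiv ℝ F.θ p.1).comp (ContinuousLinearMap.fst ℝ ℂ ℂ)) p :=
    hθ.comp p (hasFDerivAt_fst)
  have hY := he'.clm_apply (hasFDerivAt_snd (𝕜 := ℝ) (p := p))
  have hθY := hθ'.clm_apply hY
  have hθYc : HasFDerivAt (fun p : ℂ × ℂ => ((F.θ p.1 (F.e p.1 p.2) : ℝ) : ℂ)) _ p :=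
    Complex.ofRealCLM.hasFDerivAt.comp p hθY
  have h2 := (hθYc.const_mul (-Complex.I)).mul (hasFDerivAt_snd (𝕜 := ℝ) (p := p))
  have hX : HasFDerivAt F.X _ p := hY.prodMk h2
  have e1 : (fderiv ℝ F.X p δ).1 = fderiv ℝ F.e p.1 δ.1 p.2 + F.e p.1 δ.2 := by
    rw [hX.fderiv]
    simp [add_comm]
  constructor
  · rw [e1, map_add, F.η_fderiv_e hp, F.η_e hp]
    ring
  · rw [e1]
    rw [hX.fderiv]
    simp only [ContinuousLinearMap.prod_apply, _root_.add_apply,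
      _root_.smul_apply, ContinuousLinearMap.comp_apply,
      ContinuousLinearMap.coe_fst', ContinuousLinearMap.coe_snd', ContinuousLinearMap.flip_apply,
      Complex.ofRealCLM_apply, smul_eq_mul, map_add]
    push_cast
    ring

/-- An integral curve of the geodesic field together with a solution of the linearised
equation. -/
structure IsVar (z w ζ ξ : ℝ → ℂ) (t : ℝ) : Prop where
  mem : z t ∈ UHP
  dx : HasDerivAt (fun s => (z s, w s)) (F.X (z t, w t)) t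
  dδ : HasDerivAt (fun s => (ζ s, ξ s)) (fderiv ℝ F.X (z t, w t) (ζ t, ξ t)) t

variable {F}

/-- The variation field `conj w * η(ζ)`. -/
def zh (F : Frame) (z w ζ : ℝ → ℂ) (t : ℝ) : ℂ := (starRingEnd ℂ) (w t) * F.η (z t) (ζ t)

/-- The covariant derivative of the variation field, `conj w * (ξ + i θ(ζ) w)`. -/
def ch (F : Frame) (z w ζ ξ : ℝ → ℂ) (t : ℝ) : ℂ :=
  (starRingEnd ℂ) (w t) * (ξ t + Complex.I * F.θ (z t) (ζ t) * w t)

theorem IsVar.deriv_zh {z w ζ ξ : ℝ → ℂ} {t : ℝ} (h : F.IsVar z w ζ ξ t) :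
    HasDerivAt (F.zh z w ζ) (F.ch z w ζ ξ t) t := by
  obtain ⟨hz, hx, hδ⟩ := h
  have hz' : HasDerivAt z (F.e (z t) (w t)) t := hx.fst
  have hw' : HasDerivAt w (-Complex.I * F.θ (z t) (F.e (z t) (w t)) * w t) t := hx.snd
  have hζ' : HasDerivAt ζ (fderiv ℝ F.X (z t, w t) (ζ t, ξ t)).1 t := hδ.fst
  have hη : HasFDerivAt F.η (fderiv ℝ F.η (z t)) (z t) :=
    ((F.η_contDiffAt hz).differentiableAt (by simp)).hasFDerivAt
  have h1 : HasDerivAt (fun s => F.η (z s)) (fderiv ℝ F.η (z t) (F.e (z t) (w t))) t :=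
    hη.comp_hasDerivAt t hz'
  have h2 := h1.clm_apply hζ'
  have hwc : HasDerivAt (fun s => (starRingEnd ℂ) (w s))
      ((starRingEnd ℂ) (-Complex.I * F.θ (z t) (F.e (z t) (w t)) * w t)) t := by
    exact (Complex.conjCLE : ℂ →L[ℝ] ℂ).hasFDerivAt.comp_hasDerivAt t hw'
  have h3 := hwc.mul h2
  refine h3.congr_deriv ?_
  obtain ⟨f1, -⟩ := F.fderiv_X (p := (z t, w t)) hz (ζ t, ξ t)
  simp only at f1
  rw [f1]
  have s1 := F.s1 (z t) hz (F.e (z t) (w t)) (ζ t)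
  rw [F.η_e hz] at s1
  have s1' : fderiv ℝ F.η (z t) (F.e (z t) (w t)) (ζ t)
      = fderiv ℝ F.η (z t) (ζ t) (F.e (z t) (w t))
        + -Complex.I * (F.θ (z t) (F.e (z t) (w t)) * F.η (z t) (ζ t)
          - F.θ (z t) (ζ t) * w t) := by
    rw [← s1]; ring
  rw [s1']
  simp only [map_mul, map_neg, Complex.conj_I, Complex.conj_ofReal, ch]
  ring

theorem IsVar.deriv_ch {z w ζ ξ : ℝ → ℂ} {t : ℝ} (h : F.IsVar z w ζ ξ t) :
    HasDerivAt (F.ch z w ζ ξ)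
      (-Complex.I * (F.K (z t) * ‖w t‖ ^ 2 * (F.zh z w ζ t).im : ℝ)) t := by
  obtain ⟨hz, hx, hδ⟩ := h
  have hz' : HasDerivAt z (F.e (z t) (w t)) t := hx.fst
  have hw' : HasDerivAt w (-Complex.I * F.θ (z t) (F.e (z t) (w t)) * w t) t := hx.snd
  have hζ' : HasDerivAt ζ (fderiv ℝ F.X (z t, w t) (ζ t, ξ t)).1 t := hδ.fst
  have hξ' : HasDerivAt ξ (fderiv ℝ F.X (z t, w t) (ζ t, ξ t)).2 t := hδ.snd
  have hθ : HasFDerivAt F.θ (fderiv ℝ F.θ (z t)) (z t) :=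
    ((F.θ_contDiffAt hz).differentiableAt (by simp)).hasFDerivAt
  have h1 : HasDerivAt (fun s => F.θ (z s)) (fderiv ℝ F.θ (z t) (F.e (z t) (w t))) t :=
    hθ.comp_hasDerivAt t hz'
  have h2 := h1.clm_apply hζ'
  have h2c : HasDerivAt (fun s => ((F.θ (z s) (ζ s) : ℝ) : ℂ)) _ t :=
    Complex.ofRealCLM.hasFDerivAt.comp_hasDerivAt t h2
  have hwc : HasDerivAt (fun s => (starRingEnd ℂ) (w s))
      ((starRingEnd ℂ) (-Complex.I * F.θ (z t) (F.e (z t) (w t)) * w t)) t := by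
    exact (Complex.conjCLE : ℂ →L[ℝ] ℂ).hasFDerivAt.comp_hasDerivAt t hw'
  have h3 := hwc.mul (hξ'.add ((h2c.const_mul Complex.I).mul hw'))
  refine HasDerivAt.congr_deriv (f := F.ch z w ζ ξ) h3 ?_
  obtain ⟨-, f2⟩ := F.fderiv_X (p := (z t, w t)) hz (ζ t, ξ t)
  simp only at f2
  have s2 := F.s2 (z t) hz (F.e (z t) (w t)) (ζ t)
  rw [F.η_e hz] at s2
  have s2' : fderiv ℝ F.θ (z t) (F.e (z t) (w t)) (ζ t)
      = fderiv ℝ F.θ (z t) (ζ t) (F.e (z t) (w t))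
        - F.K (z t) * (F.zh z w ζ t).im := by
    have : fderiv ℝ F.θ (z t) (F.e (z t) (w t)) (ζ t)
        - fderiv ℝ F.θ (z t) (ζ t) (F.e (z t) (w t))
        = - (F.K (z t) * (F.zh z w ζ t).im) := s2
    linarith
  rw [s2']
  set y := (fderiv ℝ F.X (z t, w t) (ζ t, ξ t)).1 with hy
  set y2 := (fderiv ℝ F.X (z t, w t) (ζ t, ξ t)).2 with hy2
  simp only [map_mul, map_neg, Complex.conj_I, Complex.conj_ofReal, Complex.ofRealCLM_apply,
    Pi.add_apply, Pi.mul_apply]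
  rw [f2]
  have hww : (starRingEnd ℂ) (w t) * w t = ((‖w t‖ ^ 2 : ℝ) : ℂ) := by
    rw [mul_comm, Complex.mul_conj, Complex.normSq_eq_norm_sq]
  push_cast
  have hww' : (starRingEnd ℂ) (w t) * w t = ((‖w t‖ : ℝ) : ℂ) ^ 2 := by
    rw [hww]; push_cast; ring
  linear_combination (-Complex.I * (F.K (z t) : ℂ) * ((F.zh z w ζ t).im : ℂ)) * hww'

end Frame

end Knieper
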