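import Mathlib
import Pool.Agent.Knieper.Defs

noncomputable section

open Complex UpperHalfPlane Matrix
open scoped MatrixGroups ContDiff

namespace Knieper

namespace FrameOf

lemma isOpen_UHP : IsOpen UHP := isOpen_lt continuous_const Complex.continuous_im

variable (m : Metric)

/-- `s = √E`. -/
def s (z : ℂ) : ℝ := √(m.g z 0 0)
/-- `a = F / √E`. -/
def a (z : ℂ) : ℝ := m.g z 0 1 / s m z
/-- `b = W / √E`. -/
def b (z : ℂ) : ℝ := √(m.g z 0 0 * m.g z 1 1 - m.g z 0 1 ^ 2) / s m z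
def p (z : ℂ) : ℝ := (pd 0 (a m) z - pd 1 (s m) z) / b m z
def q (z : ℂ) : ℝ := (pd 0 (b m) z + p m z * a m z) / s m z
def K (z : ℂ) : ℝ := (pd 1 (p m) z - pd 0 (q m) z) / (s m z * b m z)

variable {m}

lemma E_pos {z : ℂ} (hz : z ∈ UHP) : 0 < m.g z 0 0 := by
  have h := (m.posDef z hz).diag_pos (i := 0)
  exact h

lemma symm {z : ℂ} (hz : z ∈ UHP) : m.g z 1 0 = m.g z 0 1 := by
  have h := (m.posDef z hz).isHermitian.apply 0 1
  simpa using h

lemma D_eq {z : ℂ} (hz : z ∈ UHP) :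
    (m.g z).det = m.g z 0 0 * m.g z 1 1 - m.g z 0 1 ^ 2 := by
  rw [Matrix.det_fin_two, symm hz]; ring

lemma D_pos {z : ℂ} (hz : z ∈ UHP) : 0 < m.g z 0 0 * m.g z 1 1 - m.g z 0 1 ^ 2 := by
  rw [← D_eq hz]; exact (m.posDef z hz).det_pos

lemma s_pos {z : ℂ} (hz : z ∈ UHP) : 0 < s m z := Real.sqrt_pos.2 (E_pos hz)

lemma b_pos {z : ℂ} (hz : z ∈ UHP) : 0 < b m z :=
  div_pos (Real.sqrt_pos.2 (D_pos hz)) (s_pos hz)

lemma s_sq {z : ℂ} (hz : z ∈ UHP) : s m z ^ 2 = m.g z 0 0 := Real.sq_sqrt (E_pos hz).le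

lemma s_mul_a {z : ℂ} (hz : z ∈ UHP) : s m z * a m z = m.g z 0 1 := by
  unfold a; field_simp [(s_pos hz).ne']

lemma a_sq_add {z : ℂ} (hz : z ∈ UHP) : a m z ^ 2 + b m z ^ 2 = m.g z 1 1 := by
  unfold a b
  rw [div_pow, div_pow, Real.sq_sqrt (D_pos hz).le, s_sq hz]
  have := (E_pos (m := m) hz).ne'
  field_simp
  ring

lemma g_smooth (i j : Fin 2) : ContDiffOn ℝ ∞ (fun z => m.g z i j) UHP := m.smooth i j

lemma s_smooth : ContDiffOn ℝ ∞ (s m) UHP :=
  (g_smooth 0 0).sqrt (fun _ hz => (E_pos hz).ne')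

lemma a_smooth : ContDiffOn ℝ ∞ (a m) UHP :=
  (g_smooth 0 1).div s_smooth (fun _ hz => (s_pos hz).ne')

lemma b_smooth : ContDiffOn ℝ ∞ (b m) UHP :=
  ((((g_smooth 0 0).mul (g_smooth 1 1)).sub ((g_smooth 0 1).pow 2)).sqrt
    (fun _ hz => (D_pos hz).ne')).div s_smooth (fun _ hz => (s_pos hz).ne')

lemma pd_smooth {f : ℂ → ℝ} (hf : ContDiffOn ℝ ∞ f UHP) (i : Fin 2) :
    ContDiffOn ℝ ∞ (pd i f) UHP := by
  have h : ContDiffOn ℝ ∞ (fderiv ℝ f) UHP := hf.fderiv_of_isOpen isOpen_UHP (by simp)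
  exact h.clm_apply contDiffOn_const

lemma p_smooth : ContDiffOn ℝ ∞ (p m) UHP :=
  ((pd_smooth a_smooth 0).sub (pd_smooth s_smooth 1)).div b_smooth (fun _ hz => (b_pos hz).ne')

lemma q_smooth : ContDiffOn ℝ ∞ (q m) UHP :=
  ((pd_smooth b_smooth 0).add (p_smooth.mul a_smooth)).div s_smooth (fun _ hz => (s_pos hz).ne')

lemma K_smooth : ContDiffOn ℝ ∞ (K m) UHP :=
  ((pd_smooth p_smooth 1).sub (pd_smooth q_smooth 0)).div (s_smooth.mul b_smooth)
    (fun _ hz => (mul_pos (s_pos hz) (b_pos hz)).ne')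

variable (m)

/-- The coframe evaluated on the coordinate fields. -/
def A (i : Fin 2) (z : ℂ) : ℂ := ![(s m z : ℂ), (a m z : ℂ) + (b m z : ℂ) * Complex.I] i

/-- The connection form evaluated on the coordinate fields. -/
def th (i : Fin 2) (z : ℂ) : ℝ := ![p m z, q m z] i

def η (z : ℂ) : ℂ →L[ℝ] ℂ := Complex.reCLM.smulRight (A m 0 z) + Complex.imCLM.smulRight (A m 1 z)

def θ (z : ℂ) : ℂ →L[ℝ] ℝ := th m 0 z • Complex.reCLM + th m 1 z • Complex.imCLM

variable {m}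

lemma η_apply (z v : ℂ) : η m z v = v.re * A m 0 z + v.im * A m 1 z := by
  simp [η]

lemma θ_apply (z v : ℂ) : θ m z v = v.re * th m 0 z + v.im * th m 1 z := by
  simp [θ]; ring

lemma A_smooth (i : Fin 2) : ContDiffOn ℝ ∞ (A m i) UHP := by
  have hs : ContDiffOn ℝ ∞ (fun z => (s m z : ℂ)) UHP := Complex.ofRealCLM.contDiff.comp_contDiffOn s_smooth
  have ha : ContDiffOn ℝ ∞ (fun z => (a m z : ℂ)) UHP := Complex.ofRealCLM.contDiff.comp_contDiffOn a_smooth
  have hb : ContDiffOn ℝ ∞ (fun z => (b m z : ℂ)) UHP := Complex.ofRealCLM.contDiff.comp_contDiffOn b_smooth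
  fin_cases i
  · exact hs
  · exact ha.add (hb.mul contDiffOn_const)

lemma th_smooth (i : Fin 2) : ContDiffOn ℝ ∞ (th m i) UHP := by
  fin_cases i
  · exact p_smooth
  · exact q_smooth

lemma η_smooth : ContDiffOn ℝ ∞ (η m) UHP := by
  unfold η
  exact (contDiffOn_const.smulRight (A_smooth 0)).add (contDiffOn_const.smulRight (A_smooth 1))

lemma θ_smooth : ContDiffOn ℝ ∞ (θ m) UHP := by
  unfold θ
  exact ((th_smooth 0).smul contDiffOn_const).add ((th_smooth 1).smul contDiffOn_const)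

lemma A_diff (i : Fin 2) {z : ℂ} (hz : z ∈ UHP) : DifferentiableAt ℝ (A m i) z :=
  ((A_smooth i).contDiffAt (isOpen_UHP.mem_nhds hz)).differentiableAt (by simp)

lemma th_diff (i : Fin 2) {z : ℂ} (hz : z ∈ UHP) : DifferentiableAt ℝ (th m i) z :=
  ((th_smooth i).contDiffAt (isOpen_UHP.mem_nhds hz)).differentiableAt (by simp)

lemma diff_of {E : Type*} [NormedAddCommGroup E] [NormedSpace ℝ E] {f : ℂ → E}
    (hf : ContDiffOn ℝ ∞ f UHP) {z : ℂ} (hz : z ∈ UHP) : DifferentiableAt ℝ f z :=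
  (hf.contDiffAt (isOpen_UHP.mem_nhds hz)).differentiableAt (by simp)

/-- complex-valued partial derivatives -/
def pc (i : Fin 2) (f : ℂ → ℂ) (z : ℂ) : ℂ := fderiv ℝ f z (bv i)

lemma pc_ofReal (i : Fin 2) {f : ℂ → ℝ} {z : ℂ} (hf : DifferentiableAt ℝ f z) :
    pc i (fun w => (f w : ℂ)) z = (pd i f z : ℂ) := by
  unfold pc pd
  have h := (Complex.ofRealCLM.hasFDerivAt (x := f z)).comp z hf.hasFDerivAt
  have h2 : fderiv ℝ (fun w => (f w : ℂ)) z = Complex.ofRealCLM.comp (fderiv ℝ f z) := h.fderiv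
  rw [h2]; rfl

lemma pc_smooth {f : ℂ → ℂ} (hf : ContDiffOn ℝ ∞ f UHP) (i : Fin 2) :
    ContDiffOn ℝ ∞ (pc i f) UHP := by
  have h : ContDiffOn ℝ ∞ (fderiv ℝ f) UHP := hf.fderiv_of_isOpen isOpen_UHP (by simp)
  exact h.clm_apply contDiffOn_const

lemma pc_add (i : Fin 2) {f g : ℂ → ℂ} {z : ℂ} (hf : DifferentiableAt ℝ f z)
    (hg : DifferentiableAt ℝ g z) : pc i (fun w => f w + g w) z = pc i f z + pc i g z := by
  unfold pc
  rw [fderiv_fun_add hf hg]; rfl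

lemma pc_mul (i : Fin 2) {f g : ℂ → ℂ} {z : ℂ} (hf : DifferentiableAt ℝ f z)
    (hg : DifferentiableAt ℝ g z) :
    pc i (fun w => f w * g w) z = pc i f z * g z + f z * pc i g z := by
  unfold pc
  rw [fderiv_fun_mul hf hg]
  simp
  ring

lemma pc_congr (i : Fin 2) {f g : ℂ → ℂ} (h : ∀ z ∈ UHP, f z = g z) {z : ℂ} (hz : z ∈ UHP) :
    pc i f z = pc i g z := by
  unfold pc
  rw [Filter.EventuallyEq.fderiv_eq (Filter.eventually_of_mem (isOpen_UHP.mem_nhds hz) h)]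

lemma pd_congr (i : Fin 2) {f g : ℂ → ℝ} (h : ∀ z ∈ UHP, f z = g z) {z : ℂ} (hz : z ∈ UHP) :
    pd i f z = pd i g z := by
  unfold pd
  rw [Filter.EventuallyEq.fderiv_eq (Filter.eventually_of_mem (isOpen_UHP.mem_nhds hz) h)]

lemma pc_comm {f : ℂ → ℂ} (hf : ContDiffOn ℝ ∞ f UHP) (i j : Fin 2) {z : ℂ} (hz : z ∈ UHP) :
    pc i (pc j f) z = pc j (pc i f) z := by
  have hd : DifferentiableAt ℝ (fderiv ℝ f) z :=
    diff_of (hf.fderiv_of_isOpen isOpen_UHP (by simp)) hz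
  have key : ∀ k l : Fin 2, pc k (pc l f) z = fderiv ℝ (fderiv ℝ f) z (bv k) (bv l) := by
    intro k l
    have h := hd.hasFDerivAt.clm_apply (hasFDerivAt_const (bv l) z)
    have h2 : fderiv ℝ (pc l f) z = _ := h.fderiv
    unfold pc at *
    rw [h2]
    simp
  rw [key, key]
  have hs : IsSymmSndFDerivAt ℝ f z := by
    apply ContDiffAt.isSymmSndFDerivAt (n := 2)
    · exact (hf.contDiffAt (isOpen_UHP.mem_nhds hz)).of_le (WithTop.coe_le_coe.2 le_top)
    · simp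
  exact hs (bv i) (bv j)


variable (m)

/-- Covariant derivatives of the coordinate fields, read in the frame. -/
def Dc (i j : Fin 2) (z : ℂ) : ℂ := pc i (A m j) z + Complex.I * th m i z * A m j z

variable {m}

lemma th_smooth' (i : Fin 2) : ContDiffOn ℝ ∞ (fun z => (th m i z : ℂ)) UHP :=
  Complex.ofRealCLM.contDiff.comp_contDiffOn (th_smooth i)

lemma Dc_smooth (i j : Fin 2) : ContDiffOn ℝ ∞ (Dc m i j) UHP :=
  (pc_smooth (A_smooth j) i).add ((contDiffOn_const.mul (th_smooth' i)).mul (A_smooth j))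

lemma A_zero (z : ℂ) : A m 0 z = (s m z : ℂ) := rfl
lemma A_one (z : ℂ) : A m 1 z = (a m z : ℂ) + (b m z : ℂ) * Complex.I := rfl

lemma pc_A_zero (i : Fin 2) {z : ℂ} (hz : z ∈ UHP) : pc i (A m 0) z = (pd i (s m) z : ℂ) :=
  pc_ofReal i (diff_of s_smooth hz)

lemma pc_A_one (i : Fin 2) {z : ℂ} (hz : z ∈ UHP) :
    pc i (A m 1) z = (pd i (a m) z : ℂ) + (pd i (b m) z : ℂ) * Complex.I := by
  have ha := diff_of (a_smooth (m := m)) hz
  have hb := diff_of (b_smooth (m := m)) hz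
  have ha' : DifferentiableAt ℝ (fun w => (a m w : ℂ)) z :=
    Complex.ofRealCLM.differentiableAt.comp z ha
  have hb' : DifferentiableAt ℝ (fun w => (b m w : ℂ)) z :=
    Complex.ofRealCLM.differentiableAt.comp z hb
  have h1 : pc i (A m 1) z = pc i (fun w => (a m w : ℂ) + (b m w : ℂ) * Complex.I) z := rfl
  have h2 : pc i (fun _ => Complex.I) z = 0 := by
    unfold pc; simp
  rw [h1, pc_add i ha' (hb'.mul_const _), pc_mul i hb' (differentiableAt_const _),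
    pc_ofReal i ha, pc_ofReal i hb, h2]
  simp

lemma tors01 {z : ℂ} (hz : z ∈ UHP) : Dc m 0 1 z = Dc m 1 0 z := by
  have hb := (b_pos (m := m) hz).ne'
  have hs := (s_pos (m := m) hz).ne'
  have hp : p m z * b m z = pd 0 (a m) z - pd 1 (s m) z := by
    unfold p; field_simp
  have hq : q m z * s m z = pd 0 (b m) z + p m z * a m z := by
    unfold q; field_simp
  unfold Dc
  rw [pc_A_one 0 hz, pc_A_zero 1 hz, A_one, A_zero]
  apply Complex.ext
  · simp [th]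
    linarith
  · simp [th]
    linarith

lemma tors {z : ℂ} (hz : z ∈ UHP) (i j : Fin 2) : Dc m i j z = Dc m j i z := by
  fin_cases i <;> fin_cases j
  · rfl
  · exact tors01 hz
  · exact (tors01 hz).symm
  · rfl

lemma g_eq {z : ℂ} (hz : z ∈ UHP) (i j : Fin 2) :
    m.g z i j = ((starRingEnd ℂ) (A m i z) * A m j z).re := by
  fin_cases i <;> fin_cases j
  · simp [A_zero, ← s_sq hz]; ring
  · simp [A_zero, A_one, s_mul_a hz]
  · simp [A_zero, A_one, ← s_mul_a hz, symm hz]; ring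
  · simp [A_one, ← a_sq_add hz]; ring

lemma pd_re (i : Fin 2) {f : ℂ → ℂ} {z : ℂ} (hf : DifferentiableAt ℝ f z) :
    pd i (fun w => (f w).re) z = (pc i f z).re := by
  unfold pc pd
  have h := (Complex.reCLM.hasFDerivAt (x := f z)).comp z hf.hasFDerivAt
  have h2 : fderiv ℝ (fun w => (f w).re) z = Complex.reCLM.comp (fderiv ℝ f z) := h.fderiv
  rw [h2]; rfl

lemma conj_diff {f : ℂ → ℂ} {z : ℂ} (hf : DifferentiableAt ℝ f z) :
    DifferentiableAt ℝ (fun w => (starRingEnd ℂ) (f w)) z :=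
  Complex.conjCLE.differentiableAt.comp z hf

lemma pc_conj (i : Fin 2) {f : ℂ → ℂ} {z : ℂ} (hf : DifferentiableAt ℝ f z) :
    pc i (fun w => (starRingEnd ℂ) (f w)) z = (starRingEnd ℂ) (pc i f z) := by
  unfold pc
  have h := (Complex.conjCLE.toContinuousLinearMap.hasFDerivAt (x := f z)).comp z hf.hasFDerivAt
  have h2 : fderiv ℝ (fun w => (starRingEnd ℂ) (f w)) z
    = Complex.conjCLE.toContinuousLinearMap.comp (fderiv ℝ f z) := h.fderiv
  rw [h2]; rfl

lemma pd_g {z : ℂ} (hz : z ∈ UHP) (l i j : Fin 2) :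
    pd l (fun w => m.g w i j) z = ((starRingEnd ℂ) (Dc m l i z) * A m j z
      + (starRingEnd ℂ) (A m i z) * Dc m l j z).re := by
  rw [pd_congr l (fun w hw => g_eq hw i j) hz]
  rw [pd_re l (f := fun w => (starRingEnd ℂ) (A m i w) * A m j w)
      ((conj_diff (A_diff i hz)).mul (A_diff j hz)),
    pc_mul l (conj_diff (A_diff i hz)) (A_diff j hz), pc_conj l (A_diff i hz)]
  unfold Dc
  simp
  ring

lemma aux1 (l : Fin 2) (T : Fin 2 → ℝ) :
    T l = (1 : Matrix (Fin 2) (Fin 2) ℝ) l 0 * T 0 + (1 : Matrix (Fin 2) (Fin 2) ℝ) l 1 * T 1 := by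
  revert l
  rw [Fin.forall_fin_two]
  simp

lemma chr_eq {z : ℂ} (hz : z ∈ UHP) (i j : Fin 2) :
    (m.chr 0 i j z : ℂ) * A m 0 z + (m.chr 1 i j z : ℂ) * A m 1 z = Dc m i j z := by
  set X := (m.chr 0 i j z : ℂ) * A m 0 z + (m.chr 1 i j z : ℂ) * A m 1 z with hX
  have hdet : IsUnit (m.g z).det := (m.posDef z hz).det_pos.ne'.isUnit
  have hinv : m.g z * (m.g z)⁻¹ = 1 := Matrix.mul_nonsing_inv _ hdet
  have key : ∀ l : Fin 2, ((starRingEnd ℂ) (A m l z) * X).re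
      = ((starRingEnd ℂ) (A m l z) * Dc m i j z).re := by
    intro l
    have h1 : ((starRingEnd ℂ) (A m l z) * X).re
        = m.g z l 0 * m.chr 0 i j z + m.g z l 1 * m.chr 1 i j z := by
      rw [hX, g_eq hz, g_eq hz]
      simp
      ring
    have h2 : m.g z l 0 * m.chr 0 i j z + m.g z l 1 * m.chr 1 i j z = 1 / 2 *
      (pd i (fun w => m.g w j l) z + pd j (fun w => m.g w i l) z - pd l (fun w => m.g w i j) z) := by
      have e0 : m.g z l 0 * (m.g z)⁻¹ 0 0 + m.g z l 1 * (m.g z)⁻¹ 1 0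
          = (1 : Matrix (Fin 2) (Fin 2) ℝ) l 0 := by
        rw [← hinv, Matrix.mul_apply, Fin.sum_univ_two]
      have e1 : m.g z l 0 * (m.g z)⁻¹ 0 1 + m.g z l 1 * (m.g z)⁻¹ 1 1
          = (1 : Matrix (Fin 2) (Fin 2) ℝ) l 1 := by
        rw [← hinv, Matrix.mul_apply, Fin.sum_univ_two]
      unfold Metric.chr
      simp only [Fin.sum_univ_two]
      have hl := aux1 l (fun l => pd i (fun w => m.g w j l) z + pd j (fun w => m.g w i l) z
          - pd l (fun w => m.g w i j) z)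
      beta_reduce at hl
      rw [hl, ← e0, ← e1]
      ring
    rw [h1, h2, pd_g hz, pd_g hz, pd_g hz, tors hz l i, tors hz l j, tors hz j i]
    simp
    ring
  have k0 := key 0
  have k1 := key 1
  rw [A_zero] at k0
  rw [A_one] at k1
  have hs := (s_pos (m := m) hz)
  have hb := (b_pos (m := m) hz)
  have hre : X.re = (Dc m i j z).re := by
    have : s m z * X.re = s m z * (Dc m i j z).re := by simpa using k0
    exact mul_left_cancel₀ hs.ne' this
  have him : X.im = (Dc m i j z).im := by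
    have h3 : a m z * X.re + b m z * X.im = a m z * (Dc m i j z).re + b m z * (Dc m i j z).im := by
      simpa using k1
    rw [hre] at h3
    exact mul_left_cancel₀ hb.ne' (add_left_cancel h3)
  exact Complex.ext hre him


lemma chr_one {z : ℂ} (hz : z ∈ UHP) (i j : Fin 2) : m.chr 1 i j z = (Dc m i j z).im / b m z := by
  rw [← chr_eq hz, A_zero, A_one]
  have hb := (b_pos (m := m) hz).ne'
  simp
  field_simp

lemma chr_zero {z : ℂ} (hz : z ∈ UHP) (i j : Fin 2) :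
    m.chr 0 i j z = ((Dc m i j z).re - a m z * ((Dc m i j z).im / b m z)) / s m z := by
  rw [← chr_one hz, ← chr_eq hz, A_zero, A_one]
  have hs := (s_pos (m := m) hz).ne'
  simp
  field_simp
  ring

lemma re_smooth {f : ℂ → ℂ} (hf : ContDiffOn ℝ ∞ f UHP) : ContDiffOn ℝ ∞ (fun z => (f z).re) UHP :=
  Complex.reCLM.contDiff.comp_contDiffOn hf

lemma im_smooth {f : ℂ → ℂ} (hf : ContDiffOn ℝ ∞ f UHP) : ContDiffOn ℝ ∞ (fun z => (f z).im) UHP :=
  Complex.imCLM.contDiff.comp_contDiffOn hf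

lemma chr_smooth (k i j : Fin 2) : ContDiffOn ℝ ∞ (m.chr k i j) UHP := by
  have h1 : ContDiffOn ℝ ∞ (fun z => (Dc m i j z).im / b m z) UHP :=
    (im_smooth (Dc_smooth i j)).div b_smooth (fun _ hz => (b_pos hz).ne')
  have h0 : ContDiffOn ℝ ∞ (fun z => ((Dc m i j z).re - a m z * ((Dc m i j z).im / b m z)) / s m z)
      UHP :=
    ((re_smooth (Dc_smooth i j)).sub (a_smooth.mul h1)).div s_smooth (fun _ hz => (s_pos hz).ne')
  revert k
  rw [Fin.forall_fin_two]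
  exact ⟨h0.congr (fun z hz => chr_zero hz i j), h1.congr (fun z hz => chr_one hz i j)⟩

lemma pc_Dc {z : ℂ} (hz : z ∈ UHP) (l i j : Fin 2) :
    pc l (Dc m i j) z = pc l (pc i (A m j)) z + Complex.I * (pd l (th m i) z * A m j z
      + th m i z * pc l (A m j) z) := by
  have h0 : pc l (fun _ => Complex.I) z = 0 := by
    unfold pc; simp
  have hth : DifferentiableAt ℝ (fun w => (th m i w : ℂ)) z := diff_of (th_smooth' i) hz
  have hA := A_diff (m := m) j hz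
  have h1 : pc l (Dc m i j) z = pc l (fun w => pc i (A m j) w + Complex.I * th m i w * A m j w) z :=
    rfl
  rw [h1, pc_add l (f := pc i (A m j)) (g := fun w => Complex.I * (th m i w : ℂ) * A m j w)
      (diff_of (pc_smooth (A_smooth j) i) hz)
      (((differentiableAt_const _).mul hth).mul hA),
    pc_mul l (f := fun w => Complex.I * (th m i w : ℂ)) (g := A m j)
      ((differentiableAt_const _).mul hth) hA,
    pc_mul l (f := fun _ => Complex.I) (g := fun w => (th m i w : ℂ)) (differentiableAt_const _) hth,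
    pc_ofReal l (th_diff i hz), h0]
  ring

lemma pc_chr {z : ℂ} (hz : z ∈ UHP) (l i j : Fin 2) :
    pc l (Dc m i j) z = (pd l (m.chr 0 i j) z : ℂ) * A m 0 z + m.chr 0 i j z * pc l (A m 0) z
      + ((pd l (m.chr 1 i j) z : ℂ) * A m 1 z + m.chr 1 i j z * pc l (A m 1) z) := by
  have h0 := diff_of (chr_smooth (m := m) 0 i j) hz
  have h1 := diff_of (chr_smooth (m := m) 1 i j) hz
  have h0' : DifferentiableAt ℝ (fun w => (m.chr 0 i j w : ℂ)) z :=
    Complex.ofRealCLM.differentiableAt.comp z h0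
  have h1' : DifferentiableAt ℝ (fun w => (m.chr 1 i j w : ℂ)) z :=
    Complex.ofRealCLM.differentiableAt.comp z h1
  rw [← pc_congr l (fun w hw => chr_eq (m := m) hw i j) hz,
    pc_add l (f := fun w => (m.chr 0 i j w : ℂ) * A m 0 w)
      (g := fun w => (m.chr 1 i j w : ℂ) * A m 1 w) (h0'.mul (A_diff 0 hz)) (h1'.mul (A_diff 1 hz)),
    pc_mul l h0' (A_diff 0 hz), pc_mul l h1' (A_diff 1 hz), pc_ofReal l h0, pc_ofReal l h1]

lemma curv_eq {z : ℂ} (hz : z ∈ UHP) : m.curv z = K m z := by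
  have hs := (s_pos (m := m) hz).ne'
  have hb := (b_pos (m := m) hz).ne'
  have e1 := pc_chr (m := m) hz 0 1 1
  have e2 := pc_chr (m := m) hz 1 0 1
  have e3 := pc_Dc (m := m) hz 0 1 1
  have e4 := pc_Dc (m := m) hz 1 0 1
  have c00 := chr_eq (m := m) hz 0 0
  have c01 := chr_eq (m := m) hz 0 1
  have c10 := chr_eq (m := m) hz 1 0
  have c11 := chr_eq (m := m) hz 1 1
  have hc := pc_comm (A_smooth (m := m) 1) 0 1 hz
  unfold Dc at c00 c01 c10 c11
  -- the curvature operator applied to `∂₁`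
  set R0 : ℝ := pd 0 (m.chr 0 1 1) z - pd 1 (m.chr 0 0 1) z
    + (m.chr 0 1 1 z * m.chr 0 0 0 z - m.chr 0 0 1 z * m.chr 0 1 0 z
      + (m.chr 1 1 1 z * m.chr 0 0 1 z - m.chr 1 0 1 z * m.chr 0 1 1 z)) with hR0
  set R1 : ℝ := pd 0 (m.chr 1 1 1) z - pd 1 (m.chr 1 0 1) z
    + (m.chr 0 1 1 z * m.chr 1 0 0 z - m.chr 0 0 1 z * m.chr 1 1 0 z
      + (m.chr 1 1 1 z * m.chr 1 0 1 z - m.chr 1 0 1 z * m.chr 1 1 1 z)) with hR1
  have hR : (R0 : ℂ) * A m 0 z + R1 * A m 1 z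
      = Complex.I * (pd 0 (th m 1) z - pd 1 (th m 0) z) * A m 1 z := by
    rw [hR0, hR1]
    push_cast
    linear_combination (-1 : ℂ) * e1 + e2 + (m.chr 0 1 1 z : ℂ) * c00 + (m.chr 1 1 1 z : ℂ) * c01
      - (m.chr 0 0 1 z : ℂ) * c10 - (m.chr 1 0 1 z : ℂ) * c11
      + Complex.I * (th m 0 z : ℂ) * c11 - Complex.I * (th m 1 z : ℂ) * c01 + e3 - e4 + hc
  have hdet : (m.g z).det = (s m z * b m z) ^ 2 := by
    rw [D_eq hz, ← s_sq hz, ← s_mul_a hz, ← a_sq_add hz]; ring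
  have hnum : m.g z 0 0 * R0 + m.g z 1 0 * R1
      = ((starRingEnd ℂ) (A m 0 z) * ((R0 : ℂ) * A m 0 z + R1 * A m 1 z)).re := by
    rw [symm hz, g_eq hz, g_eq hz]
    simp
    ring
  have hnum2 : m.g z 0 0 * R0 + m.g z 1 0 * R1
      = s m z * b m z * (pd 1 (th m 0) z - pd 0 (th m 1) z) := by
    rw [hnum, hR, A_zero, A_one]
    simp
    ring
  have hcurv : m.curv z = (m.g z 0 0 * R0 + m.g z 1 0 * R1) / (m.g z).det := by
    unfold Metric.curv
    simp only [Fin.sum_univ_two]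
    rfl
  rw [hcurv, hnum2, hdet]
  have h0 : pd 1 (th m 0) z = pd 1 (p m) z := rfl
  have h1 : pd 0 (th m 1) z = pd 0 (q m) z := rfl
  rw [h0, h1]
  unfold K
  field_simp


lemma lin (L : ℂ →L[ℝ] ℂ) (v : ℂ) : L v = v.re * L (bv 0) + v.im * L (bv 1) := by
  have hv : v = v.re • (1 : ℂ) + v.im • Complex.I := by
    simp [Complex.re_add_im]
  conv_lhs => rw [hv, map_add, map_smul, map_smul]
  simp [bv]

lemma linR (L : ℂ →L[ℝ] ℝ) (v : ℂ) : L v = v.re * L (bv 0) + v.im * L (bv 1) := by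
  have hv : v = v.re • (1 : ℂ) + v.im • Complex.I := by
    simp [Complex.re_add_im]
  conv_lhs => rw [hv, map_add, map_smul, map_smul]
  simp [bv]

lemma fderiv_apply {E F : Type*} [NormedAddCommGroup E] [NormedSpace ℝ E]
    [NormedAddCommGroup F] [NormedSpace ℝ F] {f : ℂ → E →L[ℝ] F} {z : ℂ}
    (hf : DifferentiableAt ℝ f z) (v : ℂ) (w : E) :
    fderiv ℝ (fun z => f z w) z v = fderiv ℝ f z v w := by
  have h := hf.hasFDerivAt.clm_apply (hasFDerivAt_const w z)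
  rw [h.fderiv]
  simp

lemma fderiv_η {z : ℂ} (hz : z ∈ UHP) (v w : ℂ) : fderiv ℝ (η m) z v w
    = w.re * (v.re * pc 0 (A m 0) z + v.im * pc 1 (A m 0) z)
      + w.im * (v.re * pc 0 (A m 1) z + v.im * pc 1 (A m 1) z) := by
  rw [← fderiv_apply (diff_of η_smooth hz)]
  have h0 := A_diff (m := m) 0 hz
  have h1 := A_diff (m := m) 1 hz
  have he : (fun z => η m z w) = fun z => w.re * A m 0 z + w.im * A m 1 z := by
    funext z; exact η_apply z w
  rw [he, fderiv_fun_add (h0.const_mul _) (h1.const_mul _), fderiv_const_mul h0, fderiv_const_mul h1]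
  simp only [_root_.add_apply, _root_.smul_apply, smul_eq_mul]
  rw [lin (fderiv ℝ (A m 0) z) v, lin (fderiv ℝ (A m 1) z) v]
  rfl

lemma fderiv_θ {z : ℂ} (hz : z ∈ UHP) (v w : ℂ) : fderiv ℝ (θ m) z v w
    = w.re * (v.re * pd 0 (th m 0) z + v.im * pd 1 (th m 0) z)
      + w.im * (v.re * pd 0 (th m 1) z + v.im * pd 1 (th m 1) z) := by
  rw [← fderiv_apply (diff_of θ_smooth hz)]
  have h0 := th_diff (m := m) 0 hz
  have h1 := th_diff (m := m) 1 hz
  have he : (fun z => θ m z w) = fun z => w.re * th m 0 z + w.im * th m 1 z := by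
    funext z; exact θ_apply z w
  rw [he, fderiv_fun_add (h0.const_mul _) (h1.const_mul _), fderiv_const_mul h0, fderiv_const_mul h1]
  simp only [_root_.add_apply, _root_.smul_apply, smul_eq_mul]
  rw [linR (fderiv ℝ (th m 0) z) v, linR (fderiv ℝ (th m 1) z) v]
  rfl

lemma s1 {z : ℂ} (hz : z ∈ UHP) (v w : ℂ) : fderiv ℝ (η m) z v w - fderiv ℝ (η m) z w v
    = -Complex.I * (θ m z v * η m z w - θ m z w * η m z v) := by
  rw [fderiv_η hz, fderiv_η hz, η_apply, η_apply, θ_apply, θ_apply]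
  have h := tors01 (m := m) hz
  unfold Dc at h
  push_cast
  linear_combination ((v.re : ℂ) * w.im - v.im * w.re) * h

lemma area {z : ℂ} (v w : ℂ) :
    ((starRingEnd ℂ) (η m z v) * η m z w).im = s m z * b m z * ((starRingEnd ℂ) v * w).im := by
  rw [η_apply, η_apply, A_zero, A_one]
  simp
  ring

lemma s2 {z : ℂ} (hz : z ∈ UHP) (v w : ℂ) : fderiv ℝ (θ m) z v w - fderiv ℝ (θ m) z w v
    = -(K m z * ((starRingEnd ℂ) (η m z v) * η m z w).im) := by
  rw [fderiv_θ hz, fderiv_θ hz, area]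
  have hs := (s_pos (m := m) hz).ne'
  have hb := (b_pos (m := m) hz).ne'
  have h0 : pd 1 (th m 0) z = pd 1 (p m) z := rfl
  have h1 : pd 0 (th m 1) z = pd 0 (q m) z := rfl
  unfold K
  rw [h0, h1]
  simp
  field_simp
  ring

lemma norm_sq {z : ℂ} (hz : z ∈ UHP) (v : ℂ) : ‖η m z v‖ ^ 2 = m.ip z v v := by
  rw [← Complex.normSq_eq_norm_sq, Complex.normSq_apply, η_apply, A_zero, A_one]
  unfold Metric.ip co
  simp only [Fin.sum_univ_two]
  simp
  rw [symm hz, ← s_sq hz, ← s_mul_a hz, ← a_sq_add hz]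
  ring

lemma ip_eq {z : ℂ} (hz : z ∈ UHP) (v w : ℂ) :
    m.ip z v w = ((starRingEnd ℂ) (η m z v) * η m z w).re := by
  rw [η_apply, η_apply, A_zero, A_one]
  unfold Metric.ip co
  simp only [Fin.sum_univ_two]
  simp
  rw [symm hz, ← s_sq hz, ← s_mul_a hz, ← a_sq_add hz]
  ring

lemma inj {z : ℂ} (hz : z ∈ UHP) (v : ℂ) (h : η m z v = 0) : v = 0 := by
  have hs := (s_pos (m := m) hz).ne'
  have hb := (b_pos (m := m) hz).ne'
  rw [η_apply, A_zero, A_one] at h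
  have h1 := congrArg Complex.im h
  have h0 := congrArg Complex.re h
  simp [hb] at h0 h1
  rw [h1] at h0
  simp [hs] at h0
  exact Complex.ext h0 h1

variable (m)

/-- The Cartan frame. -/
def frame : Frame where
  η := η m
  θ := θ m
  K := K m
  η_smooth := η_smooth
  θ_smooth := θ_smooth
  K_smooth := K_smooth
  inj := fun _ hz v h => inj hz v h
  s1 := fun _ hz v w => s1 hz v w
  s2 := fun _ hz v w => s2 hz v w

variable {m}


lemma geod {c : ℝ → ℍ} (hc : m.IsGeodesic c) :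
    (frame m).IsGeod (fun t => (c t : ℂ))
      (fun t => η m (c t) (deriv (fun s => (c s : ℂ)) t)) := by
  have hmem : ∀ t, (c t : ℂ) ∈ UHP := fun t => (c t).im_pos
  have hd1 : Differentiable ℝ (fun s => (c s : ℂ)) := hc.smooth.differentiable (by simp)
  have hd2 : Differentiable ℝ (deriv (fun s => (c s : ℂ))) := by
    have h : ContDiff ℝ 1 (deriv (fun s => (c s : ℂ))) := by
      have := hc.smooth
      rw [show (2 : WithTop ℕ∞) = 1 + 1 by norm_num] at this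
      exact (contDiff_succ_iff_deriv.1 this).2.2
    exact h.differentiable (by simp)
  refine ⟨hmem, ?_, fun t => (hd1 t).hasDerivAt, fun t => rfl, ?_⟩
  · intro t
    have h := norm_sq (m := m) (hmem t) (deriv (fun s => (c s : ℂ)) t)
    rw [hc.unit t] at h
    have h0 := norm_nonneg (η m (c t) (deriv (fun s => (c s : ℂ)) t))
    nlinarith
  · intro t
    set v := deriv (fun s => (c s : ℂ)) t with hv
    have h1 : HasDerivAt (fun t => η m (c t)) (fderiv ℝ (η m) (c t) v) t :=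
      HasFDerivAt.comp_hasDerivAt (f := fun s => (c s : ℂ)) t
        (diff_of (η_smooth (m := m)) (hmem t)).hasFDerivAt (hd1 t).hasDerivAt
    have h2 := h1.clm_apply (hd2 t).hasDerivAt
    refine h2.congr_deriv ?_
    have e0 := hc.eqn t 0
    have e1 := hc.eqn t 1
    simp only [Fin.sum_univ_two, co, Matrix.cons_val_zero, Matrix.cons_val_one] at e0 e1
    rw [← hv] at e0 e1 ⊢
    change _ = -Complex.I * (θ m (c t) v : ℂ) * η m (c t) v
    rw [fderiv_η (hmem t), η_apply, η_apply, θ_apply]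
    have c00 := chr_eq (m := m) (hmem t) 0 0
    have c01 := chr_eq (m := m) (hmem t) 0 1
    have c10 := chr_eq (m := m) (hmem t) 1 0
    have c11 := chr_eq (m := m) (hmem t) 1 1
    unfold Dc at c00 c01 c10 c11
    have f0 := congrArg (fun x : ℝ => (x : ℂ)) e0
    have f1 := congrArg (fun x : ℝ => (x : ℂ)) e1
    push_cast at f0 f1 ⊢
    linear_combination A m 0 (c t) * f0 + A m 1 (c t) * f1 - (v.re : ℂ) ^ 2 * c00
      - (v.re : ℂ) * v.im * c01 - (v.re : ℂ) * v.im * c10 - (v.im : ℂ) ^ 2 * c11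

/-! ### Invariance -/

/-- The Möbius map of `γ`. -/
def N (γ : SL(2, ℝ)) (z : ℂ) : ℂ := ((γ 0 0 : ℝ) * z + (γ 0 1 : ℝ)) / ((γ 1 0 : ℝ) * z + (γ 1 1 : ℝ))

/-- The derivative of the Möbius map of `γ`. -/
def μ (γ : SL(2, ℝ)) (z : ℂ) : ℂ := (((γ 1 0 : ℝ) * z + (γ 1 1 : ℝ)) ^ 2)⁻¹

lemma den_ne (γ : SL(2, ℝ)) {z : ℂ} (hz : z ∈ UHP) : ((γ 1 0 : ℝ) * z + (γ 1 1 : ℝ) : ℂ) ≠ 0 :=
  denom_ne_zero (γ : GL (Fin 2) ℝ) ⟨z, hz⟩

lemma N_coe (γ : SL(2, ℝ)) (z : ℍ) : N γ z = ((γ • z : ℍ) : ℂ) := by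
  rw [coe_specialLinearGroup_apply]; rfl

lemma N_mem (γ : SL(2, ℝ)) {z : ℂ} (hz : z ∈ UHP) : N γ z ∈ UHP := by
  have h := N_coe γ ⟨z, hz⟩
  change N γ z = _ at h
  rw [h]
  exact (γ • (⟨z, hz⟩ : ℍ)).im_pos

lemma μ_coe (γ : SL(2, ℝ)) (z : ℍ) (v : ℂ) : v / denom γ z ^ 2 = μ γ z * v := by
  rw [div_eq_mul_inv, mul_comm]; rfl

lemma N_hasDeriv (γ : SL(2, ℝ)) {z : ℂ} (hz : z ∈ UHP) : HasDerivAt (N γ) (μ γ z) z := by
  have hne := den_ne γ hz
  have h1 : HasDerivAt (fun z : ℂ => ((γ 0 0 : ℝ) : ℂ) * z + (γ 0 1 : ℝ)) ((γ 0 0 : ℝ) : ℂ) z := by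
    simpa using ((hasDerivAt_id z).const_mul ((γ 0 0 : ℝ) : ℂ)).add_const ((γ 0 1 : ℝ) : ℂ)
  have h2 : HasDerivAt (fun z : ℂ => ((γ 1 0 : ℝ) : ℂ) * z + (γ 1 1 : ℝ)) ((γ 1 0 : ℝ) : ℂ) z := by
    simpa using ((hasDerivAt_id z).const_mul ((γ 1 0 : ℝ) : ℂ)).add_const ((γ 1 1 : ℝ) : ℂ)
  refine (h1.div h2 hne).congr_deriv ?_
  have hdet := γ.det_coe
  rw [Matrix.det_fin_two] at hdet
  have hdet' : ((γ 0 0 : ℝ) : ℂ) * (γ 1 1 : ℝ) - (γ 0 1 : ℝ) * (γ 1 0 : ℝ) = 1 := by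
    exact_mod_cast hdet
  have hnum : ((γ 0 0 : ℝ) : ℂ) * (((γ 1 0 : ℝ) : ℂ) * z + (γ 1 1 : ℝ))
      - (((γ 0 0 : ℝ) : ℂ) * z + (γ 0 1 : ℝ)) * ((γ 1 0 : ℝ) : ℂ) = 1 := by
    linear_combination hdet'
  rw [hnum, one_div]
  rfl

lemma N_smooth (γ : SL(2, ℝ)) : ContDiffOn ℝ ∞ (N γ) UHP := by
  have h1 : ContDiffOn ℝ ∞ (fun z : ℂ => ((γ 0 0 : ℝ) : ℂ) * z + (γ 0 1 : ℝ)) UHP :=
    (contDiffOn_const.mul contDiffOn_id).add contDiffOn_const
  have h2 : ContDiffOn ℝ ∞ (fun z : ℂ => (((γ 1 0 : ℝ) : ℂ) * z + (γ 1 1 : ℝ))⁻¹) UHP :=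
    ((contDiffOn_const.mul contDiffOn_id).add contDiffOn_const).inv (fun z hz => den_ne γ hz)
  refine (h1.mul h2).congr (fun z _ => ?_)
  unfold N
  rw [div_eq_mul_inv]

lemma μ_smooth (γ : SL(2, ℝ)) : ContDiffOn ℝ ∞ (μ γ) UHP := by
  unfold μ
  exact (((contDiffOn_const.mul contDiffOn_id).add contDiffOn_const).pow 2).inv
    (fun z hz => pow_ne_zero 2 (den_ne γ hz))

lemma μ_ne (γ : SL(2, ℝ)) {z : ℂ} (hz : z ∈ UHP) : μ γ z ≠ 0 :=
  inv_ne_zero (pow_ne_zero 2 (den_ne γ hz))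

lemma μ_hasDeriv (γ : SL(2, ℝ)) {z : ℂ} (hz : z ∈ UHP) : HasDerivAt (μ γ) (deriv (μ γ) z) z := by
  have hne := pow_ne_zero 2 (den_ne γ hz)
  have h2 : HasDerivAt (fun z : ℂ => (((γ 1 0 : ℝ) : ℂ) * z + (γ 1 1 : ℝ)) ^ 2) _ z :=
    (((hasDerivAt_id z).const_mul ((γ 1 0 : ℝ) : ℂ)).add_const ((γ 1 1 : ℝ) : ℂ)).pow 2
  exact (h2.inv hne).differentiableAt.hasDerivAt

lemma N_hasFDeriv (γ : SL(2, ℝ)) {z : ℂ} (hz : z ∈ UHP) :
    HasFDerivAt (N γ) (μ γ z • (1 : ℂ →L[ℝ] ℂ)) z :=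
  (N_hasDeriv γ hz).complexToReal_fderiv

lemma pull {E : Type*} [NormedAddCommGroup E] [NormedSpace ℝ E] {T : ℂ → ℂ →L[ℝ] E}
    (hT : ContDiffOn ℝ ∞ T UHP) (γ : SL(2, ℝ)) {z : ℂ} (hz : z ∈ UHP) (v w : ℂ) :
    fderiv ℝ (fun z => T (N γ z) (μ γ z * w)) z v
      = fderiv ℝ T (N γ z) (μ γ z * v) (μ γ z * w) + T (N γ z) (deriv (μ γ) z * v * w) := by
  have h1 := (diff_of hT (N_mem γ hz)).hasFDerivAt.comp z (N_hasFDeriv γ hz)
  have h2 : HasFDerivAt (fun z => μ γ z * w) (w • (deriv (μ γ) z • (1 : ℂ →L[ℝ] ℂ))) z :=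
    (μ_hasDeriv γ hz).complexToReal_fderiv.mul_const w
  have h3 := (h1.clm_apply h2).fderiv
  have h4 : fderiv ℝ (fun z => T (N γ z) (μ γ z * w)) z = _ := h3
  rw [h4]
  simp
  rw [add_comm]
  congr 2
  ring


lemma ip_inv {Γ : Subgroup SL(2, ℝ)} (hinv : m.Invariant Γ) {γ : SL(2, ℝ)} (hγ : γ ∈ Γ)
    {z : ℂ} (hz : z ∈ UHP) (v w : ℂ) :
    m.ip (N γ z) (μ γ z * v) (μ γ z * w) = m.ip z v w := by
  have h := hinv γ hγ ⟨z, hz⟩ v w
  rw [μ_coe, μ_coe, ← N_coe] at h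
  exact h

variable (m)

/-- The rotation comparing the frame and its pullback. -/
def U (γ : SL(2, ℝ)) (z : ℂ) : ℂ := η m (N γ z) (μ γ z) / s m z

variable {m}

lemma U_all {Γ : Subgroup SL(2, ℝ)} (hinv : m.Invariant Γ) {γ : SL(2, ℝ)} (hγ : γ ∈ Γ)
    {z : ℂ} (hz : z ∈ UHP) :
    (starRingEnd ℂ) (U m γ z) * U m γ z = 1 ∧
      ∀ v, η m (N γ z) (μ γ z * v) = U m γ z * η m z v := by
  set α := η m (N γ z) (μ γ z * 1) with hα
  set β := η m (N γ z) (μ γ z * Complex.I) with hβ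
  have hs := s_pos (m := m) hz
  have hb := b_pos (m := m) hz
  have hs' := s_pos (m := m) (N_mem γ hz)
  have hb' := b_pos (m := m) (N_mem γ hz)
  have e11 : ((starRingEnd ℂ) α * α).re = s m z ^ 2 := by
    rw [hα, ← ip_eq (N_mem γ hz), ip_inv hinv hγ hz, ip_eq hz, η_apply, A_zero, A_one]
    simp; ring
  have e12 : ((starRingEnd ℂ) α * β).re = s m z * a m z := by
    rw [hα, hβ, ← ip_eq (N_mem γ hz), ip_inv hinv hγ hz, ip_eq hz, η_apply, η_apply, A_zero, A_one]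
    simp
  have e22 : ((starRingEnd ℂ) β * β).re = a m z ^ 2 + b m z ^ 2 := by
    rw [hβ, ← ip_eq (N_mem γ hz), ip_inv hinv hγ hz, ip_eq hz, η_apply, A_zero, A_one]
    simp; ring
  have hpos : 0 < ((starRingEnd ℂ) α * β).im := by
    rw [hα, hβ, area]
    have h1 : ((starRingEnd ℂ) (μ γ z * 1) * (μ γ z * Complex.I)).im = Complex.normSq (μ γ z) := by
      rw [Complex.normSq_apply]
      simp
    rw [h1]
    exact mul_pos (mul_pos hs' hb') (Complex.normSq_pos.2 (μ_ne γ hz))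
  have him : ((starRingEnd ℂ) α * β).im = s m z * b m z := by
    have h2 : ((starRingEnd ℂ) α * β).im ^ 2 = (s m z * b m z) ^ 2 := by
      have h3 : ((starRingEnd ℂ) α * β).im ^ 2 = ((starRingEnd ℂ) α * α).re *
          ((starRingEnd ℂ) β * β).re - ((starRingEnd ℂ) α * β).re ^ 2 := by
        simp; ring
      rw [h3, e11, e12, e22]; ring
    exact (pow_left_inj₀ hpos.le (mul_pos hs hb).le two_ne_zero).1 h2
  have hαβ : (starRingEnd ℂ) α * β = s m z * A m 1 z := by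
    rw [A_one]
    apply Complex.ext
    · rw [e12]; simp
    · rw [him]; simp
  have hαα : (starRingEnd ℂ) α * α = (s m z : ℂ) ^ 2 := by
    apply Complex.ext
    · rw [e11]
      norm_cast
    · have : ((s m z : ℂ) ^ 2).im = 0 := by norm_cast
      rw [this]
      simp; ring
  have hsC : (s m z : ℂ) ≠ 0 := by exact_mod_cast hs.ne'
  have hU : U m γ z = α / s m z := by
    rw [hα, mul_one]; rfl
  have hαU : α = U m γ z * s m z := by
    rw [hU]; field_simp
  have hβU : β = U m γ z * A m 1 z := by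
    rw [hU]
    have : (s m z : ℂ) ^ 2 * β = (s m z : ℂ) * (α * A m 1 z) := by
      rw [← hαα]
      linear_combination α * hαβ
    have h2 : (s m z : ℂ) * β = α * A m 1 z := by
      apply mul_left_cancel₀ hsC
      rw [← this]; ring
    field_simp
    rw [mul_comm, h2]
  refine ⟨?_, ?_⟩
  · rw [hU, map_div₀, Complex.conj_ofReal]
    field_simp
    exact hαα
  · intro v
    have h1 : μ γ z * v = v.re • (μ γ z * 1) + v.im • (μ γ z * Complex.I) := by
      have hv := Complex.re_add_im v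
      simp only [Complex.real_smul]
      linear_combination (-(μ γ z)) * hv
    rw [h1, map_add, map_smul, map_smul, ← hα, ← hβ, η_apply, A_zero]
    simp only [Complex.real_smul]
    rw [hβU]
    conv_lhs => rw [hαU]
    ring

lemma U_smooth (γ : SL(2, ℝ)) : ContDiffOn ℝ ∞ (U m γ) UHP := by
  have h1 : ContDiffOn ℝ ∞ (fun z => η m (N γ z)) UHP :=
    η_smooth.comp (N_smooth γ) (fun z hz => N_mem γ hz)
  have hs : ContDiffOn ℝ ∞ (fun z => ((s m z : ℂ))⁻¹) UHP :=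
    (Complex.ofRealCLM.contDiff.comp_contDiffOn s_smooth).inv
      (fun z hz => by
        have := (s_pos (m := m) hz).ne'
        simpa using this)
  refine ((h1.clm_apply (μ_smooth γ)).mul hs).congr (fun z _ => ?_)
  unfold U
  rw [div_eq_mul_inv]

variable (m)

/-- `γ^* θ - θ`, evaluated on the coordinate fields. -/
def ρ (γ : SL(2, ℝ)) (i : Fin 2) (z : ℂ) : ℝ := θ m (N γ z) (μ γ z * bv i) - th m i z

variable {m}

lemma ρ_diff (γ : SL(2, ℝ)) (i : Fin 2) {z : ℂ} (hz : z ∈ UHP) : DifferentiableAt ℝ (ρ m γ i) z := by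
  have h1 : ContDiffOn ℝ ∞ (fun z => θ m (N γ z)) UHP :=
    θ_smooth.comp (N_smooth γ) (fun z hz => N_mem γ hz)
  exact (diff_of (h1.clm_apply ((μ_smooth γ).mul contDiffOn_const)) hz).sub (th_diff i hz)

lemma η_bv (z : ℂ) (j : Fin 2) : η m z (bv j) = A m j z := by
  revert j
  rw [Fin.forall_fin_two]
  constructor
  · rw [η_apply]; simp [bv]
  · rw [η_apply]; simp [bv]

lemma U_deriv {Γ : Subgroup SL(2, ℝ)} (hinv : m.Invariant Γ) {γ : SL(2, ℝ)} (hγ : γ ∈ Γ)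
    {z : ℂ} (hz : z ∈ UHP) (i : Fin 2) :
    pc i (U m γ) z = -Complex.I * ρ m γ i z * U m γ z := by
  have hs := s_pos (m := m) hz
  have hb := b_pos (m := m) hz
  have hP : ∀ j, ∀ w ∈ UHP, η m (N γ w) (μ γ w * bv j) = U m γ w * A m j w := by
    intro j w hw
    rw [(U_all hinv hγ hw).2, η_bv]
  have hUd := diff_of (U_smooth (m := m) γ) hz
  have hPd : ∀ i j, fderiv ℝ (η m) (N γ z) (μ γ z * bv i) (μ γ z * bv j)
      + η m (N γ z) (deriv (μ γ) z * bv i * bv j) = pc i (U m γ) z * A m j z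
        + U m γ z * pc i (A m j) z := by
    intro i j
    rw [← pull η_smooth γ hz, ← pc_mul i hUd (A_diff j hz)]
    exact pc_congr i (hP j) hz
  have h01 := hPd 0 1
  have h10 := hPd 1 0
  have hs1 := s1 (m := m) (N_mem γ hz) (μ γ z * bv 0) (μ γ z * bv 1)
  rw [hP 0 z hz, hP 1 z hz] at hs1
  have hcomm : deriv (μ γ) z * bv 0 * bv 1 = deriv (μ γ) z * bv 1 * bv 0 := by ring
  rw [hcomm] at h01
  have ht := tors01 (m := m) hz
  unfold Dc at ht
  have key : (pc 0 (U m γ) z + Complex.I * ρ m γ 0 z * U m γ z) * A m 1 z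
      = (pc 1 (U m γ) z + Complex.I * ρ m γ 1 z * U m γ z) * A m 0 z := by
    unfold ρ
    push_cast
    linear_combination h10 - h01 + hs1 - U m γ z * ht
  have hre : ∀ i, ((pc i (U m γ) z + Complex.I * ρ m γ i z * U m γ z)
      * (starRingEnd ℂ) (U m γ z)).re = 0 := by
    intro i
    have h1 : pc i (fun w => (starRingEnd ℂ) (U m γ w) * U m γ w) z = pc i (fun _ => (1 : ℂ)) z :=
      pc_congr i (fun w hw => (U_all hinv hγ hw).1) hz
    rw [pc_mul i (conj_diff hUd) hUd, pc_conj i hUd] at h1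
    have h2 : pc i (fun _ => (1 : ℂ)) z = 0 := by
      unfold pc; simp
    rw [h2] at h1
    have h3 := congrArg Complex.re h1
    simp at h3 ⊢
    linarith
  have hU0 : (starRingEnd ℂ) (U m γ z) ≠ 0 := by
    intro h0
    have h1 := (U_all hinv hγ hz).1
    rw [h0] at h1
    simp at h1
  have key2 := congrArg (fun x => x * (starRingEnd ℂ) (U m γ z)) key
  set t0 := (pc 0 (U m γ) z + Complex.I * ρ m γ 0 z * U m γ z) * (starRingEnd ℂ) (U m γ z) with ht0
  set t1 := (pc 1 (U m γ) z + Complex.I * ρ m γ 1 z * U m γ z) * (starRingEnd ℂ) (U m γ z) with ht1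
  have hr0 : t0.re = 0 := hre 0
  have hr1 : t1.re = 0 := hre 1
  have key3 : t0 * A m 1 z = t1 * A m 0 z := by
    rw [ht0, ht1]
    linear_combination key2
  rw [A_zero, A_one] at key3
  have k0 := congrArg Complex.re key3
  have k1 := congrArg Complex.im key3
  simp [hr0, hr1] at k0 k1
  have hi0 : t0.im = 0 := by
    rcases k0 with h | h
    · exact h
    · exact absurd h hb.ne'
  rw [hi0] at k1
  simp [hs.ne'] at k1
  have hz0 : t0 = 0 := Complex.ext hr0 hi0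
  have hz1 : t1 = 0 := Complex.ext hr1 (by simpa using k1)
  have f0 : pc 0 (U m γ) z + Complex.I * ρ m γ 0 z * U m γ z = 0 :=
    (mul_eq_zero.1 hz0).resolve_right hU0
  have f1 : pc 1 (U m γ) z + Complex.I * ρ m γ 1 z * U m γ z = 0 :=
    (mul_eq_zero.1 hz1).resolve_right hU0
  revert i
  rw [Fin.forall_fin_two]
  constructor
  · linear_combination f0
  · linear_combination f1

lemma K_inv {Γ : Subgroup SL(2, ℝ)} (hinv : m.Invariant Γ) {γ : SL(2, ℝ)} (hγ : γ ∈ Γ)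
    {z : ℂ} (hz : z ∈ UHP) : K m (N γ z) = K m z := by
  have hs := s_pos (m := m) hz
  have hb := b_pos (m := m) hz
  have hUd := diff_of (U_smooth (m := m) γ) hz
  have hU1 := (U_all hinv hγ hz).1
  have hU0 : U m γ z ≠ 0 := by
    intro h0
    rw [h0] at hU1
    simp at hU1
  have hρd : ∀ j, DifferentiableAt ℝ (fun w => (ρ m γ j w : ℂ)) z := fun j =>
    Complex.ofRealCLM.differentiableAt.comp z (ρ_diff γ j hz)
  have h2 : ∀ i j, pc i (pc j (U m γ)) z = -Complex.I * (pd i (ρ m γ j) z * U m γ z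
      + ρ m γ j z * (-Complex.I * ρ m γ i z * U m γ z)) := by
    intro i j
    have hI : pc i (fun _ => -Complex.I) z = 0 := by
      unfold pc; simp
    rw [pc_congr i (fun w hw => U_deriv hinv hγ hw j) hz,
      pc_mul i (f := fun w => -Complex.I * (ρ m γ j w : ℂ)) (g := U m γ)
        ((differentiableAt_const _).mul (hρd j)) hUd,
      pc_mul i (f := fun _ => -Complex.I) (g := fun w => (ρ m γ j w : ℂ)) (differentiableAt_const _)
        (hρd j), pc_ofReal i (ρ_diff γ j hz), hI, U_deriv hinv hγ hz]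
    ring
  have hc := pc_comm (U_smooth (m := m) γ) 0 1 hz
  rw [h2 0 1, h2 1 0] at hc
  have h3 : (pd 0 (ρ m γ 1) z : ℂ) = pd 1 (ρ m γ 0) z := by
    have h4 : (-Complex.I * U m γ z) * (pd 0 (ρ m γ 1) z : ℂ)
        = (-Complex.I * U m γ z) * pd 1 (ρ m γ 0) z := by
      linear_combination hc
    exact mul_left_cancel₀ (mul_ne_zero (neg_ne_zero.2 Complex.I_ne_zero) hU0) h4
  have h5 : pd 0 (ρ m γ 1) z = pd 1 (ρ m γ 0) z := by exact_mod_cast h3
  have h6 : ∀ i j, pd i (ρ m γ j) z = fderiv ℝ (θ m) (N γ z) (μ γ z * bv i) (μ γ z * bv j)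
      + θ m (N γ z) (deriv (μ γ) z * bv i * bv j) - pd i (th m j) z := by
    intro i j
    rw [← pull θ_smooth γ hz]
    have hd : DifferentiableAt ℝ (fun w => θ m (N γ w) (μ γ w * bv j)) z := by
      have h1 : ContDiffOn ℝ ∞ (fun z => θ m (N γ z)) UHP :=
        θ_smooth.comp (N_smooth γ) (fun z hz => N_mem γ hz)
      exact diff_of (h1.clm_apply ((μ_smooth γ).mul contDiffOn_const)) hz
    unfold pd
    have he : ρ m γ j = fun w => θ m (N γ w) (μ γ w * bv j) - th m j w := rfl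
    rw [he, fderiv_fun_sub hd (th_diff j hz)]
    rfl
  rw [h6, h6] at h5
  have hcomm : deriv (μ γ) z * bv 0 * bv 1 = deriv (μ γ) z * bv 1 * bv 0 := by ring
  rw [hcomm] at h5
  have h7 := s2 (m := m) (N_mem γ hz) (μ γ z * bv 0) (μ γ z * bv 1)
  have h8 : ((starRingEnd ℂ) (η m (N γ z) (μ γ z * bv 0)) * η m (N γ z) (μ γ z * bv 1)).im
      = s m z * b m z := by
    rw [(U_all hinv hγ hz).2, (U_all hinv hγ hz).2, η_bv, η_bv, map_mul]
    have : (starRingEnd ℂ) (U m γ z) * (starRingEnd ℂ) (A m 0 z) * (U m γ z * A m 1 z)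
        = (starRingEnd ℂ) (A m 0 z) * A m 1 z := by
      linear_combination ((starRingEnd ℂ) (A m 0 z) * A m 1 z) * hU1
    rw [this, A_zero, A_one]
    simp
  rw [h8] at h7
  have h9 : K m z * (s m z * b m z) = pd 1 (th m 0) z - pd 0 (th m 1) z := by
    have h0 : pd 1 (th m 0) z = pd 1 (p m) z := rfl
    have h1 : pd 0 (th m 1) z = pd 0 (q m) z := rfl
    rw [h0, h1]
    unfold K
    have := hs.ne'
    have := hb.ne'
    field_simp
  have h10 : K m (N γ z) * (s m z * b m z) = K m z * (s m z * b m z) := by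
    rw [h9]
    linarith
  exact mul_right_cancel₀ (mul_pos hs hb).ne' h10

lemma frame_inv {Γ : Subgroup SL(2, ℝ)} (hinv : m.Invariant Γ) : (frame m).Invariant Γ := by
  intro γ hγ
  refine ⟨U m γ, fun z => ⟨?_, ?_, ?_, ?_, ?_⟩⟩
  · have h := (U_all hinv hγ z.im_pos).1
    have h2 : ‖U m γ z‖ ^ 2 = 1 := by
      rw [← Complex.normSq_eq_norm_sq]
      rw [← Complex.normSq_eq_conj_mul_self] at h
      exact_mod_cast h
    have h0 := norm_nonneg (U m γ z)
    nlinarith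
  · rw [← N_coe]
    exact K_inv hinv hγ z.im_pos
  · intro v
    rw [← N_coe, μ_coe]
    exact (U_all hinv hγ z.im_pos).2 v
  · exact diff_of (U_smooth γ) z.im_pos
  · intro v
    rw [← N_coe, μ_coe, lin]
    change (v.re : ℂ) * pc 0 (U m γ) z + v.im * pc 1 (U m γ) z
      = -Complex.I * (θ m (N γ z) (μ γ z * v) - θ m z v) * U m γ z
    rw [U_deriv hinv hγ z.im_pos, U_deriv hinv hγ z.im_pos]
    have h1 : θ m (N γ z) (μ γ z * v)
        = v.re * θ m (N γ z) (μ γ z * bv 0) + v.im * θ m (N γ z) (μ γ z * bv 1) := by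
      have h2 : μ γ z * v = v.re • (μ γ z * bv 0) + v.im • (μ γ z * bv 1) := by
        have hv := Complex.re_add_im v
        simp only [Complex.real_smul, bv, Matrix.cons_val_zero, Matrix.cons_val_one]
        linear_combination (-(μ γ z)) * hv
      rw [h2, map_add, map_smul, map_smul]
      rfl
    rw [h1, θ_apply (z : ℂ) v]
    unfold ρ
    push_cast
    ring

end FrameOf

theorem frameOf : FrameStatement := by
  intro Γ m hinv
  refine ⟨FrameOf.frame m, FrameOf.frame_inv hinv, ?_, ?_, ?_⟩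
  · intro z hz
    exact (FrameOf.curv_eq hz).symm
  · intro z hz v
    exact FrameOf.norm_sq hz v
  · intro c hc
    exact ⟨_, FrameOf.geod hc⟩

end Knieper
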