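import Pool.Agent.Knieper.Field

/-!
# The global geodesic flow of a frame with bounded geometry
-/

noncomputable section

open Set Filter Topology Metric Complex
open scoped NNReal ContDiff Manifold

namespace Knieper

/-- Smooth cut-off of a vector field near a compact set. -/
theorem exists_cutoff {V : Type} [NormedAddCommGroup V] [NormedSpace ℝ V] [FiniteDimensional ℝ V]
    {D K : Set V} (hD : IsOpen D) (hK : IsCompact K) (hKD : K ⊆ D) {X : V → V}
    (hX : ∀ p ∈ D, ContDiffAt ℝ ∞ X p) :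
    ∃ (χ : V → ℝ), ContDiff ℝ 2 (fun p => χ p • X p) ∧ HasCompactSupport (fun p => χ p • X p) ∧
      (∀ p, 0 ≤ χ p ∧ χ p ≤ 1) ∧ (∀ p ∉ D, χ p = 0) ∧ ∀ p ∈ K, ∀ᶠ q in 𝓝 p, χ q = 1 := by
  obtain ⟨L, hL, hKL, hLD⟩ := exists_compact_between hK hD hKD
  obtain ⟨f, hf1, hf0, hf01⟩ := exists_contMDiffMap_one_nhds_of_subset_interior
    (n := (⊤ : ℕ∞)) 𝓘(ℝ, V) hK.isClosed hKL
  have hfc : ContDiff ℝ ∞ f := f.contMDiff.contDiff
  refine ⟨f, ?_, ?_, fun p => hf01 p, fun p hp => hf0 p (fun h => hp (hLD h)), fun p hp => ?_⟩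
  · rw [contDiff_iff_contDiffAt]
    intro p
    by_cases hp : p ∈ D
    · exact (hfc.contDiffAt.smul (hX p hp)).of_le (by norm_cast)
    · have hpL : p ∉ L := fun h => hp (hLD h)
      have : (fun p => f p • X p) =ᶠ[𝓝 p] fun _ => 0 := by
        filter_upwards [hL.isClosed.isOpen_compl.mem_nhds hpL] with q hq
        simp [hf0 q hq]
      exact contDiffAt_const.congr_of_eventuallyEq this
  · exact HasCompactSupport.intro hL fun p hp => by simp [hf0 p hp]
  · exact (eventually_nhdsSet_iff_forall.mp hf1) p hp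

namespace Frame

/-- Bounded geometry: the frame norm is comparable to the hyperbolic norm. -/
structure Bdd (F : Frame) (κ : ℝ) : Prop where
  one_le : 1 ≤ κ
  low : ∀ z ∈ UHP, ∀ v, ‖v‖ ≤ κ * z.im * ‖F.η z v‖
  up : ∀ z ∈ UHP, ∀ v, z.im * ‖F.η z v‖ ≤ κ * ‖v‖

variable {F : Frame} {κ : ℝ}

theorem Bdd.e_le (hF : F.Bdd κ) {z : ℂ} (hz : z ∈ UHP) (w : ℂ) :
    ‖F.e z w‖ ≤ κ * z.im * ‖w‖ := by
  have := hF.low z hz (F.e z w)
  rwa [F.η_e hz] at this

/-- A priori bounds for integral curves of (cut-offs of) the geodesic field. -/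
theorem Bdd.apriori (hF : F.Bdd κ) {x : ℝ → ℂ × ℂ} {s : ℝ → ℝ}
    (hx : ∀ t, HasDerivAt x (s t • F.X (x t)) t) (hs : ∀ t, 0 ≤ s t ∧ s t ≤ 1)
    (hs0 : ∀ t, x t ∉ D → s t = 0) (h0 : x 0 ∈ D) (t : ℝ) :
    ‖(x t).2‖ = ‖(x 0).2‖ ∧
    (x 0).1.im * Real.exp (-(κ * (‖(x 0).2‖ + 1) * |t|)) ≤ (x t).1.im ∧
    (x t).1.im ≤ (x 0).1.im * Real.exp (κ * (‖(x 0).2‖ + 1) * |t|) ∧
    |(x t).1.re - (x 0).1.re| ≤ κ * (‖(x 0).2‖ + 1) * |t| * (x 0).1.im *
      Real.exp (κ * (‖(x 0).2‖ + 1) * |t|) := by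
  set m : ℝ := κ * (‖(x 0).2‖ + 1) with hm
  have hκ : 0 < κ := lt_of_lt_of_le one_pos hF.one_le
  have hmpos : 0 < m := by positivity
  have h1 : ∀ t, HasDerivAt (fun t => (x t).1) (s t • F.e (x t).1 (x t).2) t := fun t => by
    have := (hx t).fst
    exact this
  have h2 : ∀ t, HasDerivAt (fun t => (x t).2)
      (s t • (-Complex.I * F.θ (x t).1 (F.e (x t).1 (x t).2) * (x t).2)) t := fun t => by
    have := (hx t).snd
    exact this
  -- norm of w
  have hw : ∀ t, ‖(x t).2‖ = ‖(x 0).2‖ := by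
    have hd : ∀ t, HasDerivAt (fun t => ((starRingEnd ℂ) (x t).2 * (x t).2)) 0 t := by
      intro t
      have hc : HasDerivAt (fun t => (starRingEnd ℂ) (x t).2)
          ((starRingEnd ℂ) (s t • (-Complex.I * F.θ (x t).1 (F.e (x t).1 (x t).2) * (x t).2))) t :=
        (Complex.conjCLE : ℂ →L[ℝ] ℂ).hasFDerivAt.comp_hasDerivAt t (h2 t)
      refine (hc.mul (h2 t)).congr_deriv ?_
      simp only [Complex.real_smul, map_mul, map_neg, Complex.conj_I, Complex.conj_ofReal]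
      ring
    have hconst := is_const_of_deriv_eq_zero (fun t => (hd t).differentiableAt)
      (fun t => (hd t).deriv)
    intro t
    have h3 : ((starRingEnd ℂ) (x t).2 * (x t).2) = ((starRingEnd ℂ) (x 0).2 * (x 0).2) :=
      hconst t 0
    have h4 : ∀ a : ℂ, (starRingEnd ℂ) a * a = ((‖a‖ ^ 2 : ℝ) : ℂ) := fun a => by
      rw [mul_comm, Complex.mul_conj, Complex.normSq_eq_norm_sq]
    rw [h4, h4] at h3
    have h5 : ‖(x t).2‖ ^ 2 = ‖(x 0).2‖ ^ 2 := by exact_mod_cast h3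
    exact (sq_eq_sq₀ (norm_nonneg _) (norm_nonneg _)).mp h5
  -- velocity bound
  have hz' : ∀ t, ‖s t • F.e (x t).1 (x t).2‖ ≤ m * |(x t).1.im| := by
    intro t
    by_cases ht : x t ∈ D
    · have hzt := mem_D.mp ht
      have him : 0 < (x t).1.im := hzt
      rw [norm_smul, Real.norm_of_nonneg (hs t).1, abs_of_pos him]
      calc s t * ‖F.e (x t).1 (x t).2‖ ≤ 1 * (κ * (x t).1.im * ‖(x t).2‖) := by
            gcongr
            · exact (hs t).2
            · exact hF.e_le hzt _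
        _ = κ * ‖(x 0).2‖ * (x t).1.im := by rw [hw t]; ring
        _ ≤ m * (x t).1.im := by
            rw [hm]; gcongr; linarith
    · rw [hs0 t ht, zero_smul, norm_zero]; positivity
  have him : ∀ t, HasDerivAt (fun t => (x t).1.im) (s t • F.e (x t).1 (x t).2).im t := fun t =>
    Complex.imCLM.hasFDerivAt.comp_hasDerivAt t (h1 t)
  have hre : ∀ t, HasDerivAt (fun t => (x t).1.re) (s t • F.e (x t).1 (x t).2).re t := fun t =>
    Complex.reCLM.hasFDerivAt.comp_hasDerivAt t (h1 t)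
  have hy0 : 0 < (x 0).1.im := mem_D.mp h0
  have hup : ∀ t, |(x t).1.im| ≤ (x 0).1.im * Real.exp (m * |t|) := by
    intro t
    have := gronwall_two_sided (u := fun t => (x t).1.im) (K := m) (ε := 0) (T := |t|) hmpos
      le_rfl him (fun s _ => by
        rw [add_zero]
        exact (Complex.abs_im_le_norm _).trans (hz' s)) (t := t) le_rfl
    simpa [abs_of_pos hy0] using this
  have hlow : ∀ t, (x 0).1.im * Real.exp (-(m * |t|)) ≤ |(x t).1.im| := by
    intro t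
    have := gronwall_two_sided (u := fun u => (x (t + u)).1.im)
      (u' := fun u => (s (t + u) • F.e (x (t + u)).1 (x (t + u)).2).im) (K := m) (ε := 0)
      (T := |t|) hmpos le_rfl (fun u => by
        have := (him (t + u)).comp_const_add t u
        exact this) (fun u _ => by
        rw [add_zero]
        exact (Complex.abs_im_le_norm _).trans (hz' _)) (t := -t) (by rw [abs_neg])
    simp only [add_neg_cancel, add_zero, zero_div, abs_neg, Real.norm_eq_abs,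
      abs_of_pos hy0] at this
    rw [Real.exp_neg]
    rw [← div_eq_mul_inv, div_le_iff₀ (Real.exp_pos _)]
    exact this
  have hpos : ∀ t, 0 < (x t).1.im := by
    intro t
    by_contra hcon
    push Not at hcon
    have hcont : Continuous fun t => (x t).1.im :=
      continuous_iff_continuousAt.mpr fun t => (him t).continuousAt
    have hmem : (0 : ℝ) ∈ uIcc (x t).1.im (x 0).1.im := by
      rw [uIcc_of_le (hcon.trans hy0.le)]; exact ⟨hcon, hy0.le⟩
    obtain ⟨u, -, hu⟩ := intermediate_value_uIcc (a := t) (b := 0)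
      (f := fun t => (x t).1.im) hcont.continuousOn hmem
    have := hlow u
    simp only at hu
    rw [hu, abs_zero] at this
    have h3 : 0 < (x 0).1.im * Real.exp (-(m * |u|)) := by positivity
    linarith
  refine ⟨hw t, ?_, ?_, ?_⟩
  · have := hlow t
    rwa [abs_of_pos (hpos t)] at this
  · have := hup t
    rwa [abs_of_pos (hpos t)] at this
  · have hconv : Convex ℝ (Icc (-|t|) |t|) := convex_Icc _ _
    have := hconv.norm_image_sub_le_of_norm_hasDerivWithin_le (f := fun t => (x t).1.re)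
      (f' := fun t => (s t • F.e (x t).1 (x t).2).re)
      (C := m * (x 0).1.im * Real.exp (m * |t|)) (x := 0) (y := t)
      (fun u _ => (hre u).hasDerivWithinAt) (fun u hu => by
        refine (Complex.abs_re_le_norm _).trans ((hz' u).trans ?_)
        have h3 := hup u
        have h4 : |u| ≤ |t| := abs_le.mpr hu
        calc m * |(x u).1.im| ≤ m * ((x 0).1.im * Real.exp (m * |u|)) := by gcongr
          _ ≤ m * ((x 0).1.im * Real.exp (m * |t|)) := by gcongr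
          _ = _ := by ring)
      ⟨by simp, abs_nonneg _⟩ ⟨neg_abs_le t, le_abs_self t⟩
    simp only [sub_zero, Real.norm_eq_abs] at this
    refine this.trans (le_of_eq ?_)
    ring

/-- The exhaustion by compact sets. -/
def KK (n : ℕ) : Set (ℂ × ℂ) :=
  {p | ‖p.2‖ ≤ n ∧ |p.1.re| ≤ n ∧ p.1.im ≤ n ∧ 1 ≤ n * p.1.im}

theorem KK_subset_D (n : ℕ) : KK n ⊆ D := by
  intro p hp
  rw [mem_D]
  have h : 1 ≤ n * p.1.im := hp.2.2.2
  have hn : (0 : ℝ) ≤ n := by positivity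
  change 0 < p.1.im
  by_contra hcon
  push Not at hcon
  nlinarith

theorem isCompact_KK (n : ℕ) : IsCompact (KK n) := by
  refine Metric.isCompact_of_isClosed_isBounded ?_ ?_
  · have c1 : IsClosed {p : ℂ × ℂ | ‖p.2‖ ≤ n} := isClosed_le (by fun_prop) continuous_const
    have c2 : IsClosed {p : ℂ × ℂ | |p.1.re| ≤ n} := isClosed_le (by fun_prop) continuous_const
    have c3 : IsClosed {p : ℂ × ℂ | p.1.im ≤ n} := isClosed_le (by fun_prop) continuous_const
    have c4 : IsClosed {p : ℂ × ℂ | 1 ≤ n * p.1.im} := isClosed_le continuous_const (by fun_prop)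
    exact c1.inter (c2.inter (c3.inter c4))
  · rw [isBounded_iff_forall_norm_le]
    refine ⟨n + n, fun p hp => ?_⟩
    rw [Prod.norm_def]
    refine max_le ?_ ?_
    · refine (Complex.norm_le_abs_re_add_abs_im _).trans (add_le_add hp.2.1 ?_)
      rw [abs_of_pos (show (0 : ℝ) < p.1.im from mem_D.mp (KK_subset_D n hp))]
      exact hp.2.2.1
    · have : (0 : ℝ) ≤ n := by positivity
      linarith [hp.1]

theorem KK_mono {n m : ℕ} (h : n ≤ m) : KK n ⊆ KK m := by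
  intro p hp
  have h' : (n : ℝ) ≤ m := by exact_mod_cast h
  have h0 : (0 : ℝ) < p.1.im := mem_D.mp (KK_subset_D n hp)
  refine ⟨hp.1.trans h', hp.2.1.trans h', hp.2.2.1.trans h', hp.2.2.2.trans ?_⟩
  gcongr

/-- Size needed to contain the trajectory of `x` up to time `T`. -/
def bnd (κ : ℝ) (x : ℂ × ℂ) (T : ℝ) : ℝ :=
  ‖x.2‖ + |x.1.re| + (x.1.im + x.1.im⁻¹ + κ * (‖x.2‖ + 1) * T * x.1.im) *
    Real.exp (κ * (‖x.2‖ + 1) * T)

theorem bnd_mono (hκ : 0 ≤ κ) {x : ℂ × ℂ} (hx : x ∈ D) {T T' : ℝ} (h0 : 0 ≤ T) (h : T ≤ T') :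
    bnd κ x T ≤ bnd κ x T' := by
  have hy : (0 : ℝ) < x.1.im := mem_D.mp hx
  have hT' : 0 ≤ T' := h0.trans h
  unfold bnd
  gcongr

theorem bnd_continuousAt {x : ℂ × ℂ} (hx : x ∈ D) (T : ℝ) :
    ContinuousAt (fun x => bnd κ x T) x := by
  have hy : (0 : ℝ) < x.1.im := mem_D.mp hx
  have hinv : ContinuousAt (fun x : ℂ × ℂ => x.1.im⁻¹) x := by
    refine ContinuousAt.inv₀ ?_ hy.ne'
    fun_prop
  unfold bnd
  have h1 : ContinuousAt (fun x : ℂ × ℂ => ‖x.2‖ + |x.1.re|) x := by fun_prop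
  have h2 : ContinuousAt (fun x : ℂ × ℂ => x.1.im) x := by fun_prop
  have h3 : ContinuousAt (fun x : ℂ × ℂ => κ * (‖x.2‖ + 1) * T * x.1.im) x := by fun_prop
  have h4 : ContinuousAt (fun x : ℂ × ℂ => Real.exp (κ * (‖x.2‖ + 1) * T)) x := by fun_prop
  exact h1.add (((h2.add hinv).add h3).mul h4)

theorem Bdd.mem_KK (hF : F.Bdd κ) {x : ℝ → ℂ × ℂ} {s : ℝ → ℝ}
    (hx : ∀ t, HasDerivAt x (s t • F.X (x t)) t) (hs : ∀ t, 0 ≤ s t ∧ s t ≤ 1)
    (hs0 : ∀ t, x t ∉ D → s t = 0) (h0 : x 0 ∈ D) {t T : ℝ} (ht : |t| ≤ T) {n : ℕ}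
    (hn : bnd κ (x 0) T ≤ n) : x t ∈ KK n := by
  obtain ⟨h1, h2, h3, h4⟩ := hF.apriori hx hs hs0 h0 t
  have hy : (0 : ℝ) < (x 0).1.im := mem_D.mp h0
  have hκ : 0 < κ := lt_of_lt_of_le one_pos hF.one_le
  have hT : 0 ≤ T := (abs_nonneg t).trans ht
  set m : ℝ := κ * (‖(x 0).2‖ + 1) with hm
  have hmpos : 0 < m := by positivity
  have hE : Real.exp (m * |t|) ≤ Real.exp (m * T) := by gcongr
  have hE1 : 1 ≤ Real.exp (m * T) := Real.one_le_exp (by positivity)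
  have hb : bnd κ (x 0) T = ‖(x 0).2‖ + |(x 0).1.re| + ((x 0).1.im + (x 0).1.im⁻¹
      + m * T * (x 0).1.im) * Real.exp (m * T) := rfl
  rw [hb] at hn
  have hpos1 : 0 ≤ (x 0).1.im * Real.exp (m * T) := by positivity
  have hpos2 : 0 ≤ (x 0).1.im⁻¹ * Real.exp (m * T) := by positivity
  have hpos3 : 0 ≤ m * T * (x 0).1.im * Real.exp (m * T) := by positivity
  have hpos4 : 0 ≤ ‖(x 0).2‖ := norm_nonneg _
  have hpos5 : 0 ≤ |(x 0).1.re| := abs_nonneg _
  refine ⟨?_, ?_, ?_, ?_⟩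
  · rw [h1]; nlinarith
  · have h5 : |(x t).1.re| ≤ |(x 0).1.re| + |(x t).1.re - (x 0).1.re| := by
      have := abs_add_le (x 0).1.re ((x t).1.re - (x 0).1.re)
      simpa using this
    have h6 : m * |t| * (x 0).1.im * Real.exp (m * |t|)
        ≤ m * T * (x 0).1.im * Real.exp (m * T) := by gcongr
    nlinarith
  · have h6 : (x 0).1.im * Real.exp (m * |t|) ≤ (x 0).1.im * Real.exp (m * T) := by gcongr
    nlinarith
  · have h6 : (x 0).1.im * Real.exp (-(m * T)) ≤ (x t).1.im := by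
      refine le_trans ?_ h2
      gcongr
    have h7 : (x 0).1.im⁻¹ * Real.exp (m * T) ≤ n := by nlinarith
    calc (1 : ℝ) = ((x 0).1.im⁻¹ * Real.exp (m * T)) * ((x 0).1.im * Real.exp (-(m * T))) := by
          rw [Real.exp_neg]
          field_simp
      _ ≤ n * (x t).1.im := by gcongr

/-- The global geodesic flow and its derivative. -/
structure GeoFlow (F : Frame) where
  G : ℝ → ℂ × ℂ → ℂ × ℂ
  A : ℝ → ℂ × ℂ → (ℂ × ℂ) →L[ℝ] (ℂ × ℂ)
  zero : ∀ x ∈ D, G 0 x = x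
  mem : ∀ t, ∀ x ∈ D, G t x ∈ D
  dG : ∀ t, ∀ x ∈ D, HasDerivAt (fun s => G s x) (F.X (G t x)) t
  A_zero : ∀ x ∈ D, A 0 x = ContinuousLinearMap.id ℝ (ℂ × ℂ)
  dA : ∀ t, ∀ x ∈ D, HasDerivAt (fun s => A s x) ((fderiv ℝ F.X (G t x)).comp (A t x)) t
  fd : ∀ t, ∀ x ∈ D, HasFDerivAt (G t) (A t x) x
  lip : ∀ C : Set (ℂ × ℂ), IsCompact C → C ⊆ D → ∀ T : ℝ, ∃ L : ℝ, 0 ≤ L ∧
    ∀ t ∈ Icc (-T) T, ∀ x ∈ C, ∀ y ∈ C,
      ‖G t x - G t y‖ ≤ L * ‖x - y‖ ∧ ‖A t x - A t y‖ ≤ L * ‖x - y‖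
  uniq : ∀ x : ℝ → ℂ × ℂ, (∀ t, x t ∈ D) → (∀ t, HasDerivAt x (F.X (x t)) t) →
    ∀ t, x t = G t (x 0)

theorem Bdd.exists_geoFlow (hF : F.Bdd κ) : Nonempty (GeoFlow F) := by
  have hκ : 0 < κ := lt_of_lt_of_le one_pos hF.one_le
  -- the cut-off fields and their flows
  have h1 : ∀ n : ℕ, ∃ (χ : ℂ × ℂ → ℝ), ContDiff ℝ 2 (fun p => χ p • F.X p) ∧
      HasCompactSupport (fun p => χ p • F.X p) ∧ (∀ p, 0 ≤ χ p ∧ χ p ≤ 1) ∧
      (∀ p ∉ D, χ p = 0) ∧ ∀ p ∈ KK n, ∀ᶠ q in 𝓝 p, χ q = 1 := fun n =>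
    exists_cutoff isOpen_D (isCompact_KK n) (KK_subset_D n)
      (fun p hp => F.X_contDiffAt (mem_D.mp hp))
  choose χ hχ1 hχ2 hχ3 hχ4 hχ5 using h1
  have h2 := fun n => flow_theorem (ℂ × ℂ) (fun p => χ n p • F.X p) (hχ1 n) (hχ2 n)
  choose Φ A hΦ0 hΦ hA0 hA hfd hlip using h2
  have hlipX : ∀ n, ∃ K : ℝ≥0, LipschitzWith K (fun p => χ n p • F.X p) := fun n =>
    ((hχ1 n).of_le (by norm_num)).lipschitzWith_of_hasCompactSupport (hχ2 n) one_ne_zero
  -- trajectories stay in the compact sets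
  have hstay : ∀ (n k : ℕ) (x : ℂ × ℂ), x ∈ D → ∀ t T : ℝ, |t| ≤ T → bnd κ x T ≤ k →
      Φ n t x ∈ KK k := by
    intro n k x hx t T ht hk
    refine hF.mem_KK (x := fun t => Φ n t x) (s := fun t => χ n (Φ n t x)) (fun t => hΦ n t x)
      (fun t => hχ3 n _) (fun t ht => hχ4 n _ ht) ?_ ht ?_
    · simpa only [hΦ0] using hx
    · simpa only [hΦ0] using hk
  -- agreement
  have hagree : ∀ (n m : ℕ) (x : ℂ × ℂ), x ∈ D → ∀ t T : ℝ, |t| < T → bnd κ x T ≤ n →
      bnd κ x T ≤ m → Φ n t x = Φ m t x := by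
    intro n m x hx t T ht hn hm
    obtain ⟨K, hK⟩ := hlipX n
    have hT : 0 < T := lt_of_le_of_lt (abs_nonneg t) ht
    refine ODE_solution_unique_of_mem_Ioo (v := fun _ p => χ n p • F.X p) (s := fun _ => univ)
      (K := K) (a := -T) (b := T) (t₀ := 0) (f := fun t => Φ n t x) (g := fun t => Φ m t x)
      (fun _ _ => hK.lipschitzOnWith) ⟨by linarith, hT⟩ (fun s _ => ⟨hΦ n s x, trivial⟩)
      (fun s hs => ⟨?_, trivial⟩) ?_ (abs_lt.mp ht)
    · have h3 := hΦ m s x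
      have hs' : |s| ≤ T := (abs_lt.mpr hs).le
      have e1 : χ m (Φ m s x) = 1 := (hχ5 m _ (hstay m m x hx s T hs' hm)).self_of_nhds
      have e2 : χ n (Φ m s x) = 1 := (hχ5 n _ (hstay m n x hx s T hs' hn)).self_of_nhds
      simp only [e1] at h3
      simp only [e2]
      exact h3
    · simp only [hΦ0]
  -- the index
  set N : ℝ → ℂ × ℂ → ℕ := fun t x => ⌈bnd κ x (|t| + 1)⌉₊ with hN
  have hNle : ∀ t x, bnd κ x (|t| + 1) ≤ N t x := fun t x => Nat.le_ceil _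
  set G : ℝ → ℂ × ℂ → ℂ × ℂ := fun t x => Φ (N t x) t x with hG
  set B : ℝ → ℂ × ℂ → (ℂ × ℂ) →L[ℝ] (ℂ × ℂ) := fun t x => A (N t x) t x with hB
  have hGn : ∀ (n : ℕ) (x : ℂ × ℂ), x ∈ D → ∀ t : ℝ, bnd κ x (|t| + 1) ≤ n →
      G t x = Φ n t x := fun n x hx t hn =>
    hagree _ _ x hx t (|t| + 1) (by linarith) (hNle t x) hn
  -- local index
  have hloc : ∀ x ∈ D, ∀ T : ℝ, ∃ n : ℕ, ∀ᶠ y in 𝓝 x, y ∈ D ∧ bnd κ y T ≤ n := by
    intro x hx T
    refine ⟨⌈bnd κ x T⌉₊ + 1, ?_⟩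
    have h3 : ∀ᶠ y in 𝓝 x, bnd κ y T < bnd κ x T + 1 :=
      (bnd_continuousAt hx T).eventually_lt continuousAt_const (by linarith)
    filter_upwards [h3, isOpen_D.mem_nhds hx] with y hy hyD
    refine ⟨hyD, ?_⟩
    push_cast
    linarith [Nat.le_ceil (bnd κ x T)]
  have hBn : ∀ (n : ℕ) (x : ℂ × ℂ), x ∈ D → ∀ t : ℝ,
      (∀ᶠ y in 𝓝 x, y ∈ D ∧ bnd κ y (|t| + 1) ≤ n) → HasFDerivAt (G t) (A n t x) x := by
    intro n x hx t hn
    refine (hfd n t x).congr_of_eventuallyEq ?_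
    filter_upwards [hn] with y hy
    exact hGn n y hy.1 t hy.2
  have hfdN : ∀ (n : ℕ) (x : ℂ × ℂ), x ∈ D → ∀ t : ℝ, bnd κ x (|t| + 1) ≤ n →
      A n t x = A (n + 1) t x := by
    intro n x hx t hn
    -- uniqueness for the linear equation
    set T : ℝ := |t| + 1 with hT
    have hTpos : 0 < T := by positivity
    have hcont : Continuous fun s => Φ n s x :=
      continuous_iff_continuousAt.mpr fun s => (hΦ n s x).continuousAt
    obtain ⟨K, hK⟩ := hlipX n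
    refine ODE_solution_unique_of_mem_Ioo
      (v := fun s (a : (ℂ × ℂ) →L[ℝ] (ℂ × ℂ)) =>
        (fderiv ℝ (fun p => χ n p • F.X p) (Φ n s x)).comp a) (s := fun _ => univ)
      (K := K) (a := -T) (b := T) (t₀ := 0) (f := fun s => A n s x)
      (g := fun s => A (n + 1) s x)
      (fun s _ => ?_) ⟨by linarith, hTpos⟩ (fun s _ => ⟨hA n s x, trivial⟩)
      (fun s hs => ⟨?_, trivial⟩) ?_ ?_
    · refine LipschitzOnWith.of_dist_le_mul fun a _ b _ => ?_
      rw [dist_eq_norm, dist_eq_norm, ← ContinuousLinearMap.comp_sub]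
      refine (ContinuousLinearMap.opNorm_comp_le _ _).trans ?_
      gcongr
      exact norm_fderiv_le_of_lipschitz ℝ hK
    · have h3 := hA (n + 1) s x
      have hs' : |s| ≤ T := (abs_lt.mpr hs).le
      have hn' : bnd κ x T ≤ (n + 1 : ℕ) := by push_cast; linarith
      have e0 : Φ (n + 1) s x = Φ n s x := hagree _ _ x hx s T (abs_lt.mpr hs) hn' hn
      have hmem := hstay n n x hx s T hs' hn
      have e1 : (fun p => χ (n + 1) p • F.X p) =ᶠ[𝓝 (Φ n s x)] fun p => χ n p • F.X p := by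
        filter_upwards [hχ5 n _ hmem, hχ5 (n + 1) _ (KK_mono (Nat.le_succ n) hmem)] with q h5 h6
        rw [h5, h6]
      rw [e0, e1.fderiv_eq] at h3
      exact h3
    · simp only [hA0]
    · rw [mem_Ioo, hT]
      exact abs_lt.mp (by linarith)
  have hAmono : ∀ (n m : ℕ), n ≤ m → ∀ (x : ℂ × ℂ), x ∈ D → ∀ t : ℝ, bnd κ x (|t| + 1) ≤ n →
      A n t x = A m t x := by
    intro n m hnm x hx t hn
    induction m, hnm using Nat.le_induction with
    | base => rfl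
    | succ m hm ih =>
      rw [ih]
      refine hfdN m x hx t (hn.trans ?_)
      exact_mod_cast hm
  have hBn' : ∀ (n : ℕ) (x : ℂ × ℂ), x ∈ D → ∀ t : ℝ, bnd κ x (|t| + 1) ≤ n →
      B t x = A n t x := by
    intro n x hx t hn
    exact hAmono _ _ (Nat.ceil_le.mpr hn) x hx t (hNle t x)
  -- eventual equality in time
  have htime : ∀ x ∈ D, ∀ t : ℝ, ∃ n : ℕ, bnd κ x (|t| + 2) ≤ n ∧
      ∀ᶠ s in 𝓝 t, bnd κ x (|s| + 1) ≤ n := by
    intro x hx t
    refine ⟨⌈bnd κ x (|t| + 2)⌉₊, Nat.le_ceil _, ?_⟩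
    filter_upwards [ball_mem_nhds t one_pos] with s hs
    refine le_trans (bnd_mono hκ.le hx (by positivity) ?_) (Nat.le_ceil _)
    rw [Metric.mem_ball, Real.dist_eq] at hs
    have := abs_sub_abs_le_abs_sub s t
    linarith
  refine ⟨⟨G, B, ?_, ?_, ?_, ?_, ?_, ?_, ?_, ?_⟩⟩
  · intro x hx
    simp only [hG, hΦ0]
  · intro t x hx
    exact KK_subset_D _ (hstay _ _ x hx t (|t| + 1) (by linarith) (hNle t x))
  · intro t x hx
    obtain ⟨n, hn1, hn2⟩ := htime x hx t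
    have hn3 : bnd κ x (|t| + 1) ≤ n := hn2.self_of_nhds
    have h3 := hΦ n t x
    have e1 : χ n (Φ n t x) = 1 :=
      (hχ5 n _ (hstay n n x hx t (|t| + 1) (by linarith) hn3)).self_of_nhds
    rw [e1, one_smul, ← hGn n x hx t hn3] at h3
    refine h3.congr_of_eventuallyEq ?_
    filter_upwards [hn2] with s hs
    exact hGn n x hx s hs
  · intro x hx
    simp only [hB, hA0]
  · intro t x hx
    obtain ⟨n, hn1, hn2⟩ := htime x hx t
    have hn3 : bnd κ x (|t| + 1) ≤ n := hn2.self_of_nhds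
    have h3 := hA n t x
    have e1 : (fun p => χ n p • F.X p) =ᶠ[𝓝 (Φ n t x)] F.X := by
      filter_upwards [hχ5 n _ (hstay n n x hx t (|t| + 1) (by linarith) hn3)] with q hq
      rw [hq, one_smul]
    rw [e1.fderiv_eq, ← hGn n x hx t hn3, ← hBn' n x hx t hn3] at h3
    refine h3.congr_of_eventuallyEq ?_
    filter_upwards [hn2] with s hs
    exact hBn' n x hx s hs
  · intro t x hx
    obtain ⟨n, hn⟩ := hloc x hx (|t| + 1)
    rw [hBn' n x hx t hn.self_of_nhds.2]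
    exact hBn n x hx t hn
  · intro C hC hCD T
    obtain ⟨n, hn⟩ : ∃ n : ℕ, ∀ x ∈ C, bnd κ x (|T| + 1) ≤ n := by
      obtain ⟨M, hM⟩ := hC.exists_bound_of_continuousOn (f := fun x => bnd κ x (|T| + 1))
        (fun x hx => (bnd_continuousAt (hCD hx) _).continuousWithinAt)
      refine ⟨⌈M⌉₊, fun x hx => ?_⟩
      exact (le_abs_self _).trans ((hM x hx).trans (Nat.le_ceil M))
    obtain ⟨L, hL0, hL⟩ := hlip n T
    refine ⟨L, hL0, fun t ht x hx y hy => ?_⟩
    have ht' : |t| + 1 ≤ |T| + 1 := by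
      have := abs_le.mpr ht
      linarith [le_abs_self T]
    have hx' : bnd κ x (|t| + 1) ≤ n :=
      (bnd_mono hκ.le (hCD hx) (by positivity) ht').trans (hn x hx)
    have hy' : bnd κ y (|t| + 1) ≤ n :=
      (bnd_mono hκ.le (hCD hy) (by positivity) ht').trans (hn y hy)
    rw [hGn n x (hCD hx) t hx', hGn n y (hCD hy) t hy', hBn' n x (hCD hx) t hx',
      hBn' n y (hCD hy) t hy']
    exact hL t ht x y
  · intro x hxD hx t
    set n : ℕ := ⌈bnd κ (x 0) (|t| + 1)⌉₊ with hn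
    have hnle : bnd κ (x 0) (|t| + 1) ≤ n := Nat.le_ceil _
    rw [hGn n (x 0) (hxD 0) t hnle]
    obtain ⟨K, hK⟩ := hlipX n
    refine ODE_solution_unique_of_mem_Ioo (v := fun _ p => χ n p • F.X p) (s := fun _ => univ)
      (K := K) (a := -(|t| + 1)) (b := |t| + 1) (t₀ := 0) (f := x) (g := fun t => Φ n t (x 0))
      (fun _ _ => hK.lipschitzOnWith) ⟨by linarith [abs_nonneg t], by positivity⟩
      (fun s hs => ⟨?_, trivial⟩)
      (fun s _ => ⟨hΦ n s (x 0), trivial⟩) ?_ (abs_lt.mp (by linarith))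
    · have hmem : x s ∈ KK n := hF.mem_KK (x := x) (s := fun _ => 1)
        (fun t => by simpa using hx t) (fun _ => ⟨zero_le_one, le_rfl⟩)
        (fun t ht => absurd (hxD t) ht) (hxD 0) (abs_lt.mpr hs).le hnle
      have e2 : χ n (x s) = 1 := (hχ5 n _ hmem).self_of_nhds
      simp only [e2, one_smul]
      exact hx s
    · simp only [hΦ0]

end Frame

end Knieper
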