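import Pool.Agent.Knieper.CH

/-!
# Geodesics: relation with the flow, uniqueness, local minimality
-/

noncomputable section

open Set Filter Topology Metric Complex UpperHalfPlane
open scoped NNReal ContDiff unitInterval MatrixGroups

namespace Knieper

namespace Frame

variable {F : Frame} {κ : ℝ}

theorem IsGeod.deriv_eq {c w : ℝ → ℂ} (h : F.IsGeod c w) (t : ℝ) :
    deriv c t = F.e (c t) (w t) := by
  rw [← h.w_eq t, F.e_η (h.mem t)]

theorem IsGeod.hasDerivAt {c w : ℝ → ℂ} (h : F.IsGeod c w) (t : ℝ) :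
    HasDerivAt (fun t => (c t, w t)) (F.X (c t, w t)) t := by
  have h1 := h.c_deriv t
  have h2 := h.w_deriv t
  rw [h.deriv_eq t] at h1 h2
  exact h1.prodMk h2

theorem IsGeod.of_hasDerivAt {c w : ℝ → ℂ} (hc : ∀ t, c t ∈ UHP) (hw : ∀ t, ‖w t‖ = 1)
    (h : ∀ t, HasDerivAt (fun t => (c t, w t)) (F.X (c t, w t)) t) : F.IsGeod c w := by
  have h1 : ∀ t, HasDerivAt c (F.e (c t) (w t)) t := fun t => (h t).fst
  have h2 : ∀ t, HasDerivAt w (-Complex.I * F.θ (c t) (F.e (c t) (w t)) * w t) t :=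
    fun t => (h t).snd
  refine ⟨hc, hw, fun t => (h1 t).differentiableAt.hasDerivAt, fun t => ?_, fun t => ?_⟩
  · rw [(h1 t).deriv, F.η_e (hc t)]
  · rw [(h1 t).deriv]; exact h2 t

theorem IsGeod.continuous {c w : ℝ → ℂ} (h : F.IsGeod c w) : Continuous c :=
  continuous_iff_continuousAt.mpr fun t => (h.c_deriv t).continuousAt

theorem IsGeod.shift {c w : ℝ → ℂ} (h : F.IsGeod c w) (s : ℝ) :
    F.IsGeod (fun t => c (t + s)) (fun t => w (t + s)) := by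
  refine IsGeod.of_hasDerivAt (fun t => h.mem _) (fun t => h.unit _) fun t => ?_
  exact (h.hasDerivAt (t + s)).comp_add_const t s

theorem IsGeod.eq_flow (Φ : GeoFlow F) {c w : ℝ → ℂ} (h : F.IsGeod c w) (t : ℝ) :
    (c t, w t) = Φ.G t (c 0, w 0) :=
  Φ.uniq (fun t => (c t, w t)) (fun t => mem_D.mpr (h.mem t)) h.hasDerivAt t

namespace GeoFlow

variable (Φ : GeoFlow F)

theorem isGeod (hF : F.Bdd κ) {x : ℂ × ℂ} (hx : x ∈ D) (hu : ‖x.2‖ = 1) :
    F.IsGeod (fun t => (Φ.G t x).1) (fun t => (Φ.G t x).2) :=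
  IsGeod.of_hasDerivAt (fun t => mem_D.mp (Φ.mem t x hx))
    (fun t => (Φ.norm_snd hF hx t).trans hu) (fun t => Φ.dG t x hx)

theorem G_scale {p : ℂ} (hp : p ∈ UHP) (w : ℂ) (ℓ t : ℝ) :
    Φ.G t (p, ℓ • w) = ((Φ.G (ℓ * t) (p, w)).1, ℓ • (Φ.G (ℓ * t) (p, w)).2) := by
  have hx : (p, w) ∈ D := mem_D.mpr hp
  have h1 : ∀ t, HasDerivAt (fun t => ((Φ.G (ℓ * t) (p, w)).1, ℓ • (Φ.G (ℓ * t) (p, w)).2))
      (F.X ((Φ.G (ℓ * t) (p, w)).1, ℓ • (Φ.G (ℓ * t) (p, w)).2)) t := by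
    intro t
    have h2 : HasDerivAt (fun t : ℝ => ℓ * t) ℓ t := by
      simpa using (hasDerivAt_id t).const_mul ℓ
    have h3 : HasDerivAt (fun t => Φ.G (ℓ * t) (p, w)) (ℓ • F.X (Φ.G (ℓ * t) (p, w))) t :=
      (Φ.dG (ℓ * t) (p, w) hx).scomp t h2
    have h4 : HasDerivAt (fun t => (Φ.G (ℓ * t) (p, w)).1) (ℓ • F.X (Φ.G (ℓ * t) (p, w))).1 t :=
      h3.fst
    have h5 : HasDerivAt (fun t => ℓ • (Φ.G (ℓ * t) (p, w)).2)
        (ℓ • (ℓ • F.X (Φ.G (ℓ * t) (p, w))).2) t := by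
      have h6 : HasDerivAt (fun t => (Φ.G (ℓ * t) (p, w)).2)
        (ℓ • F.X (Φ.G (ℓ * t) (p, w))).2 t := h3.snd
      exact h6.const_smul ℓ
    refine (h4.prodMk h5).congr_deriv ?_
    have e1 : ∀ z v, F.e z (ℓ • v) = ℓ • F.e z v := fun z v => map_smul _ _ _
    have e2 : ∀ z v, F.θ z (ℓ • v) = ℓ * F.θ z v := fun z v => map_smul _ _ _
    simp only [Frame.X, e1, e2, Prod.smul_fst, Prod.smul_snd]
    refine Prod.ext rfl ?_
    simp only [Complex.real_smul, Complex.ofReal_mul]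
    ring
  have h2 := Φ.uniq (fun t => ((Φ.G (ℓ * t) (p, w)).1, ℓ • (Φ.G (ℓ * t) (p, w)).2))
    (fun t => mem_D.mpr (mem_D.mp (Φ.mem (ℓ * t) _ hx))) h1 t
  simp only [mul_zero, Φ.zero _ hx] at h2
  exact h2.symm

theorem E_smul {p : ℂ} (hp : p ∈ UHP) (w : ℂ) (ℓ : ℝ) : Φ.E p (ℓ • w) = (Φ.G ℓ (p, w)).1 := by
  rw [E, Φ.G_scale hp]
  simp

theorem _root_.Knieper.Frame.IsGeod.E_eq (Φ : GeoFlow F) {c w : ℝ → ℂ} (h : F.IsGeod c w)
    (u : ℝ) : Φ.E (c 0) (u • w 0) = c u := by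
  rw [Φ.E_smul (h.mem 0), ← h.eq_flow Φ u]

end GeoFlow

/-- Two geodesics through the same two points agree. -/
theorem IsGeod.unique (Φ : GeoFlow F) (hF : F.Bdd κ) (hK : ∀ z ∈ UHP, F.K z ≤ 0)
    {c₁ w₁ c₂ w₂ : ℝ → ℂ} (h₁ : F.IsGeod c₁ w₁) (h₂ : F.IsGeod c₂ w₂) {ℓ : ℝ} (hℓ : ℓ ≠ 0)
    (h0 : c₁ 0 = c₂ 0) (h1 : c₁ ℓ = c₂ ℓ) (t : ℝ) : c₁ t = c₂ t := by
  have e : Φ.E (c₁ 0) (ℓ • w₁ 0) = Φ.E (c₁ 0) (ℓ • w₂ 0) := by
    rw [h₁.E_eq Φ ℓ, h1, h0, h₂.E_eq Φ ℓ]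
  have e2 := Φ.E_injective hF hK (h₁.mem 0) e
  have e3 : w₁ 0 = w₂ 0 := smul_right_injective ℂ hℓ e2
  have e4 := h₁.eq_flow Φ t
  have e5 := h₂.eq_flow Φ t
  rw [h0, e3, ← e5] at e4
  exact (Prod.ext_iff.mp e4).1

/-- Geodesics are injective. -/
theorem IsGeod.injective (Φ : GeoFlow F) (hF : F.Bdd κ) (hK : ∀ z ∈ UHP, F.K z ≤ 0)
    {c w : ℝ → ℂ} (h : F.IsGeod c w) : Function.Injective c := by
  have key : ∀ {c w : ℝ → ℂ}, F.IsGeod c w → ∀ u, c u = c 0 → u = 0 := by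
    intro c w h u hu
    have e : Φ.E (c 0) (u • w 0) = Φ.E (c 0) 0 := by
      rw [h.E_eq Φ u, Φ.E_zero (h.mem 0), hu]
    have e2 := Φ.E_injective hF hK (h.mem 0) e
    rcases smul_eq_zero.mp e2 with h3 | h3
    · exact h3
    · have := h.unit 0
      rw [h3, norm_zero] at this
      norm_num at this
  intro s t hst
  have := key (h.shift t) (s - t) (by simpa using hst)
  linarith

/-- Geodesics are (coarsely, locally) minimising. -/
theorem IsGeod.min_le (Φ : GeoFlow F) (hF : F.Bdd κ) (hK : ∀ z ∈ UHP, F.K z ≤ 0)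
    {c w : ℝ → ℂ} (h : F.IsGeod c w) (u : ℝ) :
    |u| * min (c 0).im (c u).im ≤ κ * ‖c u - c 0‖ := by
  set p := c 0 with hp
  set q := c u with hq
  have hpm : p ∈ UHP := h.mem 0
  have hqm : q ∈ UHP := h.mem u
  have hp0 : 0 < p.im := hpm
  have hq0 : 0 < q.im := hqm
  set m := min p.im q.im with hm
  have hm0 : 0 < m := lt_min hp0 hq0
  have him : ∀ t ∈ Icc (0 : ℝ) 1, m ≤ (p + t • (q - p)).im := by
    intro t ht
    have h1 : (p + t • (q - p)).im = (1 - t) * p.im + t * q.im := by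
      simp [Complex.add_im, Complex.sub_im]; ring
    rw [h1]
    have h2 : m ≤ p.im := min_le_left _ _
    have h3 : m ≤ q.im := min_le_right _ _
    nlinarith [ht.1, ht.2]
  have hmem : ∀ t ∈ Icc (0 : ℝ) 1, (p + t • (q - p)) ∈ UHP := fun t ht =>
    lt_of_lt_of_le hm0 (him t ht)
  have hd : ∀ t : ℝ, HasDerivAt (fun t : ℝ => p + t • (q - p)) (q - p) t := fun t => by
    simpa using ((hasDerivAt_id t).smul_const (q - p)).const_add p
  obtain ⟨v, hv1, hv2, hv3, hv4⟩ := Φ.exists_lift hF hK hpm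
    (γ := fun t : ℝ => p + t • (q - p)) (γ' := fun _ => q - p) hmem
    (fun t _ => hd t) continuousOn_const (by simp) (M := κ * ‖q - p‖ / m) (fun t ht => by
      have h1 := hF.up _ (hmem t ht) (q - p)
      rw [le_div_iff₀ hm0, mul_comm]
      refine le_trans ?_ h1
      gcongr
      exact him t ht)
  have h2 : Φ.E p (v 1) = q := by
    rw [hv3 1 ⟨zero_le_one, le_rfl⟩]
    simp
  have h3 : Φ.E p (u • w 0) = q := h.E_eq Φ u
  have h4 : v 1 = u • w 0 := Φ.E_injective hF hK hpm (h2.trans h3.symm)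
  rw [h4, norm_smul, h.unit 0, mul_one, Real.norm_eq_abs, le_div_iff₀ hm0] at hv4
  exact hv4

/-- Points of `UHP` as elements of `ℍ`. -/
def toH (z : ℂ) (hz : z ∈ UHP) : ℍ := ⟨z, hz⟩

theorem IsGeod.min_le_dist (Φ : GeoFlow F) (hF : F.Bdd κ) (hK : ∀ z ∈ UHP, F.K z ≤ 0)
    {c w : ℝ → ℂ} (h : F.IsGeod c w) (s u : ℝ)
    (hd : dist (toH (c s) (h.mem s)) (toH (c u) (h.mem u)) ≤ 1) :
    |u - s| ≤ 6 * κ * dist (toH (c s) (h.mem s)) (toH (c u) (h.mem u)) := by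
  set P := toH (c s) (h.mem s) with hP
  set Q := toH (c u) (h.mem u) with hQ
  set d := dist P Q with hd'
  have h1 := (h.shift s).min_le Φ hF hK (u - s)
  simp only [zero_add, sub_add_cancel] at h1
  have hPc : (P : ℂ) = c s := rfl
  have hQc : (Q : ℂ) = c u := rfl
  have hP0 : 0 < P.im := P.im_pos
  have h2 : ‖c u - c s‖ ≤ P.im * (Real.exp d - 1) := by
    have := dist_coe_le Q P
    rw [dist_comm Q P, dist_eq_norm] at this
    exact this
  have h3 : P.im / Real.exp d ≤ Q.im := im_div_exp_dist_le P Q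
  have hd0 : 0 ≤ d := dist_nonneg
  have hexp : Real.exp d ≤ 1 + 2 * d := by
    have h5 := Real.exp_bound' hd0 hd (n := 2) (by norm_num)
    norm_num [Finset.sum_range_succ] at h5
    nlinarith
  have hexp3 : Real.exp d ≤ 3 := by linarith
  have hmin : P.im / 3 ≤ min (c s).im (c u).im := by
    refine le_min ?_ ?_
    · change P.im / 3 ≤ P.im; linarith
    · change P.im / 3 ≤ Q.im
      refine le_trans ?_ h3
      gcongr
  have hκ : 0 < κ := lt_of_lt_of_le one_pos hF.one_le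
  have h6 : |u - s| * (P.im / 3) ≤ κ * (P.im * (2 * d)) := by
    calc |u - s| * (P.im / 3) ≤ |u - s| * min (c s).im (c u).im := by gcongr
      _ ≤ κ * ‖c u - c s‖ := h1
      _ ≤ κ * (P.im * (Real.exp d - 1)) := by gcongr
      _ ≤ κ * (P.im * (2 * d)) := by gcongr; linarith
  have h7 : |u - s| * P.im ≤ (6 * κ * d) * P.im := by nlinarith
  exact le_of_mul_le_mul_right h7 hP0

end Frame

end Knieper
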