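import Pool.Agent.Knieper.Defs

/-!
# Group facts: displacement and centralizers
-/

noncomputable section

open Complex UpperHalfPlane Matrix Set
open scoped MatrixGroups

namespace Knieper

/-! ## Displacement -/

theorem displacement : DisplacementStatement := by
  intro Γ hΓ
  obtain ⟨K, hK, hcov⟩ := hΓ.cocompact
  have hK1 : IsCompact (Metric.cthickening 1 K) := hK.cthickening
  have hfin := hΓ.proper _ hK1
  have h1 : ∀ γ ∈ Γ, γ ≠ 1 → ∃ δ : ℝ, 0 < δ ∧ ∀ z ∈ K, δ ≤ dist z (γ • z) := by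
    intro γ hγ h1
    rcases K.eq_empty_or_nonempty with rfl | hne
    · exact ⟨1, one_pos, by simp⟩
    · have hcont : Continuous fun z : ℍ => dist z (γ • z) :=
        continuous_id.dist (continuous_const_smul γ)
      obtain ⟨z0, hz0, hmin⟩ := hK.exists_isMinOn hne hcont.continuousOn
      exact ⟨dist z0 (γ • z0), dist_pos.2 fun h => h1 (hΓ.free γ hγ z0 h.symm),
        fun z hz => hmin hz⟩
  have h2 : ∀ F : Set SL(2, ℝ), F.Finite → ∃ δ : ℝ, 0 < δ ∧ δ ≤ 1 ∧ ∀ γ ∈ F, γ ∈ Γ → γ ≠ 1 →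
      ∀ z ∈ K, δ ≤ dist z (γ • z) := by
    intro F hF
    induction F, hF using Set.Finite.induction_on with
    | empty => exact ⟨1, one_pos, le_rfl, by simp⟩
    | @insert γ F _ _ ih =>
      obtain ⟨δ, hδ, hδ1, ih⟩ := ih
      by_cases hγ : γ ∈ Γ ∧ γ ≠ 1
      · obtain ⟨δ', hδ', h'⟩ := h1 γ hγ.1 hγ.2
        refine ⟨min δ δ', lt_min hδ hδ', (min_le_left _ _).trans hδ1, ?_⟩
        intro γ' hγ' h3 h4 z hz
        rcases hγ' with rfl | hγ'
        · exact (min_le_right _ _).trans (h' z hz)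
        · exact (min_le_left _ _).trans (ih γ' hγ' h3 h4 z hz)
      · refine ⟨δ, hδ, hδ1, ?_⟩
        intro γ' hγ' h3 h4 z hz
        rcases hγ' with rfl | hγ'
        · exact absurd ⟨h3, h4⟩ hγ
        · exact ih γ' hγ' h3 h4 z hz
  obtain ⟨δ, hδ, hδ1, h3⟩ := h2 _ hfin
  have h4 : ∀ γ ∈ Γ, γ ≠ 1 → ∀ z ∈ K, δ ≤ dist z (γ • z) := by
    intro γ hγ hne z hz
    by_cases hlt : dist z (γ • z) < 1
    · refine h3 γ ⟨hγ, z, Metric.self_subset_cthickening K hz, ?_⟩ hγ hne z hz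
      exact Metric.mem_cthickening_of_dist_le _ z 1 K hz (by rw [dist_comm]; exact hlt.le)
    · exact hδ1.trans (not_lt.1 hlt)
  refine ⟨δ, hδ, fun γ hγ hne z => ?_⟩
  obtain ⟨h, hh, hz⟩ := hcov z
  have h5 : h * γ * h⁻¹ ≠ 1 := by
    intro h6
    apply hne
    have : γ = h⁻¹ * (h * γ * h⁻¹) * h := by group
    rw [this, h6]; group
  have h6 := h4 (h * γ * h⁻¹) (Γ.mul_mem (Γ.mul_mem hh hγ) (Γ.inv_mem hh)) h5 (h • z) hz
  have h7 : (h * γ * h⁻¹) • h • z = h • γ • z := by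
    rw [smul_smul, smul_smul]
    congr 1
    group
  rw [h7, dist_smul] at h6
  exact h6

/-! ## Diagonalization -/

/-- a matrix of determinant one -/
def mkSL (a b c d : ℝ) (h : a * d - b * c = 1) : SL(2, ℝ) :=
  ⟨!![a, b; c, d], by rw [Matrix.det_fin_two_of]; exact h⟩

lemma mkSL_00 (a b c d : ℝ) (h : a * d - b * c = 1) : mkSL a b c d h 0 0 = a := rfl
lemma mkSL_01 (a b c d : ℝ) (h : a * d - b * c = 1) : mkSL a b c d h 0 1 = b := rfl
lemma mkSL_10 (a b c d : ℝ) (h : a * d - b * c = 1) : mkSL a b c d h 1 0 = c := rfl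
lemma mkSL_11 (a b c d : ℝ) (h : a * d - b * c = 1) : mkSL a b c d h 1 1 = d := rfl

lemma det_eq (γ : SL(2, ℝ)) : γ 0 0 * γ 1 1 - γ 0 1 * γ 1 0 = 1 := by
  have h := Matrix.SpecialLinearGroup.det_coe γ
  rw [Matrix.det_fin_two] at h
  exact h

lemma sl_ext {x y : SL(2, ℝ)} (h00 : x 0 0 = y 0 0) (h01 : x 0 1 = y 0 1) (h10 : x 1 0 = y 1 0)
    (h11 : x 1 1 = y 1 1) : x = y := by
  apply Subtype.ext
  ext i j
  fin_cases i <;> fin_cases j
  · exact h00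
  · exact h01
  · exact h10
  · exact h11

lemma mul_apply' (x y : SL(2, ℝ)) (i j : Fin 2) :
    (x * y) i j = x i 0 * y 0 j + x i 1 * y 1 j := by
  show ((x : Matrix (Fin 2) (Fin 2) ℝ) * (y : Matrix (Fin 2) (Fin 2) ℝ)) i j = _
  rw [Matrix.mul_apply, Fin.sum_univ_two]

/-- the diagonal matrices in `SL(2,ℝ)` -/
def dgh : ℝˣ →* SL(2, ℝ) where
  toFun u := mkSL (u : ℝ) 0 0 ((u⁻¹ : ℝˣ) : ℝ) (by simp)
  map_one' := by
    apply sl_ext
    · rw [mkSL_00]; simp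
    · rw [mkSL_01]; simp
    · rw [mkSL_10]; simp
    · rw [mkSL_11]; simp
  map_mul' u v := by
    apply sl_ext <;> rw [mul_apply']
    · simp only [mkSL_00, mkSL_01, mkSL_10]; simp
    · simp only [mkSL_00, mkSL_01, mkSL_11]; simp
    · simp only [mkSL_00, mkSL_10, mkSL_11]; simp
    · simp only [mkSL_01, mkSL_10, mkSL_11]; simp [mul_comm]

lemma dgh_00 (u : ℝˣ) : (dgh u) 0 0 = (u : ℝ) := rfl
lemma dgh_01 (u : ℝˣ) : (dgh u) 0 1 = 0 := rfl
lemma dgh_10 (u : ℝˣ) : (dgh u) 1 0 = 0 := rfl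
lemma dgh_11 (u : ℝˣ) : (dgh u) 1 1 = ((u⁻¹ : ℝˣ) : ℝ) := rfl

lemma coe_smul' (γ : SL(2, ℝ)) (z : ℍ) : ((γ • z : ℍ) : ℂ) =
    ((γ 0 0 : ℂ) * z + (γ 0 1 : ℂ)) / ((γ 1 0 : ℂ) * z + (γ 1 1 : ℂ)) := by
  rw [coe_specialLinearGroup_apply]
  rfl

lemma denom_ne (γ : SL(2, ℝ)) (z : ℍ) : (γ 1 0 : ℂ) * z + (γ 1 1 : ℂ) ≠ 0 := by
  intro h
  have h1 := congrArg Complex.re h
  have h2 := congrArg Complex.im h
  simp at h1 h2
  have hz : z.im ≠ 0 := z.im_pos.ne'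
  rcases h2 with h2 | h2
  · have hd := det_eq γ
    rw [h2] at h1 hd
    simp at h1
    rw [h1] at hd
    simp at hd
  · exact hz h2

/-- elliptic elements have fixed points -/
lemma exists_fixed {γ : SL(2, ℝ)} (ht : (γ 0 0 + γ 1 1) ^ 2 < 4) : ∃ z : ℍ, γ • z = z := by
  have hd := det_eq γ
  set p := γ 0 0
  set q := γ 0 1
  set r := γ 1 0
  set s := γ 1 1
  have hr : r ≠ 0 := by
    rintro hr
    rw [hr] at hd
    nlinarith [sq_nonneg (p - s)]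
  have hsq : 0 < 4 - (p + s) ^ 2 := by linarith
  set y := Real.sqrt (4 - (p + s) ^ 2) / (2 * |r|) with hy
  have hy0 : 0 < y := by
    have := Real.sqrt_pos.2 hsq
    have : 0 < |r| := abs_pos.2 hr
    positivity
  set x := (p - s) / (2 * r) with hx
  refine ⟨⟨⟨x, y⟩, hy0⟩, ?_⟩
  have hy2 : y ^ 2 = (4 - (p + s) ^ 2) / (4 * r ^ 2) := by
    rw [hy, div_pow, Real.sq_sqrt hsq.le, mul_pow, sq_abs]
    ring
  apply UpperHalfPlane.ext
  rw [coe_smul']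
  rw [div_eq_iff (denom_ne γ _)]
  have e1 : 2 * r * x = p - s := by rw [hx]; field_simp
  have e2 : r * (x ^ 2 - y ^ 2) + (s - p) * x - q = 0 := by
    rw [hy2, hx]
    field_simp
    nlinarith [hd]
  apply Complex.ext
  · show (γ 0 0 * x - 0 * y + γ 0 1 : ℝ) = x * (γ 1 0 * x - 0 * y + γ 1 1) -
      y * (γ 1 0 * y + 0 * x + 0)
    show p * x - 0 * y + q = x * (r * x - 0 * y + s) - y * (r * y + 0 * x + 0)
    linarith
  · show (γ 0 0 * y + 0 * x + 0 : ℝ) = x * (γ 1 0 * y + 0 * x + 0) +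
      y * (γ 1 0 * x - 0 * y + γ 1 1)
    show p * y + 0 * x + 0 = x * (r * y + 0 * x + 0) + y * (r * x - 0 * y + s)
    have : y * (2 * r * x) = y * (p - s) := by rw [e1]
    linarith

/-- bound for the displacement -/
lemma dist_smul_le (γ : SL(2, ℝ)) (z : ℍ) : dist z (γ • z) ≤
    ‖(γ 1 0 : ℂ) * z ^ 2 + ((γ 1 1 : ℂ) - γ 0 0) * z - γ 0 1‖ / z.im := by
  have hd := denom_ne γ z
  set D : ℂ := (γ 1 0 : ℂ) * z + (γ 1 1 : ℂ) with hD
  have hz := z.im_pos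
  have hDn : 0 < ‖D‖ := norm_pos_iff.2 hd
  have h1 : dist (z : ℂ) (γ • z : ℍ) =
      ‖(γ 1 0 : ℂ) * z ^ 2 + ((γ 1 1 : ℂ) - γ 0 0) * z - γ 0 1‖ / ‖D‖ := by
    rw [dist_eq_norm, coe_smul', ← norm_div]
    congr 1
    rw [← hD]
    field_simp
    rw [hD]
    ring
  have h2 : (γ • z).im = z.im / ‖D‖ ^ 2 := by
    have h3 : (γ • z).im = ((γ • z : ℍ) : ℂ).im := rfl
    rw [h3, coe_smul', ← hD]
    have h4 : ((γ 0 0 : ℂ) * z + (γ 0 1 : ℂ)) / D =
        (((γ 0 0 : ℂ) * z + (γ 0 1 : ℂ)) * (starRingEnd ℂ) D) / ((‖D‖ ^ 2 : ℝ) : ℂ) := by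
      rw [← Complex.normSq_eq_norm_sq, Complex.normSq_eq_conj_mul_self]
      have : (starRingEnd ℂ) D ≠ 0 := by simpa using hd
      field_simp
    rw [h4, Complex.div_ofReal_im]
    congr 1
    rw [hD]
    simp
    have hdet := det_eq γ
    have hre : (z : ℂ).re = z.re := rfl
    have him : (z : ℂ).im = z.im := rfl
    nlinarith [hdet]
  have h3 : Real.sinh (dist z (γ • z) / 2) =
      ‖(γ 1 0 : ℂ) * z ^ 2 + ((γ 1 1 : ℂ) - γ 0 0) * z - γ 0 1‖ / (2 * z.im) := by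
    rw [UpperHalfPlane.sinh_half_dist, h1, h2]
    have h5 : z.im * (z.im / ‖D‖ ^ 2) = (z.im / ‖D‖) ^ 2 := by
      field_simp
    rw [h5, Real.sqrt_sq (by positivity)]
    field_simp
  have h4 : dist z (γ • z) / 2 ≤ Real.sinh (dist z (γ • z) / 2) :=
    Real.self_le_sinh_iff.2 (by positivity)
  rw [h3] at h4
  have h5 : ‖(γ 1 0 : ℂ) * z ^ 2 + ((γ 1 1 : ℂ) - γ 0 0) * z - γ 0 1‖ / (2 * z.im) =
    (‖(γ 1 0 : ℂ) * z ^ 2 + ((γ 1 1 : ℂ) - γ 0 0) * z - γ 0 1‖ / z.im) / 2 := by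
    field_simp
  rw [h5] at h4
  linarith

lemma neg_one_notMem {Γ : Subgroup SL(2, ℝ)} (hΓ : IsSurfaceGroup Γ) : (-1 : SL(2, ℝ)) ∉ Γ := by
  intro h
  have h1 := hΓ.free (-1) h UpperHalfPlane.I (by
    apply UpperHalfPlane.ext
    rw [coe_smul']
    simp)
  have h2 : (-1 : SL(2, ℝ)) 0 0 = (1 : SL(2, ℝ)) 0 0 := by rw [h1]
  simp at h2
  norm_num at h2

/-- no parabolic elements -/
lemma trace_sq_ne {Γ : Subgroup SL(2, ℝ)} (hΓ : IsSurfaceGroup Γ) {γ : SL(2, ℝ)} (hγ : γ ∈ Γ)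
    (h1 : γ ≠ 1) : (γ 0 0 + γ 1 1) ^ 2 ≠ 4 := by
  intro ht
  obtain ⟨δ, hδ, hdisp⟩ := displacement Γ hΓ
  have hd := det_eq γ
  by_cases hr : γ 1 0 = 0
  · rw [hr] at hd
    have h2 : γ 0 0 = γ 1 1 := by
      have : (γ 0 0 - γ 1 1) ^ 2 = 0 := by nlinarith
      have := pow_eq_zero_iff (two_ne_zero) |>.1 this
      linarith
    -- choose a point far up
    set y : ℝ := 2 * |γ 0 1| / δ + 1 with hy
    have hy0 : 0 < y := by positivity
    have h3 := dist_smul_le γ ⟨⟨0, y⟩, hy0⟩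
    have h4 := hdisp γ hγ h1 ⟨⟨0, y⟩, hy0⟩
    rw [hr, h2] at h3
    have h5 : ‖((0 : ℝ) : ℂ) * ((⟨⟨0, y⟩, hy0⟩ : ℍ) : ℂ) ^ 2 +
        ((γ 1 1 : ℂ) - (γ 1 1 : ℝ)) * ((⟨⟨0, y⟩, hy0⟩ : ℍ) : ℂ) - (γ 0 1 : ℝ)‖ = |γ 0 1| := by
      simp
    rw [h5] at h3
    have h6 : |γ 0 1| / (⟨⟨0, y⟩, hy0⟩ : ℍ).im < δ := by
      show |γ 0 1| / y < δ
      rw [div_lt_iff₀ hy0, hy]
      have : δ * (2 * |γ 0 1| / δ + 1) = 2 * |γ 0 1| + δ := by field_simp
      rw [this]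
      have := abs_nonneg (γ 0 1)
      linarith
    linarith
  · -- choose a point near the real fixed point
    set x : ℝ := (γ 0 0 - γ 1 1) / (2 * γ 1 0) with hx
    set y : ℝ := δ / (2 * |γ 1 0|) with hy
    have hr0 : 0 < |γ 1 0| := abs_pos.2 hr
    have hy0 : 0 < y := by positivity
    have h3 := dist_smul_le γ ⟨⟨x, y⟩, hy0⟩
    have h4 := hdisp γ hγ h1 ⟨⟨x, y⟩, hy0⟩
    have h5 : (γ 1 0 : ℂ) * ((⟨⟨x, y⟩, hy0⟩ : ℍ) : ℂ) ^ 2 +
        ((γ 1 1 : ℂ) - (γ 0 0 : ℝ)) * ((⟨⟨x, y⟩, hy0⟩ : ℍ) : ℂ) - (γ 0 1 : ℝ) =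
        ((-(γ 1 0 * y ^ 2) : ℝ) : ℂ) := by
      have e1 : 2 * γ 1 0 * x = γ 0 0 - γ 1 1 := by rw [hx]; field_simp
      have e2 : γ 1 0 * x ^ 2 + (γ 1 1 - γ 0 0) * x - γ 0 1 = 0 := by
        rw [hx]
        field_simp
        nlinarith
      have e3 : (((⟨⟨x, y⟩, hy0⟩ : ℍ) : ℂ)) = (x : ℂ) + (y : ℂ) * Complex.I := by
        apply Complex.ext <;> simp
      rw [e3]
      have e4 : ((γ 1 0 * x ^ 2 + (γ 1 1 - γ 0 0) * x - γ 0 1 : ℝ) : ℂ) = 0 := by rw [e2]; simp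
      have e5 : ((2 * γ 1 0 * x - (γ 0 0 - γ 1 1) : ℝ) : ℂ) = 0 := by rw [e1]; simp
      push_cast at e4 e5 ⊢
      have hI := Complex.I_sq
      linear_combination e4 + (y : ℂ) * Complex.I * e5 + (γ 1 0 : ℂ) * y ^ 2 * hI
    rw [h5, Complex.norm_real, Real.norm_eq_abs, abs_neg, abs_mul, abs_of_nonneg (sq_nonneg y)]
      at h3
    have h6 : |γ 1 0| * y ^ 2 / (⟨⟨x, y⟩, hy0⟩ : ℍ).im < δ := by
      show |γ 1 0| * y ^ 2 / y < δ
      have : |γ 1 0| * y ^ 2 / y = δ / 2 := by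
        rw [hy]; field_simp
      rw [this]
      linarith
    linarith

/-- hyperbolic matrices are diagonalizable -/
lemma exists_conj {γ : SL(2, ℝ)} (ht : 4 < (γ 0 0 + γ 1 1) ^ 2) :
    ∃ (h : SL(2, ℝ)) (a : ℝˣ), γ = h * dgh a * h⁻¹ ∧ (a : ℝ) ^ 2 ≠ 1 := by
  have hd := det_eq γ
  obtain ⟨h, a, h1, h2⟩ : ∃ (h : SL(2, ℝ)) (a : ℝˣ), γ * h = h * dgh a ∧ (a : ℝ) ^ 2 ≠ 1 := by
    by_cases hr : γ 1 0 = 0
    · rw [hr] at hd
      have hps : γ 0 0 * γ 1 1 = 1 := by linarith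
      have hp : γ 0 0 ≠ 0 := left_ne_zero_of_mul_eq_one hps
      have hs : γ 1 1 = (γ 0 0)⁻¹ := eq_inv_of_mul_eq_one_right hps
      have hp2 : (γ 0 0) ^ 2 ≠ 1 := by
        intro h
        have h3 : γ 0 0 * (γ 0 0 - γ 1 1) = 0 := by nlinarith
        rcases mul_eq_zero.1 h3 with h4 | h4
        · exact hp h4
        · have : γ 1 1 = γ 0 0 := by linarith
          rw [this] at ht
          nlinarith
      have hne : γ 0 0 - (γ 0 0)⁻¹ ≠ 0 := by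
        intro h
        apply hp2
        have : γ 0 0 * (γ 0 0 - (γ 0 0)⁻¹) = 0 := by rw [h, mul_zero]
        rw [mul_sub, mul_inv_cancel₀ hp] at this
        linarith
      refine ⟨mkSL 1 (-(γ 0 1) / (γ 0 0 - (γ 0 0)⁻¹)) 0 1 (by ring),
        Units.mk0 _ hp, ?_, hp2⟩
      apply sl_ext <;> rw [mul_apply', mul_apply'] <;>
        simp only [mkSL_00, mkSL_01, mkSL_10, mkSL_11, dgh_00, dgh_01, dgh_10, dgh_11,
          Units.val_inv_eq_inv_val, Units.val_mk0]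
      · ring
      · have h5 : γ 0 0 * (-(γ 0 1) / (γ 0 0 - (γ 0 0)⁻¹)) + γ 0 1 =
            (-(γ 0 1) / (γ 0 0 - (γ 0 0)⁻¹)) * (γ 0 0)⁻¹ := by
          have h6 : -(γ 0 1) / (γ 0 0 - (γ 0 0)⁻¹) * (γ 0 0 - (γ 0 0)⁻¹) = -(γ 0 1) :=
            div_mul_cancel₀ _ hne
          linarith
        linarith
      · rw [hr]; ring
      · rw [hr, hs]; ring
    · set t := γ 0 0 + γ 1 1 with htdef
      set a := (t + Real.sqrt (t ^ 2 - 4)) / 2 with ha
      have hsq : Real.sqrt (t ^ 2 - 4) ^ 2 = t ^ 2 - 4 := Real.sq_sqrt (by linarith)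
      have haq : a ^ 2 - t * a + 1 = 0 := by
        rw [ha]
        nlinarith
      have ha0 : a ≠ 0 := by
        rintro h
        rw [h] at haq
        norm_num at haq
      have hinv : a⁻¹ = t - a := by
        rw [inv_eq_iff_eq_inv, eq_comm, inv_eq_iff_eq_inv]
        have : a * (t - a) = 1 := by linarith
        exact eq_inv_of_mul_eq_one_right this |>.symm ▸ rfl
      have ha2 : a ^ 2 ≠ 1 := by
        intro h
        have h3 : t * a = 2 := by linarith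
        have h4 : (t * a) ^ 2 = 4 := by rw [h3]; norm_num
        rw [mul_pow, h, mul_one] at h4
        linarith
      have hne : a - a⁻¹ ≠ 0 := by
        intro h
        apply ha2
        have : a * (a - a⁻¹) = 0 := by rw [h, mul_zero]
        rw [mul_sub, mul_inv_cancel₀ ha0] at this
        linarith
      have hdd : γ 1 0 * (a - a⁻¹) ≠ 0 := mul_ne_zero hr hne
      refine ⟨mkSL (a - γ 1 1) ((a⁻¹ - γ 1 1) / (γ 1 0 * (a - a⁻¹))) (γ 1 0)
        (γ 1 0 / (γ 1 0 * (a - a⁻¹))) ?_, Units.mk0 a ha0, ?_, ha2⟩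
      · have h5 : (a - γ 1 1) * (γ 1 0 / (γ 1 0 * (a - a⁻¹))) -
            (a⁻¹ - γ 1 1) / (γ 1 0 * (a - a⁻¹)) * γ 1 0 =
            (γ 1 0 * (a - a⁻¹)) / (γ 1 0 * (a - a⁻¹)) := by ring
        rw [h5, div_self hdd]
      · have e1 : γ 0 0 * (a - γ 1 1) + γ 0 1 * γ 1 0 = (a - γ 1 1) * a := by
          rw [htdef] at haq
          linear_combination (-1) * haq - hd
        have e2 : γ 0 0 * (a⁻¹ - γ 1 1) + γ 0 1 * γ 1 0 = (a⁻¹ - γ 1 1) * a⁻¹ := by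
          have h5 : (a⁻¹) ^ 2 - t * a⁻¹ + 1 = 0 := by
            rw [hinv]
            linear_combination haq
          rw [htdef] at h5
          linear_combination (-1) * h5 - hd
        apply sl_ext <;> rw [mul_apply', mul_apply'] <;>
          simp only [mkSL_00, mkSL_01, mkSL_10, mkSL_11, dgh_00, dgh_01, dgh_10, dgh_11,
            Units.val_inv_eq_inv_val, Units.val_mk0]
        · linarith
        · have h5 : γ 0 0 * ((a⁻¹ - γ 1 1) / (γ 1 0 * (a - a⁻¹))) +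
              γ 0 1 * (γ 1 0 / (γ 1 0 * (a - a⁻¹))) =
              (γ 0 0 * (a⁻¹ - γ 1 1) + γ 0 1 * γ 1 0) / (γ 1 0 * (a - a⁻¹)) := by ring
          rw [h5, e2]
          ring
        · ring
        · ring
  refine ⟨h, a, ?_, h2⟩
  rw [← h1]
  group

lemma commute_dgh {a : ℝˣ} (ha : (a : ℝ) ^ 2 ≠ 1) {x : SL(2, ℝ)} (hx : x * dgh a = dgh a * x) :
    ∃ b : ℝˣ, x = dgh b := by
  have h01 : (x * dgh a) 0 1 = (dgh a * x) 0 1 := by rw [hx]
  have h10 : (x * dgh a) 1 0 = (dgh a * x) 1 0 := by rw [hx]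
  rw [mul_apply', mul_apply'] at h01 h10
  simp only [dgh_00, dgh_01, dgh_10, dgh_11, mul_zero, zero_add, zero_mul, add_zero,
    Units.val_inv_eq_inv_val] at h01 h10
  have ha0 : (a : ℝ) ≠ 0 := a.ne_zero
  have hne : (a : ℝ) - (a : ℝ)⁻¹ ≠ 0 := by
    intro h
    apply ha
    have : (a : ℝ) * ((a : ℝ) - (a : ℝ)⁻¹) = 0 := by rw [h, mul_zero]
    rw [mul_sub, mul_inv_cancel₀ ha0] at this
    linarith
  have hx01 : x 0 1 = 0 := by
    have : x 0 1 * ((a : ℝ) - (a : ℝ)⁻¹) = 0 := by linarith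
    rcases mul_eq_zero.1 this with h | h
    · exact h
    · exact absurd h hne
  have hx10 : x 1 0 = 0 := by
    have : x 1 0 * ((a : ℝ) - (a : ℝ)⁻¹) = 0 := by linarith
    rcases mul_eq_zero.1 this with h | h
    · exact h
    · exact absurd h hne
  have hd := det_eq x
  rw [hx01, zero_mul, sub_zero] at hd
  have h0 : x 0 0 ≠ 0 := left_ne_zero_of_mul_eq_one hd
  refine ⟨Units.mk0 _ h0, sl_ext rfl hx01 hx10 ?_⟩
  rw [dgh_11, Units.val_inv_eq_inv_val, Units.val_mk0]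
  exact eq_inv_of_mul_eq_one_right hd

/-- Nontrivial elements of a surface group are hyperbolic. -/
theorem exists_diag {Γ : Subgroup SL(2, ℝ)} (hΓ : IsSurfaceGroup Γ) {γ : SL(2, ℝ)} (hγ : γ ∈ Γ)
    (h1 : γ ≠ 1) : ∃ (h : SL(2, ℝ)) (a : ℝˣ), γ = h * dgh a * h⁻¹ ∧ (a : ℝ) ^ 2 ≠ 1 ∧
      ∀ x : SL(2, ℝ), x * γ = γ * x → ∃ b : ℝˣ, x = h * dgh b * h⁻¹ := by
  have ht : 4 < (γ 0 0 + γ 1 1) ^ 2 := by
    rcases lt_trichotomy ((γ 0 0 + γ 1 1) ^ 2) 4 with h | h | h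
    · obtain ⟨z, hz⟩ := exists_fixed h
      exact absurd (hΓ.free γ hγ z hz) h1
    · exact absurd h (trace_sq_ne hΓ hγ h1)
    · exact h
  obtain ⟨h, a, h2, h3⟩ := exists_conj ht
  refine ⟨h, a, h2, h3, fun x hx => ?_⟩
  obtain ⟨b, hb⟩ := commute_dgh h3 (x := h⁻¹ * x * h) (by
    have e1 : dgh a = h⁻¹ * γ * h := by rw [h2]; group
    rw [e1]
    calc h⁻¹ * x * h * (h⁻¹ * γ * h) = h⁻¹ * (x * γ) * h := by group
      _ = h⁻¹ * (γ * x) * h := by rw [hx]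
      _ = _ := by group)
  exact ⟨b, by rw [← hb]; group⟩

lemma dgh_smul (b : ℝˣ) (z : ℍ) : ((dgh b • z : ℍ) : ℂ) = (((b : ℝ) ^ 2 : ℝ) : ℂ) * z := by
  rw [coe_smul', dgh_00, dgh_01, dgh_10, dgh_11]
  have hb : ((b : ℝ) : ℂ) ≠ 0 := by exact_mod_cast b.ne_zero
  rw [Units.val_inv_eq_inv_val]
  push_cast
  field_simp
  ring

lemma dist_dgh (b : ℝˣ) : dist UpperHalfPlane.I (dgh b • UpperHalfPlane.I) = 2 * |Real.log b| := by
  have h := dgh_smul b UpperHalfPlane.I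
  have hre : (dgh b • UpperHalfPlane.I).re = 0 := by
    have : (dgh b • UpperHalfPlane.I).re = ((dgh b • UpperHalfPlane.I : ℍ) : ℂ).re := rfl
    rw [this, h, Complex.re_ofReal_mul]; simp
  have him : (dgh b • UpperHalfPlane.I).im = (b : ℝ) ^ 2 := by
    have : (dgh b • UpperHalfPlane.I).im = ((dgh b • UpperHalfPlane.I : ℍ) : ℂ).im := rfl
    rw [this, h, Complex.im_ofReal_mul]; simp
  rw [UpperHalfPlane.dist_of_re_eq (by rw [hre]; rfl), him]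
  have : UpperHalfPlane.I.im = 1 := rfl
  rw [this, Real.log_one, Real.dist_eq, zero_sub, abs_neg, Real.log_pow]
  push_cast
  rw [abs_mul, abs_two]

theorem centralizer : CentralizerStatement := by
  intro Γ hΓ γ hγ h1
  obtain ⟨δ, hδ, hdisp⟩ := displacement Γ hΓ
  obtain ⟨h, a, h2, h3, h4⟩ := exists_diag hΓ hγ h1
  set Ψ : ℝˣ →* SL(2, ℝ) := (MulAut.conj h).toMonoidHom.comp dgh with hΨ
  have hΨa : ∀ b, Ψ b = h * dgh b * h⁻¹ := fun b => rfl
  -- the group of logarithms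
  let H : AddSubgroup ℝ :=
    { carrier := {u | ∃ b : ℝˣ, Ψ b ∈ Γ ∧ u = Real.log b}
      zero_mem' := ⟨1, by rw [map_one]; exact Γ.one_mem, by simp⟩
      add_mem' := by
        rintro _ _ ⟨b, hb, rfl⟩ ⟨b', hb', rfl⟩
        exact ⟨b * b', by rw [map_mul]; exact Γ.mul_mem hb hb', by
          rw [Units.val_mul, Real.log_mul b.ne_zero b'.ne_zero]⟩
      neg_mem' := by
        rintro _ ⟨b, hb, rfl⟩
        exact ⟨b⁻¹, by rw [map_inv]; exact Γ.inv_mem hb, by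
          rw [Units.val_inv_eq_inv_val, Real.log_inv]⟩ }
  have hdisj : Disjoint (H : Set ℝ) (Set.Ioo 0 (δ / 2)) := by
    rw [Set.disjoint_left]
    rintro _ ⟨b, hb, rfl⟩ ⟨hu1, hu2⟩
    have hne : Ψ b ≠ 1 := by
      intro h5
      rw [hΨa] at h5
      have h6 : dgh b = 1 := by
        have : dgh b = h⁻¹ * (h * dgh b * h⁻¹) * h := by group
        rw [this, h5]; group
      have h7 : (dgh b) 0 0 = (1 : SL(2, ℝ)) 0 0 := by rw [h6]
      rw [dgh_00] at h7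
      have h8 : (b : ℝ) = 1 := by simpa using h7
      rw [h8, Real.log_one] at hu1
      exact lt_irrefl _ hu1
    have h5 := hdisp _ hb hne (h • UpperHalfPlane.I)
    have h6 : Ψ b • h • UpperHalfPlane.I = h • dgh b • UpperHalfPlane.I := by
      rw [hΨa, smul_smul, smul_smul]
      congr 1
      group
    rw [h6, dist_smul, dist_dgh, abs_of_pos hu1] at h5
    linarith
  obtain ⟨u0, hu0⟩ := AddSubgroup.cyclic_of_isolated_zero (half_pos hδ) hdisj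
  have hu0mem : u0 ∈ H := by rw [hu0]; exact AddSubgroup.mem_closure_singleton_self u0
  obtain ⟨b0, hb0, hb0'⟩ := hu0mem
  refine ⟨Ψ b0, hb0, fun x hx => ⟨fun hc => ?_, ?_⟩⟩
  · obtain ⟨b, hb⟩ := h4 x hc
    have hbH : Real.log b ∈ H := ⟨b, by rw [hΨa, ← hb]; exact hx, rfl⟩
    rw [hu0, AddSubgroup.mem_closure_singleton] at hbH
    obtain ⟨k, hk⟩ := hbH
    refine ⟨k, ?_⟩
    have h5 : Ψ (b * (b0 ^ k)⁻¹) ∈ Γ := by
      rw [map_mul, map_inv, map_zpow, hΨa b, ← hb]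
      exact Γ.mul_mem hx (Γ.inv_mem (Γ.zpow_mem hb0 k))
    have h6 : Real.log ((b * (b0 ^ k)⁻¹ : ℝˣ) : ℝ) = 0 := by
      rw [Units.val_mul, Units.val_inv_eq_inv_val, Real.log_mul b.ne_zero
        (inv_ne_zero (Units.ne_zero _)), Real.log_inv, Units.val_zpow_eq_zpow_val, Real.log_zpow,
        ← hk, ← hb0']
      simp
    have h7 : ((b * (b0 ^ k)⁻¹ : ℝˣ) : ℝ) = 1 ∨ ((b * (b0 ^ k)⁻¹ : ℝˣ) : ℝ) = -1 := by
      rcases Real.log_eq_zero.1 h6 with h8 | h8 | h8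
      · exact absurd h8 (Units.ne_zero _)
      · exact Or.inl h8
      · exact Or.inr h8
    have h8 : b * (b0 ^ k)⁻¹ = 1 := by
      rcases h7 with h8 | h8
      · exact Units.ext h8
      · exfalso
        have h9 : b * (b0 ^ k)⁻¹ = -1 := Units.ext (by rw [h8]; simp)
        rw [h9] at h5
        have h10 : Ψ (-1) = -1 := by
          rw [hΨa]
          have : dgh (-1) = -1 := by
            apply sl_ext
            · rw [dgh_00]; simp
            · rw [dgh_01]; simp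
            · rw [dgh_10]; simp
            · rw [dgh_11]; simp
          rw [this]
          simp
        rw [h10] at h5
        exact neg_one_notMem hΓ h5
    have h9 : b = b0 ^ k := mul_inv_eq_one.1 h8
    rw [hb, ← hΨa, h9, map_zpow]
  · rintro ⟨k, rfl⟩
    have h5 : γ = Ψ a := h2
    rw [h5, ← map_zpow, ← map_mul, ← map_mul, mul_comm]

end Knieper
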