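import Pool.Agent.Knieper.Close
import Pool.Agent.Knieper.Group

/-!
# Consequences of invariance under a cocompact group
-/

noncomputable section

open Set Filter Topology Metric Complex UpperHalfPlane
open scoped NNReal ContDiff unitInterval MatrixGroups

namespace Knieper

namespace Frame

/-- Möbius action on complex numbers. -/
def act (γ : SL(2, ℝ)) (z : ℂ) : ℂ :=
  ((γ 0 0 : ℂ) * z + (γ 0 1 : ℂ)) / ((γ 1 0 : ℂ) * z + (γ 1 1 : ℂ))

theorem act_coe (γ : SL(2, ℝ)) (z : ℍ) : act γ z = ((γ • z : ℍ) : ℂ) := (coe_smul' γ z).symm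

theorem act_eq (γ : SL(2, ℝ)) {z : ℂ} (hz : z ∈ UHP) :
    act γ z = ((γ • toH z hz : ℍ) : ℂ) := act_coe γ (toH z hz)

theorem act_mem (γ : SL(2, ℝ)) {z : ℂ} (hz : z ∈ UHP) : act γ z ∈ UHP := by
  rw [act_eq γ hz]; exact (γ • toH z hz).im_pos

theorem toH_act (γ : SL(2, ℝ)) {z : ℂ} (hz : z ∈ UHP) :
    toH (act γ z) (act_mem γ hz) = γ • toH z hz := by
  apply UpperHalfPlane.ext
  exact act_eq γ hz

theorem act_mul (γ γ' : SL(2, ℝ)) {z : ℂ} (hz : z ∈ UHP) :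
    act (γ * γ') z = act γ (act γ' z) := by
  rw [act_eq (γ * γ') hz, act_eq γ (act_mem γ' hz), toH_act γ' hz, mul_smul]

theorem act_one {z : ℂ} (hz : z ∈ UHP) : act 1 z = z := by
  rw [act_eq 1 hz, one_smul]; rfl

theorem denom_eq (γ : SL(2, ℝ)) (z : ℂ) :
    denom γ z = (γ 1 0 : ℂ) * z + (γ 1 1 : ℂ) := rfl

theorem denom_ne' (γ : SL(2, ℝ)) {z : ℂ} (hz : z ∈ UHP) : denom γ z ≠ 0 :=
  denom_ne γ (toH z hz)

theorem hasDerivAt_act (γ : SL(2, ℝ)) {z : ℂ} (hz : z ∈ UHP) :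
    HasDerivAt (act γ) (1 / denom γ z ^ 2) z := by
  have hd := denom_ne' γ hz
  rw [denom_eq] at hd ⊢
  have h1 : HasDerivAt (fun z : ℂ => (γ 0 0 : ℂ) * z + (γ 0 1 : ℂ)) (γ 0 0 : ℂ) z := by
    simpa using ((hasDerivAt_id z).const_mul (γ 0 0 : ℂ)).add_const (γ 0 1 : ℂ)
  have h2 : HasDerivAt (fun z : ℂ => (γ 1 0 : ℂ) * z + (γ 1 1 : ℂ)) (γ 1 0 : ℂ) z := by
    simpa using ((hasDerivAt_id z).const_mul (γ 1 0 : ℂ)).add_const (γ 1 1 : ℂ)
  have h3 := h1.div h2 hd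
  refine h3.congr_deriv ?_
  congr 1
  have hdet : (γ 0 0 : ℂ) * γ 1 1 - (γ 0 1 : ℂ) * γ 1 0 = 1 := by exact_mod_cast det_eq γ
  linear_combination hdet

variable {F : Frame} {κ : ℝ} {Γ : Subgroup SL(2, ℝ)}

/-- Deck transformations map geodesics to geodesics. -/
theorem IsGeod.act (hinv : F.Invariant Γ) {γ : SL(2, ℝ)} (hγ : γ ∈ Γ) {c w : ℝ → ℂ}
    (h : F.IsGeod c w) : ∃ w', F.IsGeod (fun t => act γ (c t)) w' := by
  obtain ⟨U, hU⟩ := hinv γ hγ
  have hU' : ∀ t, _ := fun t => hU (toH (c t) (h.mem t))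
  have hd : ∀ t, HasDerivAt (fun t => Frame.act γ (c t)) (deriv c t / denom γ (c t) ^ 2) t := by
    intro t
    refine ((hasDerivAt_act γ (h.mem t)).scomp t (h.c_deriv t)).congr_deriv ?_
    simp [div_eq_mul_inv]
  refine ⟨fun t => U (c t) * w t, fun t => act_mem γ (h.mem t), fun t => ?_, fun t => ?_,
    fun t => ?_, fun t => ?_⟩
  · obtain ⟨h1, -, -, -, -⟩ := hU' t
    rw [norm_mul, h.unit t, mul_one]
    exact h1
  · exact (hd t).differentiableAt.hasDerivAt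
  · obtain ⟨-, -, h3, -, -⟩ := hU' t
    have h4 := h3 (deriv c t)
    rw [(hd t).deriv, act_eq γ (h.mem t)]
    refine h4.trans ?_
    change U (c t) * F.η (c t) (deriv c t) = _
    rw [h.w_eq t]
  · obtain ⟨-, -, -, h5, h6⟩ := hU' t
    have h7 : HasDerivAt (fun t => U (c t)) (fderiv ℝ U (c t) (deriv c t)) t :=
      (DifferentiableAt.hasFDerivAt h5).comp_hasDerivAt t (h.c_deriv t)
    have h8 := h7.mul (h.w_deriv t)
    refine h8.congr_deriv ?_
    have h9 : fderiv ℝ U (c t) (deriv c t) = _ := h6 (deriv c t)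
    rw [h9, (hd t).deriv, act_eq γ (h.mem t)]
    change -Complex.I * (F.θ ((γ • toH (c t) (h.mem t) : ℍ) : ℂ)
        (deriv c t / denom γ (c t) ^ 2) - F.θ (c t) (deriv c t)) * U (c t) * w t +
      U (c t) * (-Complex.I * F.θ (c t) (deriv c t) * w t) = _
    ring

theorem K_act (hinv : F.Invariant Γ) {γ : SL(2, ℝ)} (hγ : γ ∈ Γ) (z : ℍ) :
    F.K ((γ • z : ℍ) : ℂ) = F.K z := by
  obtain ⟨U, hU⟩ := hinv γ hγ
  exact (hU z).2.1

/-- Compact rectangles. -/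
def RR (n : ℕ) : Set ℂ := {z | |z.re| ≤ n ∧ z.im ≤ n ∧ 1 ≤ n * z.im}

theorem RR_subset (n : ℕ) : RR n ⊆ UHP := by
  intro z hz
  have h : 1 ≤ n * z.im := hz.2.2
  have hn : (0 : ℝ) ≤ n := by positivity
  change 0 < z.im
  by_contra hcon
  push Not at hcon
  nlinarith

theorem isCompact_RR (n : ℕ) : IsCompact (RR n) := by
  refine Metric.isCompact_of_isClosed_isBounded ?_ ?_
  · have c2 : IsClosed {z : ℂ | |z.re| ≤ n} := isClosed_le (by fun_prop) continuous_const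
    have c3 : IsClosed {z : ℂ | z.im ≤ n} := isClosed_le (by fun_prop) continuous_const
    have c4 : IsClosed {z : ℂ | 1 ≤ n * z.im} := isClosed_le continuous_const (by fun_prop)
    exact c2.inter (c3.inter c4)
  · rw [isBounded_iff_forall_norm_le]
    refine ⟨n + n, fun z hz => ?_⟩
    refine (Complex.norm_le_abs_re_add_abs_im _).trans (add_le_add hz.1 ?_)
    rw [abs_of_pos (show (0 : ℝ) < z.im from RR_subset n hz)]
    exact hz.2.1

theorem convex_RR (n : ℕ) : Convex ℝ (RR n) := by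
  intro x hx y hy a b ha hb hab
  refine ⟨?_, ?_, ?_⟩
  · simp only [Complex.add_re, Complex.real_smul, Complex.mul_re, Complex.ofReal_re,
      Complex.ofReal_im, zero_mul, sub_zero]
    have h1 := abs_le.mp hx.1
    have h2 := abs_le.mp hy.1
    rw [abs_le]
    constructor <;> nlinarith
  · simp only [Complex.add_im, Complex.real_smul, Complex.mul_im, Complex.ofReal_re,
      Complex.ofReal_im, zero_mul, add_zero]
    have h1 := hx.2.1
    have h2 := hy.2.1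
    nlinarith
  · simp only [Complex.add_im, Complex.real_smul, Complex.mul_im, Complex.ofReal_re,
      Complex.ofReal_im, zero_mul, add_zero]
    have h1 := hx.2.2
    have h2 := hy.2.2
    nlinarith

theorem RR_mono {n m : ℕ} (h : n ≤ m) : RR n ⊆ RR m := by
  intro z hz
  have h' : (n : ℝ) ≤ m := by exact_mod_cast h
  have h0 : (0 : ℝ) < z.im := RR_subset n hz
  refine ⟨hz.1.trans h', hz.2.1.trans h', hz.2.2.trans ?_⟩
  gcongr

theorem exists_RR {K : Set ℍ} (hK : IsCompact K) (R : ℝ) :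
    ∃ n : ℕ, ∀ z₀ ∈ K, ∀ z : ℍ, dist z₀ z ≤ R → (z : ℂ) ∈ RR n := by
  have hK' : IsCompact (cthickening R K) := hK.cthickening
  obtain ⟨M₁, h₁⟩ := hK'.exists_bound_of_continuousOn (f := fun z : ℍ => z.re)
    (UpperHalfPlane.continuous_re.continuousOn)
  obtain ⟨M₂, h₂⟩ := hK'.exists_bound_of_continuousOn (f := fun z : ℍ => z.im)
    (UpperHalfPlane.continuous_im.continuousOn)
  obtain ⟨M₃, h₃⟩ := hK'.exists_bound_of_continuousOn (f := fun z : ℍ => (z.im)⁻¹)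
    ((UpperHalfPlane.continuous_im.inv₀ (fun z => z.im_ne_zero)).continuousOn)
  refine ⟨⌈max M₁ (max M₂ M₃)⌉₊, fun z₀ hz₀ z hz => ?_⟩
  have hmem : z ∈ cthickening R K :=
    mem_cthickening_of_dist_le z z₀ R K hz₀ (by rwa [dist_comm])
  have hle := Nat.le_ceil (max M₁ (max M₂ M₃))
  have e1 := h₁ z hmem
  have e2 := h₂ z hmem
  have e3 := h₃ z hmem
  rw [Real.norm_eq_abs] at e1 e2 e3
  have hz0 : 0 < z.im := z.im_pos
  have m1 : M₁ ≤ max M₁ (max M₂ M₃) := le_max_left _ _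
  have m2 : M₂ ≤ max M₁ (max M₂ M₃) := (le_max_left _ _).trans (le_max_right _ _)
  have m3 : M₃ ≤ max M₁ (max M₂ M₃) := (le_max_right _ _).trans (le_max_right _ _)
  refine ⟨e1.trans (m1.trans hle), ((le_abs_self _).trans e2).trans (m2.trans hle), ?_⟩
  change (1 : ℝ) ≤ _ * z.im
  have h4 : (z.im)⁻¹ ≤ (⌈max M₁ (max M₂ M₃)⌉₊ : ℝ) :=
    ((le_abs_self _).trans e3).trans (m3.trans hle)
  rw [inv_le_iff_one_le_mul₀ hz0] at h4
  linarith

theorem exists_lipschitz {E : Type*} [NormedAddCommGroup E] [NormedSpace ℝ E] {f : ℂ → E}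
    {S : Set ℂ} (hS : IsCompact S) (hSU : S ⊆ UHP) (hf : ∀ z ∈ UHP, ContDiffAt ℝ 1 f z) :
    ∃ L : ℝ≥0, LipschitzOnWith L f S := by
  refine LocallyLipschitzOn.exists_lipschitzOnWith_of_compact hS ?_
  intro y hy
  obtain ⟨K₁, t, ht, hK₁⟩ := (hf y (hSU hy)).exists_lipschitzOnWith
  exact ⟨K₁, t, mem_nhdsWithin_of_mem_nhds ht, hK₁⟩

/-- Bounded geometry. -/
theorem exists_bdd (hΓ : IsSurfaceGroup Γ) (hinv : F.Invariant Γ) : ∃ κ, F.Bdd κ := by
  obtain ⟨K, hK, hKΓ⟩ := hΓ.cocompact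
  obtain ⟨n, hn⟩ := exists_RR hK 0
  obtain ⟨M₁, hM₁⟩ := (isCompact_RR n).exists_bound_of_continuousOn (f := F.η)
    (F.η_smooth.continuousOn.mono (RR_subset n))
  obtain ⟨M₂, hM₂⟩ := (isCompact_RR n).exists_bound_of_continuousOn (f := F.e)
    (fun z hz => (F.e_contDiffAt (RR_subset n hz)).continuousAt.continuousWithinAt)
  set κ := max 1 (max (M₂ * n) (n * M₁)) with hκ
  have hκ1 : 1 ≤ κ := le_max_left _ _
  have hκ2 : M₂ * n ≤ κ := (le_max_left _ _).trans (le_max_right _ _)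
  have hκ3 : n * M₁ ≤ κ := (le_max_right _ _).trans (le_max_right _ _)
  have hKlow : ∀ z ∈ RR n, ∀ v, ‖v‖ ≤ κ * z.im * ‖F.η z v‖ := by
    intro z hz v
    have hz0 : 0 < z.im := RR_subset n hz
    have h1 : ‖v‖ ≤ M₂ * ‖F.η z v‖ := by
      have : F.e z (F.η z v) = v := F.e_η (RR_subset n hz) v
      calc ‖v‖ = ‖F.e z (F.η z v)‖ := by rw [this]
        _ ≤ ‖F.e z‖ * ‖F.η z v‖ := ContinuousLinearMap.le_opNorm _ _
        _ ≤ M₂ * ‖F.η z v‖ := by
            gcongr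
            exact hM₂ z hz
    have h2 : M₂ ≤ κ * z.im := by
      have h3 : 1 ≤ n * z.im := hz.2.2
      have h4 : 0 ≤ M₂ := (norm_nonneg _).trans (hM₂ z hz)
      calc M₂ = M₂ * 1 := (mul_one _).symm
        _ ≤ M₂ * (n * z.im) := by gcongr
        _ = (M₂ * n) * z.im := by ring
        _ ≤ κ * z.im := by gcongr
    exact h1.trans (by gcongr)
  have hKup : ∀ z ∈ RR n, ∀ v, z.im * ‖F.η z v‖ ≤ κ * ‖v‖ := by
    intro z hz v
    have hz0 : 0 < z.im := RR_subset n hz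
    have h4 : 0 ≤ M₁ := (norm_nonneg _).trans (hM₁ z hz)
    calc z.im * ‖F.η z v‖ ≤ n * (M₁ * ‖v‖) := by
          gcongr
          · exact hz.2.1
          · exact (ContinuousLinearMap.le_opNorm _ _).trans (by gcongr; exact hM₁ z hz)
      _ = (n * M₁) * ‖v‖ := by ring
      _ ≤ κ * ‖v‖ := by gcongr
  have htrans : ∀ z ∈ UHP, ∀ v : ℂ, ∃ z' ∈ RR n, ∃ v' : ℂ, ∃ q : ℝ, 0 < q ∧
      z'.im = z.im / q ∧ ‖v'‖ = ‖v‖ / q ∧ ‖F.η z' v'‖ = ‖F.η z v‖ := by
    intro z hz v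
    obtain ⟨γ, hγ, hγK⟩ := hKΓ (toH z hz)
    obtain ⟨U, hU⟩ := hinv γ hγ
    obtain ⟨h1, -, h3, -, -⟩ := hU (toH z hz)
    have hd := denom_ne' γ hz
    refine ⟨((γ • toH z hz : ℍ) : ℂ), hn _ hγK _ (by simp), v / denom γ z ^ 2,
      ‖denom γ z‖ ^ 2, by positivity, ?_, ?_, ?_⟩
    · have h5 : (γ • toH z hz).im = (toH z hz).im / Complex.normSq (denom γ (toH z hz)) := by
        simp only [MulAction.compHom_smul_def, im_smul_eq_div_normSq,
          Matrix.SpecialLinearGroup.det_mapGL, Units.val_one, abs_one, one_mul]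
        rfl
      rw [Complex.normSq_eq_norm_sq] at h5
      exact h5
    · rw [norm_div, norm_pow]
    · have := h3 v
      calc ‖F.η ((γ • toH z hz : ℍ) : ℂ) (v / denom γ z ^ 2)‖
          = ‖U (toH z hz) * F.η (toH z hz) v‖ := by rw [← this]; rfl
        _ = ‖F.η z v‖ := by rw [norm_mul, h1, one_mul]; rfl
  refine ⟨κ, hκ1, fun z hz v => ?_, fun z hz v => ?_⟩
  · obtain ⟨z', hz', v', q, hq, e1, e2, e3⟩ := htrans z hz v
    have := hKlow z' hz' v'
    rw [e1, e2, e3, div_le_iff₀ hq] at this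
    refine this.trans (le_of_eq ?_)
    field_simp
  · obtain ⟨z', hz', v', q, hq, e1, e2, e3⟩ := htrans z hz v
    have := hKup z' hz' v'
    rw [e1, e2, e3, div_mul_eq_mul_div, mul_div_assoc', div_le_div_iff_of_pos_right hq] at this
    exact this

/-- Quadratic vanishing of the curvature at flat points. -/
theorem exists_curv_bound (hΓ : IsSurfaceGroup Γ) (hinv : F.Invariant Γ)
    (hK : ∀ z ∈ UHP, F.K z ≤ 0) :
    ∃ κ₂ : ℝ, 0 ≤ κ₂ ∧ ∀ z₀ z : ℍ, F.K z₀ = 0 → dist z₀ z ≤ 1 →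
      |F.K z| ≤ κ₂ * dist z₀ z ^ 2 := by
  obtain ⟨K, hKc, hKΓ⟩ := hΓ.cocompact
  obtain ⟨n, hn⟩ := exists_RR hKc 1
  obtain ⟨M, hM⟩ := exists_lipschitz (f := fderiv ℝ F.K) (isCompact_RR n) (RR_subset n)
    (fun z hz => (F.K_contDiffAt hz).fderiv_right (by norm_cast))
  refine ⟨M * (2 * n) ^ 2, by positivity, fun z₀ z h0 hd => ?_⟩
  obtain ⟨γ, hγ, hγK⟩ := hKΓ z₀
  have e1 : F.K ((γ • z₀ : ℍ) : ℂ) = 0 := by rw [K_act hinv hγ, h0]
  have e2 : F.K ((γ • z : ℍ) : ℂ) = F.K z := K_act hinv hγ z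
  have e3 : dist (γ • z₀) (γ • z) = dist z₀ z := dist_smul _ _ _
  rw [← e2, ← e3]
  rw [← e3] at hd
  generalize γ • z₀ = p at *
  generalize γ • z = q at *
  have hp : (p : ℂ) ∈ RR n := hn p hγK p (by simp)
  have hq : (q : ℂ) ∈ RR n := hn p hγK q hd
  have hpU : (p : ℂ) ∈ UHP := RR_subset n hp
  have hmax : IsLocalMax F.K p := by
    filter_upwards [isOpen_UHP.mem_nhds hpU] with y hy
    rw [e1]; exact hK y hy
  have hder : fderiv ℝ F.K p = 0 := hmax.fderiv_eq_zero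
  have hseg : segment ℝ (p : ℂ) q ⊆ RR n := (convex_RR n).segment_subset hp hq
  have h1 := (convex_segment (p : ℂ) q).norm_image_sub_le_of_norm_fderiv_le' (𝕜 := ℝ)
    (f := F.K) (φ := 0) (C := M * ‖(q : ℂ) - p‖)
    (fun x hx => (F.K_contDiffAt (RR_subset n (hseg hx))).differentiableAt (by simp))
    (fun x hx => by
      have h2 := hM.dist_le_mul x (hseg hx) p hp
      rw [dist_eq_norm, dist_eq_norm, hder] at h2
      refine h2.trans ?_
      gcongr
      have := norm_sub_le_of_mem_segment hx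
      simpa [norm_sub_rev] using this)
    (left_mem_segment ℝ (p : ℂ) q) (right_mem_segment ℝ (p : ℂ) q)
  simp only [e1, _root_.zero_apply, sub_zero] at h1
  rw [Real.norm_eq_abs] at h1
  set d := dist p q with hd'
  have hd0 : 0 ≤ d := dist_nonneg
  have h2 : ‖(q : ℂ) - p‖ ≤ p.im * (Real.exp d - 1) := by
    have := dist_coe_le q p
    rw [dist_comm q p, dist_eq_norm] at this
    exact this
  have hexp : Real.exp d ≤ 1 + 2 * d := by
    have h5 := Real.exp_bound' hd0 hd (n := 2) (by norm_num)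
    norm_num [Finset.sum_range_succ] at h5
    nlinarith
  have h3 : ‖(q : ℂ) - p‖ ≤ n * (2 * d) := by
    refine h2.trans ?_
    have h4 : p.im ≤ n := hp.2.1
    have h5 : 0 < p.im := p.im_pos
    have h6 : Real.exp d - 1 ≤ 2 * d := by linarith
    have h7 : 0 ≤ Real.exp d - 1 := by linarith [Real.add_one_le_exp d]
    gcongr
  calc |F.K q| ≤ M * ‖(q : ℂ) - p‖ * ‖(q : ℂ) - p‖ := h1
    _ ≤ M * (n * (2 * d)) * (n * (2 * d)) := by gcongr
    _ = M * (2 * n) ^ 2 * d ^ 2 := by ring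

end Frame

end Knieper
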