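import Pool.Agent.Knieper.Invariance

/-!
# Labels of unit vectors; equal labels give the hypotheses of the closeness theorem
-/

noncomputable section

open Set Filter Topology Metric Complex UpperHalfPlane
open scoped NNReal ContDiff unitInterval MatrixGroups

namespace Knieper

namespace Frame

/-- The reference corner of the square of side `h` containing `z`. -/
def corner (a b : ℤ) (h : ℝ) : ℂ := ⟨a * h, b * h⟩

/-- The label of a unit vector. -/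
def lab (F : Frame) (h h' : ℝ) (z w : ℂ) : ℤ × ℤ × ℤ :=
  (⌊z.re / h⌋, ⌊z.im / h⌋,
    ⌊Complex.arg (w * Complex.exp (Complex.I * F.θ (corner ⌊z.re / h⌋ ⌊z.im / h⌋ h)
      (z - corner ⌊z.re / h⌋ ⌊z.im / h⌋ h))) / h'⌋)

theorem floor_bound {h : ℝ} (hh : 0 < h) (x : ℝ) : |x - ⌊x / h⌋ * h| ≤ h := by
  have h1 : (⌊x / h⌋ : ℝ) ≤ x / h := Int.floor_le _
  have h2 : x / h < ⌊x / h⌋ + 1 := Int.lt_floor_add_one _
  rw [le_div_iff₀ hh] at h1
  rw [div_lt_iff₀ hh] at h2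
  rw [abs_le]
  constructor <;> nlinarith

theorem norm_sub_corner {h : ℝ} (hh : 0 < h) (z : ℂ) :
    ‖z - corner ⌊z.re / h⌋ ⌊z.im / h⌋ h‖ ≤ 2 * h := by
  refine (Complex.norm_le_abs_re_add_abs_im _).trans ?_
  have h1 := floor_bound hh z.re
  have h2 := floor_bound hh z.im
  simp only [corner, Complex.sub_re, Complex.sub_im]
  linarith

theorem corner_mem {m : ℕ} {h : ℝ} (hh : 0 < h) (hm : 2 * m * h ≤ 1) {z : ℂ} (hz : z ∈ RR m) :
    corner ⌊z.re / h⌋ ⌊z.im / h⌋ h ∈ RR (2 * m + 1) := by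
  have h1 := floor_bound hh z.re
  have h2 := floor_bound hh z.im
  have hz0 : 0 < z.im := RR_subset m hz
  obtain ⟨e1, e2, e3⟩ := hz
  have hm1 : (1 : ℝ) ≤ m := by
    have hm0 : (m : ℝ) ≠ 0 := by
      rintro h0; rw [h0] at e3; linarith
    have : m ≠ 0 := by exact_mod_cast hm0
    exact_mod_cast Nat.one_le_iff_ne_zero.mpr this
  have hh1 : h ≤ 1 := by nlinarith
  refine ⟨?_, ?_, ?_⟩
  · simp only [corner]
    push_cast
    rw [abs_le] at h1 e1 ⊢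
    constructor <;> linarith [h1.1, h1.2, e1.1, e1.2]
  · simp only [corner]
    push_cast
    have := (abs_le.mp h2).1
    linarith
  · simp only [corner]
    push_cast
    have h3 := (abs_le.mp h2).2
    have h4 : z.im - h ≤ ⌊z.im / h⌋ * h := by linarith
    have h5 : (1 : ℝ) ≤ (2 * m + 1) * (z.im - h) := by nlinarith
    nlinarith

variable {F : Frame} {κ : ℝ}

/-- Equal labels: the two vectors are joined by a short path. -/
theorem exists_path (hF : F.Bdd κ) {m : ℕ} {M : ℝ≥0}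
    (hM : LipschitzOnWith M F.θ (RR (2 * m + 1))) {l r h h' : ℝ} (hh : 0 < h) (hh' : 0 < h')
    (hmh : 2 * m * h ≤ 1) (h1 : κ * (2 * m + 1) * (2 * h) ≤ r)
    (h2 : h' + M * (2 * h) * (2 * h) ≤ r / l) {z₁ w₁ z₂ w₂ : ℂ}
    (hz₁ : z₁ ∈ RR m) (hz₂ : z₂ ∈ RR m) (hw₁ : ‖w₁‖ = 1) (hw₂ : ‖w₂‖ = 1)
    (hlab : F.lab h h' z₁ w₁ = F.lab h h' z₂ w₂) :
    ∃ x x' : ℝ → ℂ × ℂ, (∀ s ∈ Icc (0 : ℝ) 1, HasDerivAt x (x' s) s) ∧
      ContinuousOn x' (Icc 0 1) ∧ (∀ s ∈ Icc (0 : ℝ) 1, x s ∈ D) ∧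
      (∀ s ∈ Icc (0 : ℝ) 1, ‖(x s).2‖ = 1) ∧
      (∀ s ∈ Icc (0 : ℝ) 1, ‖F.η (x s).1 (x' s).1‖ ≤ r) ∧
      (∀ s ∈ Icc (0 : ℝ) 1,
        ‖(x' s).2 + Complex.I * F.θ (x s).1 (x' s).1 * (x s).2‖ ≤ r / l) ∧
      x 0 = (z₁, w₁) ∧ x 1 = (z₂, w₂) := by
  have hκ : 0 < κ := lt_of_lt_of_le one_pos hF.one_le
  simp only [lab, Prod.mk.injEq] at hlab
  obtain ⟨ha, hb, hc⟩ := hlab
  set Q : ℂ := corner ⌊z₁.re / h⌋ ⌊z₁.im / h⌋ h with hQ
  rw [← ha, ← hb, ← hQ] at hc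
  have hQ₁ : ‖z₁ - Q‖ ≤ 2 * h := norm_sub_corner hh z₁
  have hQ₂ : ‖z₂ - Q‖ ≤ 2 * h := by
    have := norm_sub_corner hh z₂
    rwa [← ha, ← hb, ← hQ] at this
  have hQm : Q ∈ RR (2 * m + 1) := corner_mem hh hmh hz₁
  set φ₁ : ℝ := Complex.arg (w₁ * Complex.exp (Complex.I * F.θ Q (z₁ - Q))) with hφ₁
  set φ₂ : ℝ := Complex.arg (w₂ * Complex.exp (Complex.I * F.θ Q (z₂ - Q))) with hφ₂
  have hφ : |φ₂ - φ₁| ≤ h' := by
    have := Int.abs_sub_lt_one_of_floor_eq_floor hc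
    rw [← sub_div, abs_div, abs_of_pos hh', div_lt_one hh'] at this
    rw [abs_sub_comm]
    exact this.le
  have hz12 : ‖z₂ - z₁‖ ≤ 2 * h := by
    have e1 := Int.abs_sub_lt_one_of_floor_eq_floor ha
    have e2 := Int.abs_sub_lt_one_of_floor_eq_floor hb
    rw [← sub_div, abs_div, abs_of_pos hh, div_lt_one hh] at e1 e2
    rw [norm_sub_rev]
    refine (Complex.norm_le_abs_re_add_abs_im _).trans ?_
    rw [Complex.sub_re, Complex.sub_im]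
    linarith
  have hexpnorm : ∀ x : ℝ, ‖Complex.exp (Complex.I * x)‖ = 1 := fun x => by
    rw [mul_comm]; exact Complex.norm_exp_ofReal_mul_I x
  have hw : ∀ (w z : ℂ), ‖w‖ = 1 →
      Complex.exp (Complex.I * ((Complex.arg (w * Complex.exp (Complex.I * F.θ Q (z - Q)))
        - F.θ Q (z - Q) : ℝ) : ℂ)) = w := by
    intro w z hw
    have h3 := Complex.norm_mul_exp_arg_mul_I (w * Complex.exp (Complex.I * F.θ Q (z - Q)))
    rw [norm_mul, hw, hexpnorm, one_mul, Complex.ofReal_one, one_mul] at h3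
    push_cast
    rw [mul_sub, Complex.exp_sub, mul_comm Complex.I (Complex.arg _ : ℂ), h3]
    have := Complex.exp_ne_zero (Complex.I * F.θ Q (z - Q))
    field_simp
  -- the path
  set ψ : ℝ → ℝ := fun s => φ₁ + s * (φ₂ - φ₁) - (F.θ Q (z₁ - Q) + s * F.θ Q (z₂ - z₁)) with hψ
  have hψ' : ∀ s, HasDerivAt ψ ((φ₂ - φ₁) - F.θ Q (z₂ - z₁)) s := by
    intro s
    have e1 : HasDerivAt (fun s : ℝ => φ₁ + s * (φ₂ - φ₁)) (φ₂ - φ₁) s := by
      simpa using ((hasDerivAt_id s).mul_const (φ₂ - φ₁)).const_add φ₁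
    have e2 : HasDerivAt (fun s : ℝ => F.θ Q (z₁ - Q) + s * F.θ Q (z₂ - z₁))
        (F.θ Q (z₂ - z₁)) s := by
      simpa using ((hasDerivAt_id s).mul_const (F.θ Q (z₂ - z₁))).const_add (F.θ Q (z₁ - Q))
    exact e1.sub e2
  have hW : ∀ s, HasDerivAt (fun s => Complex.exp (Complex.I * (ψ s : ℂ)))
      (Complex.exp (Complex.I * (ψ s : ℂ)) * (Complex.I *
        (((φ₂ - φ₁) - F.θ Q (z₂ - z₁) : ℝ) : ℂ))) s := by
    intro s
    exact ((hψ' s).ofReal_comp.const_mul Complex.I).cexp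
  have hz : ∀ s : ℝ, HasDerivAt (fun s : ℝ => z₁ + s • (z₂ - z₁)) (z₂ - z₁) s := fun s => by
    simpa using ((hasDerivAt_id s).smul_const (z₂ - z₁)).const_add z₁
  have hmono : RR m ⊆ RR (2 * m + 1) := RR_mono (by omega)
  have hzmem : ∀ s ∈ Icc (0 : ℝ) 1, z₁ + s • (z₂ - z₁) ∈ RR (2 * m + 1) := by
    intro s hs
    have := (convex_RR (2 * m + 1)).add_smul_sub_mem (hmono hz₁) (hmono hz₂) hs
    exact this
  have hzQ : ∀ s ∈ Icc (0 : ℝ) 1, ‖z₁ + s • (z₂ - z₁) - Q‖ ≤ 2 * h := by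
    intro s hs
    have e : z₁ + s • (z₂ - z₁) - Q = (1 - s) • (z₁ - Q) + s • (z₂ - Q) := by
      simp only [Complex.real_smul]; push_cast; ring
    rw [e]
    refine (norm_add_le _ _).trans ?_
    rw [norm_smul, norm_smul, Real.norm_of_nonneg hs.1, Real.norm_of_nonneg (by linarith [hs.2])]
    nlinarith [hs.1, hs.2]
  refine ⟨fun s => (z₁ + s • (z₂ - z₁), Complex.exp (Complex.I * (ψ s : ℂ))),
    fun s => (z₂ - z₁, Complex.exp (Complex.I * (ψ s : ℂ)) * (Complex.I *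
        (((φ₂ - φ₁) - F.θ Q (z₂ - z₁) : ℝ) : ℂ))), fun s _ => (hz s).prodMk (hW s),
    ?_, ?_, ?_, ?_, ?_, ?_, ?_⟩
  · have c1 : Continuous ψ := continuous_iff_continuousAt.mpr fun s => (hψ' s).continuousAt
    refine Continuous.continuousOn ?_
    fun_prop
  · intro s hs
    exact mem_D.mpr (RR_subset _ (hzmem s hs))
  · intro s _
    exact hexpnorm _
  · intro s hs
    have hmem := hzmem s hs
    have hpos : 0 < (z₁ + s • (z₂ - z₁)).im := RR_subset _ hmem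
    have h3 := hF.up _ (RR_subset _ hmem) (z₂ - z₁)
    have h4 : 1 ≤ ((2 * m + 1 : ℕ) : ℝ) * (z₁ + s • (z₂ - z₁)).im := hmem.2.2
    push_cast at h4
    have h5 : 0 ≤ ‖F.η (z₁ + s • (z₂ - z₁)) (z₂ - z₁)‖ := norm_nonneg _
    calc ‖F.η (z₁ + s • (z₂ - z₁)) (z₂ - z₁)‖
        ≤ ((2 * m + 1) * (z₁ + s • (z₂ - z₁)).im) *
            ‖F.η (z₁ + s • (z₂ - z₁)) (z₂ - z₁)‖ := by nlinarith
      _ = (2 * m + 1) * ((z₁ + s • (z₂ - z₁)).im *
            ‖F.η (z₁ + s • (z₂ - z₁)) (z₂ - z₁)‖) := by ring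
      _ ≤ (2 * m + 1) * (κ * ‖z₂ - z₁‖) := by gcongr
      _ ≤ (2 * m + 1) * (κ * (2 * h)) := by gcongr
      _ = κ * (2 * m + 1) * (2 * h) := by ring
      _ ≤ r := h1
  · intro s hs
    have e : Complex.exp (Complex.I * (ψ s : ℂ)) * (Complex.I *
        (((φ₂ - φ₁) - F.θ Q (z₂ - z₁) : ℝ) : ℂ)) +
        Complex.I * (F.θ (z₁ + s • (z₂ - z₁)) (z₂ - z₁) : ℂ) *
          Complex.exp (Complex.I * (ψ s : ℂ))
        = Complex.exp (Complex.I * (ψ s : ℂ)) * Complex.I *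
          (((φ₂ - φ₁) + (F.θ (z₁ + s • (z₂ - z₁)) - F.θ Q) (z₂ - z₁) : ℝ) : ℂ) := by
      simp only [_root_.sub_apply]
      push_cast; ring
    simp only [e, norm_mul, hexpnorm, Complex.norm_I, one_mul, Complex.norm_real]
    refine (norm_add_le _ _).trans (le_trans (add_le_add hφ ?_) h2)
    refine (ContinuousLinearMap.le_opNorm _ _).trans ?_
    have h3 := hM.dist_le_mul _ (hzmem s hs) Q hQm
    rw [dist_eq_norm, dist_eq_norm] at h3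
    have h4 := hzQ s hs
    calc ‖F.θ (z₁ + s • (z₂ - z₁)) - F.θ Q‖ * ‖z₂ - z₁‖
        ≤ (M * ‖z₁ + s • (z₂ - z₁) - Q‖) * (2 * h) := by gcongr
      _ ≤ (M * (2 * h)) * (2 * h) := by gcongr
  · refine Prod.ext (by simp) ?_
    simp only [hψ, zero_mul, add_zero]
    exact hw w₁ z₁ hw₁
  · refine Prod.ext (by simp) ?_
    have e : ψ 1 = φ₂ - F.θ Q (z₂ - Q) := by
      have e2 : F.θ Q (z₂ - Q) = F.θ Q (z₁ - Q) + F.θ Q (z₂ - z₁) := by
        rw [← map_add]; congr 1; ring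
      simp only [hψ, e2]; ring
    simp only [e]
    exact hw w₂ z₂ hw₂

/-- The range of the labels. -/
theorem lab_mem {m : ℕ} {h h' : ℝ} (hh : 0 < h) (hh' : 0 < h') {z w : ℂ} (hz : z ∈ RR m) :
    F.lab h h' z w ∈ (Finset.Icc (-(⌈m / h⌉₊ + 1 : ℤ)) (⌈m / h⌉₊ + 1)) ×ˢ
      ((Finset.Icc (-(⌈m / h⌉₊ + 1 : ℤ)) (⌈m / h⌉₊ + 1)) ×ˢ
      (Finset.Icc (-(⌈4 / h'⌉₊ + 1 : ℤ)) (⌈4 / h'⌉₊ + 1))) := by
  have key : ∀ (x a : ℝ), |x| ≤ a → ⌊x⌋ ∈ Finset.Icc (-(⌈a⌉₊ + 1 : ℤ)) (⌈a⌉₊ + 1) := by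
    intro x a hx
    have h1 := abs_le.mp hx
    have h2 : a ≤ (⌈a⌉₊ : ℝ) := Nat.le_ceil a
    rw [Finset.mem_Icc]
    constructor
    · rw [Int.le_floor]
      push_cast
      linarith
    · have h3 : (⌊x⌋ : ℝ) ≤ x := Int.floor_le x
      have h4 : ((⌊x⌋ : ℤ) : ℝ) ≤ ((⌈a⌉₊ + 1 : ℤ) : ℝ) := by push_cast; linarith
      exact_mod_cast h4
  simp only [lab, Finset.mem_product]
  refine ⟨key _ _ ?_, key _ _ ?_, key _ _ ?_⟩
  · rw [abs_div, abs_of_pos hh]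
    have := hz.1
    gcongr
  · rw [abs_div, abs_of_pos hh]
    have h1 := hz.2.1
    have h2 : 0 < z.im := RR_subset m hz
    rw [abs_of_pos h2]
    gcongr
  · rw [abs_div, abs_of_pos hh']
    have h1 := Complex.abs_arg_le_pi (w * Complex.exp (Complex.I * F.θ
      (corner ⌊z.re / h⌋ ⌊z.im / h⌋ h) (z - corner ⌊z.re / h⌋ ⌊z.im / h⌋ h)))
    have h2 := Real.pi_le_four
    gcongr
    linarith

end Frame

end Knieper
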