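import Pool.Agent.Knieper.Count
import Pool.Agent.Knieper.FrameOf

/-!
# The quadratic bound
-/

noncomputable section

open Set Filter Topology Metric Complex UpperHalfPlane
open scoped NNReal ContDiff unitInterval MatrixGroups

namespace Knieper

namespace Frame

variable {F : Frame} {κ : ℝ} {Γ : Subgroup SL(2, ℝ)}

theorem primClasses_mono {T T' : ℝ} (h : T ≤ T') : primClasses F Γ T ⊆ primClasses F Γ T' := by
  rintro x ⟨γ, h1, h2, ℓ, c, w, h3, h4⟩
  exact ⟨γ, h1, h2, ℓ, c, w, h3.trans h, h4⟩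

theorem primClasses_empty (Φ : GeoFlow F) (hF : F.Bdd κ) (hK : ∀ z ∈ UHP, F.K z ≤ 0)
    {δ : ℝ} (hδ : ∀ γ ∈ Γ, γ ≠ 1 → ∀ z : ℍ, δ ≤ dist z (γ • z)) {T : ℝ}
    (hT : T < min (1 / (2 * κ)) (δ / (3 * κ))) : primClasses F Γ T = ∅ := by
  rw [Set.eq_empty_iff_forall_notMem]
  rintro x ⟨γ, -, -, ℓ, c, w, h3, h4⟩
  have hne : (γ : SL(2, ℝ)) ≠ 1 := by
    intro h
    have := h4.zpow_ne_one Φ hF hK (n := 1) (by rw [zpow_one]; exact h)
    omega
  have := h4.length_lower hF hδ γ.2 hne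
  linarith

theorem card_prim (Φ : GeoFlow F) (hF : F.Bdd κ) (hK : ∀ z ∈ UHP, F.K z ≤ 0)
    (hΓ : IsSurfaceGroup Γ) (hinv : F.Invariant Γ) :
    ∃ (C ℓ₀ : ℝ), 0 ≤ C ∧ 0 < ℓ₀ ∧ (∀ T < ℓ₀, primClasses F Γ T = ∅) ∧
      ∀ T, (primClasses F Γ T).Finite ∧ ((primClasses F Γ T).ncard : ℝ) ≤ C * T ^ 2 := by
  have hκ : 0 < κ := lt_of_lt_of_le one_pos hF.one_le
  obtain ⟨δ, hδ0, hδ⟩ := displacement Γ hΓ
  set ℓ₀ : ℝ := min (1 / (2 * κ)) (δ / (3 * κ)) with hℓ₀
  have hℓ₀0 : 0 < ℓ₀ := lt_min (by positivity) (by positivity)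
  obtain ⟨C, hC0, hC⟩ := count_diff Φ hF hK hΓ hinv hℓ₀0
  have hempty : ∀ T < ℓ₀, primClasses F Γ T = ∅ := fun T hT => primClasses_empty Φ hF hK hδ hT
  have key : ∀ n : ℕ, ∀ T < 2 ^ n * ℓ₀, (primClasses F Γ T).Finite ∧
      ((primClasses F Γ T).ncard : ℝ) ≤ (4 / 3 * C) * T ^ 2 := by
    intro n
    induction n with
    | zero =>
      intro T hT
      rw [pow_zero, one_mul] at hT
      rw [hempty T hT]
      simp only [Set.finite_empty, Set.ncard_empty, Nat.cast_zero, true_and]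
      positivity
    | succ n ih =>
      intro T hT
      by_cases hTl : T < ℓ₀
      · rw [hempty T hTl]
        simp only [Set.finite_empty, Set.ncard_empty, Nat.cast_zero, true_and]
        positivity
      · push Not at hTl
        obtain ⟨h1, h2⟩ := ih (T / 2) (by rw [pow_succ] at hT; linarith)
        obtain ⟨h3, h4⟩ := hC T hTl
        have hsub : primClasses F Γ T ⊆ (primClasses F Γ T \ primClasses F Γ (T / 2)) ∪
            primClasses F Γ (T / 2) := by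
          intro x hx
          by_cases hx' : x ∈ primClasses F Γ (T / 2)
          · exact Or.inr hx'
          · exact Or.inl ⟨hx, hx'⟩
        have hfin := h3.union h1
        refine ⟨hfin.subset hsub, ?_⟩
        have h5 : (primClasses F Γ T).ncard ≤ (primClasses F Γ T \ primClasses F Γ (T / 2)).ncard
            + (primClasses F Γ (T / 2)).ncard :=
          (Set.ncard_le_ncard hsub hfin).trans (Set.ncard_union_le _ _)
        have h6 : ((primClasses F Γ T).ncard : ℝ)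
            ≤ ((primClasses F Γ T \ primClasses F Γ (T / 2)).ncard : ℝ)
            + ((primClasses F Γ (T / 2)).ncard : ℝ) := by exact_mod_cast h5
        nlinarith
  refine ⟨4 / 3 * C, ℓ₀, by positivity, hℓ₀0, hempty, fun T => ?_⟩
  obtain ⟨n, hn⟩ := pow_unbounded_of_one_lt (T / ℓ₀) (show (1 : ℝ) < 2 by norm_num)
  refine key n T ?_
  rwa [div_lt_iff₀ hℓ₀0] at hn

/-- Classes with a zero-curvature axis of length at most `T`. -/
def allClasses (F : Frame) (Γ : Subgroup SL(2, ℝ)) (T : ℝ) : Set (ConjClasses Γ) :=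
  {x | ∃ γ : Γ, ConjClasses.mk γ = x ∧
    ∃ (ℓ : ℝ) (c w : ℝ → ℂ), ℓ ≤ T ∧ F.FlatAxis γ ℓ c w}

/-- The `k`-th power map on conjugacy classes. -/
def powClass (k : ℕ) (x : ConjClasses Γ) : ConjClasses Γ := ConjClasses.mk (Quotient.out x ^ k)

theorem powClass_mk (k : ℕ) (γ : Γ) : powClass k (ConjClasses.mk γ) = ConjClasses.mk (γ ^ k) := by
  rw [powClass, ConjClasses.mk_eq_mk_iff_isConj]
  have h : IsConj (Quotient.out (ConjClasses.mk γ)) γ := by
    rw [← ConjClasses.mk_eq_mk_iff_isConj]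
    exact Quotient.out_eq _
  exact h.pow k

theorem sum_inv_sq (n : ℕ) : ∑ k ∈ Finset.range n, (1 : ℝ) / ((k : ℝ) + 1) ^ 2 ≤ 2 := by
  have key : ∀ n : ℕ, ∑ k ∈ Finset.range (n + 1), (1 : ℝ) / ((k : ℝ) + 1) ^ 2
      ≤ 2 - 1 / ((n : ℝ) + 1) := by
    intro n
    induction n with
    | zero => norm_num
    | succ n ih =>
      rw [Finset.sum_range_succ]
      refine (add_le_add_left ih _).trans ?_
      push_cast
      have h1 : (0 : ℝ) < (n : ℝ) + 1 := by positivity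
      have h2 : (0 : ℝ) < (n : ℝ) + 1 + 1 := by positivity
      have h3 : 1 / ((n : ℝ) + 1 + 1) ^ 2 ≤ 1 / ((n : ℝ) + 1) - 1 / ((n : ℝ) + 1 + 1) := by
        rw [div_sub_div _ _ h1.ne' h2.ne', div_le_div_iff₀ (by positivity) (by positivity)]
        nlinarith
      linarith
  cases n with
  | zero => simp
  | succ n =>
    refine (key n).trans ?_
    have : 0 ≤ 1 / ((n : ℝ) + 1) := by positivity
    linarith

theorem card_all (Φ : GeoFlow F) (hF : F.Bdd κ) (hK : ∀ z ∈ UHP, F.K z ≤ 0)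
    (hΓ : IsSurfaceGroup Γ) (hinv : F.Invariant Γ) :
    ∃ C : ℝ, 0 ≤ C ∧ ∀ T, 0 ≤ T → (allClasses F Γ T).Finite ∧
      ((allClasses F Γ T).ncard : ℝ) ≤ C * T ^ 2 := by
  obtain ⟨C, ℓ₀, hC0, hℓ₀, hempty, hC⟩ := card_prim Φ hF hK hΓ hinv
  refine ⟨2 * C, by positivity, fun T hT0 => ?_⟩
  set n : ℕ := ⌊T / ℓ₀⌋₊ with hn
  have hsub : allClasses F Γ T ⊆ ⋃ k ∈ Finset.range n,
      powClass (k + 1) '' primClasses F Γ (T / ((k : ℝ) + 1)) := by
    rintro x ⟨γ, rfl, ℓ, c, w, hℓ, hax⟩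
    have hne : (γ : SL(2, ℝ)) ≠ 1 := by
      intro h
      have := hax.zpow_ne_one Φ hF hK (n := 1) (by rw [zpow_one]; exact h)
      omega
    -- the generator of the centraliser
    obtain ⟨τ, hτ, hcent⟩ := centralizer Γ hΓ γ γ.2 hne
    obtain ⟨k, hk⟩ := (hcent γ γ.2).mp rfl
    have hk0 : k ≠ 0 := by
      rintro rfl
      rw [zpow_zero] at hk
      exact hne hk
    -- positive power
    obtain ⟨τ', hτ', hcent', k', hk'0, hk'⟩ : ∃ τ' ∈ Γ,
        (∀ x ∈ Γ, (x * (γ : SL(2, ℝ)) = γ * x ↔ ∃ k : ℤ, x = τ' ^ k)) ∧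
        ∃ k' : ℕ, 0 < k' ∧ (γ : SL(2, ℝ)) = τ' ^ k' := by
      rcases lt_or_gt_of_ne hk0 with hneg | hpos
      · refine ⟨τ⁻¹, Γ.inv_mem hτ, fun x hx => ?_, (-k).toNat, by omega, ?_⟩
        · rw [hcent x hx]
          constructor
          · rintro ⟨j, rfl⟩; exact ⟨-j, by rw [inv_zpow, zpow_neg, inv_inv]⟩
          · rintro ⟨j, rfl⟩; exact ⟨-j, by rw [inv_zpow, zpow_neg]⟩
        · rw [hk, ← zpow_natCast, Int.toNat_of_nonneg (by omega), inv_zpow, zpow_neg, inv_inv]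
      · refine ⟨τ, hτ, hcent, k.toNat, by omega, ?_⟩
        rw [← zpow_natCast, Int.toNat_of_nonneg (by omega)]
        exact hk
    have hne' : τ' ^ k' ≠ 1 := by rw [← hk']; exact hne
    have hax' : F.FlatAxis (τ' ^ k') ℓ c w := by rw [← hk']; exact hax
    have hroot := root_axis Φ hF hK hΓ hinv hτ' hk'0 hne' hax'
    have hk'R : (0 : ℝ) < k' := by exact_mod_cast hk'0
    have hmem : ConjClasses.mk (⟨τ', hτ'⟩ : Γ) ∈ primClasses F Γ (T / k') := by
      refine ⟨⟨τ', hτ'⟩, rfl, fun y hy hcomm => ?_, ℓ / k', c, w, by gcongr, hroot⟩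
      have : y * (γ : SL(2, ℝ)) = γ * y := by
        rw [hk']
        exact (Commute.pow_right (show Commute y τ' from hcomm) k')
      exact (hcent' y hy).mp this
    have hk'n : k' ≤ n := by
      rw [hn, Nat.le_floor_iff (by positivity), le_div_iff₀ hℓ₀]
      by_contra hcon
      push Not at hcon
      have h1 : T / k' < ℓ₀ := by
        rw [div_lt_iff₀ hk'R]; linarith
      rw [hempty _ h1] at hmem
      exact hmem
    rw [Set.mem_iUnion₂]
    refine ⟨k' - 1, Finset.mem_range.mpr (by omega), ConjClasses.mk (⟨τ', hτ'⟩ : Γ), ?_, ?_⟩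
    · have : ((k' - 1 : ℕ) : ℝ) + 1 = k' := by
        have h2 : (k' - 1) + 1 = k' := by omega
        exact_mod_cast h2
      rw [this]
      exact hmem
    · rw [powClass_mk]
      congr 1
      apply Subtype.ext
      have h2 : (k' - 1) + 1 = k' := by omega
      rw [h2]
      exact hk'.symm
  have hfin : (⋃ k ∈ Finset.range n,
      powClass (k + 1) '' primClasses F Γ (T / ((k : ℝ) + 1))).Finite :=
    Set.Finite.biUnion (Finset.range n).finite_toSet fun k _ => (hC _).1.image _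
  refine ⟨hfin.subset hsub, ?_⟩
  have h1 : (allClasses F Γ T).ncard ≤ ∑ k ∈ Finset.range n,
      (powClass (k + 1) '' primClasses F Γ (T / ((k : ℝ) + 1))).ncard := by
    refine (Set.ncard_le_ncard hsub hfin).trans ?_
    exact Finset.set_ncard_biUnion_le _ _
  have h2 : ((allClasses F Γ T).ncard : ℝ) ≤ ∑ k ∈ Finset.range n,
      C * T ^ 2 * (1 / ((k : ℝ) + 1) ^ 2) := by
    have h3 : ((allClasses F Γ T).ncard : ℝ) ≤ ∑ k ∈ Finset.range n,
      ((powClass (k + 1) '' primClasses F Γ (T / ((k : ℝ) + 1))).ncard : ℝ) := by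
      exact_mod_cast h1
    refine h3.trans (Finset.sum_le_sum fun k _ => ?_)
    have h4 : ((powClass (k + 1) '' primClasses F Γ (T / ((k : ℝ) + 1))).ncard : ℝ)
        ≤ ((primClasses F Γ (T / ((k : ℝ) + 1))).ncard : ℝ) := by
      exact_mod_cast Set.ncard_image_le (hC _).1
    refine h4.trans ((hC _).2.trans (le_of_eq ?_))
    rw [div_pow]; ring
  rw [← Finset.mul_sum] at h2
  refine h2.trans ?_
  have h5 := sum_inv_sq n
  calc C * T ^ 2 * ∑ k ∈ Finset.range n, (1 : ℝ) / ((k : ℝ) + 1) ^ 2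
      ≤ C * T ^ 2 * 2 := by gcongr
    _ = 2 * C * T ^ 2 := by ring

end Frame

/-- **Main theorem.** -/
theorem main : MainStatement := by
  intro Γ hΓ m hinv hcurv
  obtain ⟨F, hFinv, hFK, -, hFgeo⟩ := frameOf Γ m hinv
  have hK : ∀ z ∈ UHP, F.K z ≤ 0 := fun z hz => by rw [hFK z hz]; exact hcurv z hz
  obtain ⟨κ, hF⟩ := Frame.exists_bdd hΓ hFinv
  obtain ⟨Φ⟩ := hF.exists_geoFlow
  obtain ⟨C, hC0, hC⟩ := Frame.card_all Φ hF hK hΓ hFinv
  refine ⟨C + 1, by positivity, fun T hT => ?_⟩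
  have hsub : m.flatClasses Γ T ⊆ Frame.allClasses F Γ T := by
    rintro x ⟨γ, h1, ℓ, c, h2, h3, h4, h5, h6⟩
    obtain ⟨w, hw⟩ := hFgeo c h4
    refine ⟨γ, h1, ℓ, fun t => (c t : ℂ), w, h3, hw, h2, fun t => ?_, fun t => ?_⟩
    · rw [hFK _ (c t).im_pos]; exact h5 t
    · rw [h6 t, Frame.act_coe]
  obtain ⟨h1, h2⟩ := hC T (by linarith)
  refine ⟨h1.subset hsub, ?_⟩
  have h3 : ((m.flatClasses Γ T).ncard : ℝ) ≤ ((Frame.allClasses F Γ T).ncard : ℝ) := by
    exact_mod_cast Set.ncard_le_ncard hsub h1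
  have h4 : 0 ≤ T ^ 2 := by positivity
  nlinarith

end Knieper
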