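import Mathlib

/-!
# Knieper's question (MP_8d04fc_gt): definitions used in the statement

`Γ` is a subgroup of `SL(2,ℝ)` acting on the upper half plane `ℍ` freely, properly discontinuously
and cocompactly, so that `S = Γ \ ℍ` is a closed oriented surface of genus at least two (every such
surface arises, up to diffeomorphism).  A smooth Riemannian metric on `S` is a `Γ`-invariant smooth
Riemannian metric on `ℍ`, given by its coefficient matrix `g` in the coordinates `x = Re z`,
`y = Im z`.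
-/

noncomputable section

open Complex UpperHalfPlane Matrix
open scoped MatrixGroups ContDiff

namespace Knieper

/-- `Γ` is the deck group of a closed oriented surface of genus at least two. -/
structure IsSurfaceGroup (Γ : Subgroup SL(2, ℝ)) : Prop where
  /-- the action on the upper half plane is free -/
  free : ∀ γ ∈ Γ, ∀ z : ℍ, γ • z = z → γ = 1
  /-- the action is properly discontinuous -/
  proper : ∀ K : Set ℍ, IsCompact K → {γ : SL(2, ℝ) | γ ∈ Γ ∧ ∃ z ∈ K, γ • z ∈ K}.Finite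
  /-- the quotient is compact -/
  cocompact : ∃ K : Set ℍ, IsCompact K ∧ ∀ z : ℍ, ∃ γ ∈ Γ, γ • z ∈ K

/-- The coordinate vector fields `∂/∂x` (index `0`) and `∂/∂y` (index `1`). -/
def bv (i : Fin 2) : ℂ := ![1, Complex.I] i

/-- The coordinates of a tangent vector `v : ℂ`. -/
def co (i : Fin 2) (v : ℂ) : ℝ := ![v.re, v.im] i

/-- Partial derivative in the direction of the `i`-th coordinate. -/
def pd (i : Fin 2) (f : ℂ → ℝ) (z : ℂ) : ℝ := fderiv ℝ f z (bv i)

/-- A smooth Riemannian metric on the upper half plane, given by its coefficient matrix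
`g_{ij}`. (Values of `g` outside of the upper half plane are irrelevant.) -/
structure Metric where
  g : ℂ → Matrix (Fin 2) (Fin 2) ℝ
  smooth : ∀ i j, ContDiffOn ℝ ∞ (fun z => g z i j) {z : ℂ | 0 < z.im}
  posDef : ∀ z : ℂ, 0 < z.im → (g z).PosDef

namespace Metric

variable (m : Metric)

/-- The inner product `g_z(v,w)` of two tangent vectors at `z`. -/
def ip (z v w : ℂ) : ℝ := ∑ i, ∑ j, m.g z i j * co i v * co j w

/-- Christoffel symbols `Γ^k_{ij}` of the Levi-Civita connection. -/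
def chr (k i j : Fin 2) (z : ℂ) : ℝ :=
  (1 / 2) * ∑ l, (m.g z)⁻¹ k l *
    (pd i (fun w => m.g w j l) z + pd j (fun w => m.g w i l) z - pd l (fun w => m.g w i j) z)

/-- The Gaussian curvature `⟨R(∂₀,∂₁)∂₁,∂₀⟩ / det g`, where
`R(X,Y)Z = ∇_X ∇_Y Z - ∇_Y ∇_X Z - ∇_[X,Y] Z`. -/
def curv (z : ℂ) : ℝ :=
  (∑ l, m.g z l 0 * (pd 0 (m.chr l 1 1) z - pd 1 (m.chr l 0 1) z
    + ∑ k, (m.chr k 1 1 z * m.chr l 0 k z - m.chr k 0 1 z * m.chr l 1 k z))) / (m.g z).det

/-- The metric is invariant under the group `Γ`, i.e. it is the lift of a metric on the surface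
`Γ \ ℍ`: the derivative of `z ↦ (a z + b) / (c z + d)` at `z` is multiplication by
`1 / (c z + d) ^ 2`. -/
def Invariant (Γ : Subgroup SL(2, ℝ)) : Prop :=
  ∀ γ ∈ Γ, ∀ z : ℍ, ∀ v w : ℂ,
    m.ip ((γ • z : ℍ) : ℂ) (v / denom γ z ^ 2) (w / denom γ z ^ 2) = m.ip z v w

/-- `c : ℝ → ℍ` is a unit speed geodesic. -/
structure IsGeodesic (c : ℝ → ℍ) : Prop where
  smooth : ContDiff ℝ 2 (fun t => (c t : ℂ))
  unit : ∀ t, m.ip (c t) (deriv (fun s => (c s : ℂ)) t) (deriv (fun s => (c s : ℂ)) t) = 1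
  eqn : ∀ t k, co k (deriv (deriv (fun s => (c s : ℂ))) t)
    + ∑ i, ∑ j, m.chr k i j (c t) * co i (deriv (fun s => (c s : ℂ)) t)
        * co j (deriv (fun s => (c s : ℂ)) t) = 0

/-- The set of free homotopy classes of closed curves on `Γ \ ℍ` (= conjugacy classes of `Γ`)
that contain a closed geodesic of length at most `T` along which the curvature vanishes. -/
def flatClasses (Γ : Subgroup SL(2, ℝ)) (T : ℝ) : Set (ConjClasses Γ) :=
  {x | ∃ γ : Γ, ConjClasses.mk γ = x ∧ ∃ (ℓ : ℝ) (c : ℝ → ℍ), 0 < ℓ ∧ ℓ ≤ T ∧ m.IsGeodesic c ∧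
    (∀ t, m.curv (c t) = 0) ∧ ∀ t, c (t + ℓ) = (γ : SL(2, ℝ)) • c t}

end Metric

end Knieper
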